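import Pool.Agent.V7H67.NM.Sub
import Pool.Agent.H623R2.PS.Quant
import Pool.Agent.V7H67.LI.Fin

/-!
# Membership in polynomial space
-/

namespace Pool.Agent.V7H67.NM

open Pool.Agent.NPC Pool.Agent.H623R2.PS Pool.Agent.V7H67.LI

section

variable {G : Type} [Group G] [Finite G] [TEnc G] {m : ℕ} (e : G ≃ Fin m)
variable {α : Type} [TEnc α]

theorem poly_elt : NPC.Poly (elt e) := by
  have h1 : NPC.Poly (fun k : Fin (m + 1) => elt e k.val) := poly_finite _
  have h2 : NPC.Poly (fun k : ℕ => (⟨min k m, by omega⟩ : Fin (m + 1))) := by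
    have h3 : NPC.Poly (fun k : ℕ => min k m) := by fun_prop
    exact NPC.Poly.of_toT (h3.toT'.congr fun k => rfl)
  refine (h1.comp h2).congr fun k => ?_
  show elt e (min k m) = elt e k
  unfold elt
  rcases Nat.lt_or_ge k m with h | h
  · rw [dif_pos h, dif_pos (by omega)]
    exact congrArg e.symm (Fin.ext (min_eq_left h.le))
  · rw [dif_neg (by omega), dif_neg (by omega)]

omit [Group G] [Finite G] [TEnc G] in
theorem set_eq (x : List G) (i : ℕ) (v : G) :
    x.set i v = x.zipIdx.map fun p => if p.2 = i then v else p.1 := by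
  apply List.ext_getElem
  · simp
  · intro k h1 h2
    rw [List.getElem_set]
    simp only [List.getElem_map, List.getElem_zipIdx, Nat.zero_add]
    by_cases h : i = k
    · subst h; simp
    · rw [if_neg h, if_neg fun h' => h h'.symm]

theorem poly_mul' {f h : α → G} (hf : NPC.Poly f) (hh : NPC.Poly h) :
    NPC.Poly (fun a => f a * h a) :=
  (poly_finite (fun p : G × G => p.1 * p.2)).comp (NPC.Poly.pair hf hh)

theorem poly_inv' {f : α → G} (hf : NPC.Poly f) : NPC.Poly (fun a => (f a)⁻¹) :=
  (poly_finite (fun p : G => p⁻¹)).comp hf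

theorem poly_asg : NPC.Poly (fun p : List G × (Bool × ℕ × ℕ × ℕ) => asg p.1 p.2) := by
  have h1 : NPC.Poly (fun p : List G × (Bool × ℕ × ℕ × ℕ) => p.1.getD p.2.2.2.1 1) := by fun_prop
  have h2 : NPC.Poly (fun p : List G × (Bool × ℕ × ℕ × ℕ) => p.1.getD p.2.2.2.2 1) := by fun_prop
  have h3 : NPC.Poly (fun p : List G × (Bool × ℕ × ℕ × ℕ) =>
      if p.2.1 then (p.1.getD p.2.2.2.2 1)⁻¹ else p.1.getD p.2.2.2.2 1) :=
    NPC.Poly.ite (by fun_prop) (poly_inv' h2) h2
  have h4 := poly_mul' h1 h3
  have h5 : NPC.Poly (fun p : List G × (Bool × ℕ × ℕ × ℕ) => p.1.zipIdx.map fun q =>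
      if q.2 = p.2.2.1 then p.1.getD p.2.2.2.1 1 *
        (if p.2.1 then (p.1.getD p.2.2.2.2 1)⁻¹ else p.1.getD p.2.2.2.2 1) else q.1) := by
    refine NPC.Poly.map (F := fun (p : List G × (Bool × ℕ × ℕ × ℕ)) (q : G × ℕ) =>
      if q.2 = p.2.2.1 then p.1.getD p.2.2.2.1 1 *
        (if p.2.1 then (p.1.getD p.2.2.2.2 1)⁻¹ else p.1.getD p.2.2.2.2 1) else q.1)
      (NPC.Poly.zipIdx (NPC.Poly.fst NPC.Poly.id)) ?_
    exact NPC.Poly.ite (by fun_prop) (h4.comp (NPC.Poly.fst NPC.Poly.id)) (by fun_prop)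
  unfold asg
  refine NPC.Poly.ite (by fun_prop) (h5.congr fun p => ?_) (by fun_prop)
  exact (set_eq _ _ _).symm

theorem exists_szl (G : Type) [Finite G] [TEnc G] : ∃ C, ∀ x : List G, sz x ≤ x.length * C + 1 := by
  obtain ⟨C, hC⟩ := exists_sz_le G
  refine ⟨C + 1, fun x => ?_⟩
  have := sz_le_length_mul x C fun a _ => hC a
  omega

theorem poly_asgs : NPC.Poly (fun p : List (Bool × ℕ × ℕ × ℕ) × List G => asgs p.1 p.2) := by
  obtain ⟨C, hC⟩ := exists_szl G
  unfold asgs
  refine NPC.Poly.foldl (l := fun p : List (Bool × ℕ × ℕ × ℕ) × List G => p.1)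
    (s := fun p => p.2) (F := fun _ x s => asg x s) (by fun_prop) (by fun_prop)
    (poly_asg.comp (NPC.Poly.pair (NPC.Poly.fst (NPC.Poly.snd NPC.Poly.id))
      (NPC.Poly.snd (NPC.Poly.snd NPC.Poly.id)))) (Polynomial.X * Polynomial.C C + 1) ?_
  rintro ⟨P, x⟩ k _
  have h1 : ((P.take k).foldl (fun x s => asg x s) x).length = x.length := len_asgs _ _
  have h2 := hC ((P.take k).foldl (fun x s => asg x s) x)
  have h3 := length_lt_sz x
  simp only [Polynomial.eval_add, Polynomial.eval_mul, Polynomial.eval_X, Polynomial.eval_C,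
    Polynomial.eval_one, sz_pair]
  rw [h1] at h2
  refine h2.trans (Nat.add_le_add_right (Nat.mul_le_mul_right _ (by omega)) 1)

/-- The process. -/
def pst (b : PInst × List G × ℕ) : Bool × (PInst × List G × ℕ) :=
  (decide (b.2.2 = 0), if b.2.2 = 0 then b else (b.1, asgs b.1.1 b.2.1, b.2.2 - 1))

omit [Finite G] [TEnc G] in
theorem pst_iter (I : PInst) (x : List G) (t : ℕ) : ∀ k ≤ t,
    (fun b => (pst b).2)^[k] (I, x, t) = (I, (asgs I.1)^[k] x, t - k)
  | 0, _ => rfl
  | k + 1, h => by
    rw [Function.iterate_succ_apply', pst_iter I x t k (by omega)]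
    unfold pst
    simp only
    rw [if_neg (by omega), Function.iterate_succ_apply']
    congr 2

theorem poly_pst : NPC.Poly (pst (G := G)) := by
  have h1 : NPC.Poly (fun b : PInst × List G × ℕ => asgs b.1.1 b.2.1) :=
    (poly_asgs (G := G)).comp (f := fun b : PInst × List G × ℕ => (b.1.1, b.2.1)) (by fun_prop)
  unfold pst
  refine NPC.Poly.pair (by fun_prop) (NPC.Poly.ite (by fun_prop) (by fun_prop) ?_)
  exact NPC.Poly.pair (by fun_prop) (NPC.Poly.pair h1 (by fun_prop))

end

theorem value_mem_of {G : Type} [Group G] [Finite G] [TEnc G] {m : ℕ} (e : G ≃ Fin m)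
    {L : Set (List Bool)} {J : List Bool → PInst} (hI : NPC.Poly J) {b0 : List Bool → Bool}
    (hb0 : NPC.Poly b0) (hmem : ∀ x, x ∈ L ↔ b0 x = true ∧ Value e (J x)) : InPSPACE L := by
  classical
  obtain ⟨C, hC⟩ := exists_szl G
  have hsz : ∀ x : List Bool, sz x ≤ 4 * x.length + 1 := fun x => sz_listBool_le x
  obtain ⟨r, hr'⟩ := hI.sz_le
  have hinit : NPC.Poly (fun x => (((J x).2.1.map (elt e)) : List G)) :=
    NPC.Poly.map (F := fun _ k => elt e k) (by fun_prop) ((poly_elt e).comp (NPC.Poly.snd NPC.Poly.id))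
  -- the flag is kept in the instance by a change of the start tuple
  refine inPSPACE_of_process (β := Bool × (PInst × List G × ℕ))
    (init := fun x => (b0 x, (J x, (J x).2.1.map (elt e), (J x).2.2.1)))
    (F := fun b => ((pst b.2).1, (b.1, (pst b.2).2)))
    (out := fun b => b.1 && decide (b.2.2.1.getD 0 1 = elt e b.2.1.2.2.2))
    (NPC.Poly.pair hb0 (NPC.Poly.pair hI (NPC.Poly.pair hinit (by fun_prop)))) ?_ ?_
    ((r + (r * Polynomial.C C + 1) + 2 * r + 10).comp (4 * Polynomial.X + 1))
    (fun x => (J x).2.2.1) ?_ ?_ ?_ ?_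
  · have h1 : NPC.Poly (fun b : Bool × (PInst × List G × ℕ) => pst b.2) :=
      poly_pst.comp (NPC.Poly.snd NPC.Poly.id)
    exact NPC.Poly.pair (NPC.Poly.fst h1) (NPC.Poly.pair (by fun_prop) (NPC.Poly.snd h1))
  · refine NPC.Poly.and (by fun_prop) ?_
    have h1 : NPC.Poly (fun b : Bool × (PInst × List G × ℕ) => elt e b.2.1.2.2.2) :=
      (poly_elt e).comp (by fun_prop)
    exact NPC.Poly.dec_eq (by fun_prop) h1
  all_goals
    have hit : ∀ (x : List Bool) (k : ℕ) (c : Bool) (b : PInst × List G × ℕ),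
        (fun b : Bool × (PInst × List G × ℕ) => ((pst b.2).1, (b.1, (pst b.2).2)).2)^[k] (c, b) =
          (c, (fun b => (pst b).2)^[k] b) := by
      intro x k
      induction k with
      | zero => intro c b; rfl
      | succ k ih => intro c b; rw [Function.iterate_succ_apply', ih, Function.iterate_succ_apply']
  · intro x i hi
    rw [hit x, pst_iter _ _ _ _ hi.le]
    simp only [pst]
    rw [decide_eq_false_iff_not]
    omega
  · intro x
    rw [hit x, pst_iter _ _ _ _ le_rfl]
    simp only [pst]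
    rw [decide_eq_true_eq]
    omega
  · intro x k _
    rw [hit x]
    set x0 : List G := (J x).2.1.map (elt e) with hx0
    have hlen0 : x0.length ≤ sz (J x) := by
      rw [hx0, List.length_map]
      have h1 := length_lt_sz (J x).2.1
      have h2 : sz (J x).2.1 + 1 ≤ sz (J x) := by
        generalize J x = I
        obtain ⟨S, l, t, i⟩ := I
        simp only [sz_pair]
        omega
      omega
    have hc : ∀ k ≤ (J x).2.2.1, sz (J x, (asgs (J x).1)^[k] x0, (J x).2.2.1 - k) ≤
        sz (J x) + (sz (J x) * C + 1) + 2 * sz (J x) + 5 := by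
      intro k _
      have e1 : sz (J x, (asgs (J x).1)^[k] x0, (J x).2.2.1 - k) =
        sz (J x) + sz ((asgs (J x).1)^[k] x0, (J x).2.2.1 - k) + 1 := sz_pair _ _
      have e2 : sz ((asgs (J x).1)^[k] x0, (J x).2.2.1 - k) =
        sz ((asgs (J x).1)^[k] x0) + sz ((J x).2.2.1 - k) + 1 := sz_pair _ _
      have h1 := hC ((asgs (J x).1)^[k] x0)
      rw [len_asgs_iterate] at h1
      have h2 : sz ((J x).2.2.1 - k) ≤ 2 * sz (J x).2.2.1 := sz_nat_mono_le (Nat.sub_le _ _)
      have h3 : sz (J x).2.2.1 + 1 ≤ sz (J x) := by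
        generalize J x = I
        obtain ⟨S, l, t, i⟩ := I
        simp only [sz_pair]
        omega
      have h4 : x0.length * C ≤ sz (J x) * C := Nat.mul_le_mul_right _ hlen0
      omega
    have hb : sz ((fun b => (pst b).2)^[k] (J x, x0, (J x).2.2.1)) ≤
        sz (J x) + (sz (J x) * C + 1) + 2 * sz (J x) + 5 := by
      by_cases hk : k ≤ (J x).2.2.1
      · rw [pst_iter _ _ _ _ hk]
        exact hc k hk
      · have hfix : ∀ m, (fun b => (pst b).2)^[m] (J x, (asgs (J x).1)^[(J x).2.2.1] x0, 0) =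
            (J x, (asgs (J x).1)^[(J x).2.2.1] x0, 0) := by
          intro m
          induction m with
          | zero => rfl
          | succ m ih => rw [Function.iterate_succ_apply', ih]; rfl
        have h4 := pst_iter (J x) x0 (J x).2.2.1 (J x).2.2.1 le_rfl
        rw [Nat.sub_self] at h4
        rw [show k = (k - (J x).2.2.1) + (J x).2.2.1 by omega, Function.iterate_add_apply, h4, hfix]
        have := hc _ le_rfl
        rw [Nat.sub_self] at this
        exact this
    have h5 := hr' x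
    have h6 : r.eval (sz x) ≤ r.eval (4 * x.length + 1) := eval_mono r (hsz x)
    have h7 := sz_bool_le (b0 x)
    have h8 : sz (J x) * C ≤ r.eval (4 * x.length + 1) * C := Nat.mul_le_mul_right _ (by omega)
    have e3 : sz (b0 x, (fun b => (pst b).2)^[k] (J x, x0, (J x).2.2.1)) =
      sz (b0 x) + sz ((fun b => (pst b).2)^[k] (J x, x0, (J x).2.2.1)) + 1 := sz_pair _ _
    refine e3.le.trans ?_
    simp only [Polynomial.eval_add, Polynomial.eval_mul, Polynomial.eval_X, Polynomial.eval_ofNat,
      Polynomial.eval_comp, Polynomial.eval_one, Polynomial.eval_C]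
    omega
  · intro x
    rw [hmem, hit x, Function.iterate_succ_apply', pst_iter _ _ _ _ le_rfl, Nat.sub_self]
    have h7 : (pst (J x, (asgs (J x).1)^[(J x).2.2.1] ((J x).2.1.map (elt e)), 0)).2 =
      (J x, (asgs (J x).1)^[(J x).2.2.1] ((J x).2.1.map (elt e)), 0) := rfl
    rw [h7, value_iff]
    simp only [Bool.and_eq_true, decide_eq_true_eq]

/-- The coding of a finite group. -/
@[instance_reducible]
def encG {G : Type} {m : ℕ} (e : G ≃ Fin m) : TEnc G :=
  ⟨fun a => toT (e a).val, fun _ _ h => e.injective (Fin.ext (TEnc.inj h))⟩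

/-- The problem is in `PSPACE` for every finite group. -/
theorem value_mem {G : Type} [Group G] {m : ℕ} (e : G ≃ Fin m) : InPSPACE (lang (Value e)) := by
  let _ := encG e
  have : Finite G := Finite.of_equiv _ e.symm
  have hI : NPC.Poly (fun x : List Bool => (unbits PInst x).getD ([], [], 0, 0)) :=
    NPC.Poly.optGetD poly_unbits (NPC.Poly.const _)
  have hb : NPC.Poly (fun x : List Bool => (unbits PInst x).isSome) :=
    (NPC.Poly.optElim (g := fun _ => false) (h := fun _ _ => true) poly_unbits (NPC.Poly.const _)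
      (NPC.Poly.const _)).congr fun x => by cases unbits PInst x <;> rfl
  refine value_mem_of e hI hb fun x => ?_
  rw [mem_lang_iff]
  cases hx : unbits PInst x with
  | none => simp
  | some a => simp

end Pool.Agent.V7H67.NM
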