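import Pool.Agent.V7H67.NM.Lin
import Pool.Agent.V7H67.NM.Mem

/-!
# The linear evolution is computable in polynomial time
-/

namespace Pool.Agent.V7H67.NM

open Pool.Agent.NPC Pool.Agent.H623R2.PS Pool.Agent.V7H67.LI

variable {α : Type} [TEnc α]

theorem poly_lt {n : α → ℕ} (hn : UPoly n) : NPC.Poly (fun a => lt (n a)) := by
  unfold lt
  exact R671.poly_product (l := fun _ => ([false, true] : List Bool)) (NPC.Poly.const _)
    (UPoly.range (UPoly.add hn (UPoly.const 1)))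

theorem poly_wk1 : NPC.Poly (fun q : (List Lt × List (List Lt)) =>
    ([] : List Lt) :: q.1.flatMap fun l => q.2.map fun w => l :: w) := by
  have h1 : NPC.Poly (fun q : (List Lt × List (List Lt)) × Lt => q.1.2.map fun w => q.2 :: w) :=
    NPC.Poly.map (l := fun q : (List Lt × List (List Lt)) × Lt => q.1.2) (F := fun q w => q.2 :: w)
      (NPC.Poly.snd (NPC.Poly.fst NPC.Poly.id))
      (NPC.Poly.cons (NPC.Poly.snd (NPC.Poly.fst NPC.Poly.id)) (NPC.Poly.snd NPC.Poly.id))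
  exact NPC.Poly.cons (NPC.Poly.const _) (NPC.Poly.flatMap
    (l := fun q : List Lt × List (List Lt) => q.1) (F := fun q l => q.2.map fun w => l :: w)
    (NPC.Poly.fst NPC.Poly.id) h1)

theorem poly_wk {L : α → List Lt} (hL : NPC.Poly L) : ∀ k : ℕ, NPC.Poly (fun a => wk (L a) k)
  | 0 => NPC.Poly.const _
  | k + 1 => poly_wk1.comp (f := fun a => (L a, wk (L a) k)) (NPC.Poly.pair hL (poly_wk hL k))

theorem poly_sb : NPC.Poly (fun q : ℕ × (Bool × ℕ × ℕ × ℕ) × Lt => sb q.1 q.2.1 q.2.2) := by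
  unfold sb
  have h1 : NPC.Poly (fun q : ℕ × (Bool × ℕ × ℕ × ℕ) × Lt => decide (q.2.2.2 = q.2.1.2.1 ∧
      q.2.1.2.1 < q.1 ∧ q.2.1.2.2.1 < q.1 ∧ q.2.1.2.2.2 < q.1)) :=
    NPC.Poly.decide_and (by fun_prop) (NPC.Poly.decide_and (by fun_prop)
      (NPC.Poly.decide_and (by fun_prop) (by fun_prop)))
  refine NPC.Poly.ite h1 (NPC.Poly.ite (by fun_prop) ?_ ?_) (by fun_prop)
  · fun_prop
  · fun_prop

/-- The truncated expansion. -/
def xpk (N : ℕ) (s : Bool × ℕ × ℕ × ℕ) : ℕ → List Lt → List (List Lt)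
  | 0, _ => [[]]
  | _ + 1, [] => [[]]
  | k + 1, l :: v => (sb N s l).flatMap fun a => (xpk N s k v).map fun b => a ++ b

theorem xpk_eq (N : ℕ) (s : Bool × ℕ × ℕ × ℕ) : ∀ (k : ℕ) (v : List Lt), v.length ≤ k →
    xpk N s k v = xp N s v
  | 0, [], _ => rfl
  | 0, l :: v, h => by simp at h
  | k + 1, [], _ => rfl
  | k + 1, l :: v, h => by
    rw [xpk, xp, xpk_eq N s k v (by simpa using h)]

theorem poly_join : NPC.Poly (fun q : List (List Lt) × List (List Lt) =>
    q.1.flatMap fun a => q.2.map fun b => a ++ b) := by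
  have h1 : NPC.Poly (fun q : (List (List Lt) × List (List Lt)) × List Lt =>
      q.1.2.map fun w => q.2 ++ w) :=
    NPC.Poly.map (l := fun q : (List (List Lt) × List (List Lt)) × List Lt => q.1.2)
      (F := fun q w => q.2 ++ w)
      (NPC.Poly.snd (NPC.Poly.fst NPC.Poly.id))
      (NPC.Poly.append (NPC.Poly.snd (NPC.Poly.fst NPC.Poly.id)) (NPC.Poly.snd NPC.Poly.id))
  exact NPC.Poly.flatMap
    (l := fun q : List (List Lt) × List (List Lt) => q.1) (F := fun q l => q.2.map fun w => l ++ w)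
    (NPC.Poly.fst NPC.Poly.id) h1

theorem poly_xpk : ∀ k : ℕ, NPC.Poly (fun q : ℕ × (Bool × ℕ × ℕ × ℕ) × List Lt =>
    xpk q.1 q.2.1 k q.2.2)
  | 0 => NPC.Poly.const _
  | k + 1 => by
    have ih := poly_xpk k
    have h1 : NPC.Poly (fun q : (ℕ × (Bool × ℕ × ℕ × ℕ) × List Lt) × Lt × List Lt =>
        sb q.1.1 q.1.2.1 q.2.1) :=
      poly_sb.comp (f := fun q : (ℕ × (Bool × ℕ × ℕ × ℕ) × List Lt) × Lt × List Lt =>
        (q.1.1, q.1.2.1, q.2.1)) (by fun_prop)
    have h2 : NPC.Poly (fun q : (ℕ × (Bool × ℕ × ℕ × ℕ) × List Lt) × Lt × List Lt =>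
        xpk q.1.1 q.1.2.1 k q.2.2) :=
      ih.comp (f := fun q : (ℕ × (Bool × ℕ × ℕ × ℕ) × List Lt) × Lt × List Lt =>
        (q.1.1, q.1.2.1, q.2.2)) (by fun_prop)
    have h3 := poly_join.comp (NPC.Poly.pair h1 h2)
    refine (NPC.Poly.listCases (l := fun q : ℕ × (Bool × ℕ × ℕ × ℕ) × List Lt => q.2.2)
      (g := fun _ => [[]]) (h := fun q l v => (sb q.1 q.2.1 l).flatMap fun a =>
        (xpk q.1 q.2.1 k v).map fun b => a ++ b) (by fun_prop) (NPC.Poly.const _) h3).congr ?_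
    rintro ⟨N, s, v⟩
    cases v <;> rfl

theorem poly_count : NPC.Poly (fun q : List (List Lt) × List Lt => q.1.count q.2) := by
  have h1 : NPC.Poly (fun q : List (List Lt) × List Lt =>
      (q.1.filter fun u => decide (u = q.2)).length) :=
    NPC.Poly.length (NPC.Poly.filter (p := fun (q : List (List Lt) × List Lt) u =>
      decide (u = q.2)) (NPC.Poly.fst NPC.Poly.id)
      (NPC.Poly.decide_eq (NPC.Poly.snd NPC.Poly.id) (NPC.Poly.snd (NPC.Poly.fst NPC.Poly.id))))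
  refine h1.congr ?_
  rintro ⟨L, w⟩
  rw [List.count, List.countP_eq_length_filter]
  refine congrArg List.length (congrArg (fun b => List.filter b L) ?_)
  funext u
  exact (beq_eq_decide u w).symm

/-! ## Matrices -/

section mats

variable (p : ℕ) {D : α → ℕ}

theorem poly_mat (hD : UPoly D) {f : α → ℕ → ℕ → ℕ}
    (hf : NPC.Poly (fun q : α × ℕ × ℕ => f q.1 q.2.1 q.2.2)) :
    NPC.Poly (fun a => mat p (D a) (f a)) := by
  have h1 : NPC.Poly (fun q : (α × ℕ) × ℕ => f q.1.1 q.1.2 q.2 % p) :=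
    NPC.Poly.mod (hf.comp (f := fun q : (α × ℕ) × ℕ => (q.1.1, q.1.2, q.2)) (by fun_prop))
      (NPC.Poly.const p)
  have h2 : NPC.Poly (fun q : α × ℕ => (List.range (D q.1)).map fun j => f q.1 q.2 j % p) :=
    NPC.Poly.map (l := fun q : α × ℕ => List.range (D q.1))
      (F := fun q j => f q.1 q.2 j % p) ((UPoly.range hD).comp (NPC.Poly.fst NPC.Poly.id)) h1
  exact NPC.Poly.map (l := fun a => List.range (D a))
    (F := fun a i => (List.range (D a)).map fun j => f a i j % p) (UPoly.range hD) h2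

theorem poly_ent : NPC.Poly (fun q : List (List ℕ) × ℕ × ℕ => ent q.1 q.2.1 q.2.2) := by
  unfold ent
  fun_prop

theorem poly_mulL (hD : UPoly D) {A B : α → List (List ℕ)} (hA : NPC.Poly A) (hB : NPC.Poly B) :
    NPC.Poly (fun a => mulL p (D a) (A a) (B a)) := by
  have h1 : NPC.Poly (fun q : (α × ℕ × ℕ) × ℕ => ent (A q.1.1) q.1.2.1 q.2) :=
    poly_ent.comp (f := fun q : (α × ℕ × ℕ) × ℕ => (A q.1.1, q.1.2.1, q.2))
      (NPC.Poly.pair (hA.comp (NPC.Poly.fst (NPC.Poly.fst NPC.Poly.id))) (by fun_prop))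
  have h2 : NPC.Poly (fun q : (α × ℕ × ℕ) × ℕ => ent (B q.1.1) q.2 q.1.2.2) :=
    poly_ent.comp (f := fun q : (α × ℕ × ℕ) × ℕ => (B q.1.1, q.2, q.1.2.2))
      (NPC.Poly.pair (hB.comp (NPC.Poly.fst (NPC.Poly.fst NPC.Poly.id))) (by fun_prop))
  have h3 : NPC.Poly (fun q : α × ℕ × ℕ =>
      ((List.range (D q.1)).map fun k => ent (A q.1) q.2.1 k * ent (B q.1) k q.2.2).sum) :=
    NPC.Poly.sum (NPC.Poly.map (l := fun q : α × ℕ × ℕ => List.range (D q.1))
      (F := fun q k => ent (A q.1) q.2.1 k * ent (B q.1) k q.2.2)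
      ((UPoly.range hD).comp (NPC.Poly.fst NPC.Poly.id)) (NPC.Poly.mul h1 h2))
  exact poly_mat p hD (f := fun a i j =>
    ((List.range (D a)).map fun k => ent (A a) i k * ent (B a) k j).sum) h3

theorem poly_idL (hD : UPoly D) : NPC.Poly (fun a => idL p (D a)) :=
  poly_mat p hD (f := fun _ i j => if i = j then 1 else 0) (by
    refine NPC.Poly.ite (by fun_prop) (NPC.Poly.const _) (NPC.Poly.const _))

theorem sz_mat (hp : 0 < p) (n : ℕ) (f : ℕ → ℕ → ℕ) :
    sz (mat p n f) ≤ n * (n * (4 * p + 2) + 2) + 1 := by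
  have h1 : ∀ i, sz ((List.range n).map fun j => f i j % p) ≤ n * (4 * p + 2) + 1 := by
    intro i
    have h2 := sz_le_length_mul ((List.range n).map fun j => f i j % p) (4 * p + 1) (by
      intro a ha
      obtain ⟨j, _, rfl⟩ := List.mem_map.1 ha
      have h3 := sz_nat_le (f i j % p)
      have h4 := NPC.Poly.size_le_self (f i j % p)
      have h5 := Nat.mod_lt (f i j) hp
      omega)
    simpa using h2
  have h2 := sz_le_length_mul (mat p n f) (n * (4 * p + 2) + 1) (by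
    intro a ha
    unfold mat at ha
    obtain ⟨i, _, rfl⟩ := List.mem_map.1 ha
    exact h1 i)
  have h3 : (mat p n f).length = n := by simp [mat]
  rw [h3] at h2
  exact h2

theorem isMat_foldl {β : Type} (n : ℕ) (F : List (List ℕ) → β → List (List ℕ))
    (hF : ∀ A b, ∃ f, F A b = mat p n f) : ∀ (l : List β) (A : List (List ℕ)),
    (∃ f, A = mat p n f) → ∃ f, l.foldl F A = mat p n f
  | [], _, h => h
  | b :: l, A, _ => isMat_foldl n F hF l (F A b) (hF A b)

theorem isMat_foldr {β : Type} (n : ℕ) (F : β → List (List ℕ) → List (List ℕ))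
    (hF : ∀ b A, ∃ f, F b A = mat p n f) (A : List (List ℕ)) (h : ∃ f, A = mat p n f) :
    ∀ (l : List β), ∃ f, l.foldr F A = mat p n f
  | [] => h
  | b :: l => hF b (l.foldr F A)

theorem exists_bound (hp : 0 < p) (hD : UPoly D) : ∃ q : Polynomial ℕ,
    ∀ a f, sz (mat p (D a) f) ≤ q.eval (sz a) := by
  obtain ⟨r, hr⟩ := NPC.Poly.sz_le hD
  refine ⟨r * (r * Polynomial.C (4 * p + 2) + 2) + 1, fun a f => (sz_mat p hp _ f).trans ?_⟩
  have h1 := hr a
  have h2 := length_lt_sz (List.replicate (D a) ())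
  rw [List.length_replicate] at h2
  have h3 : D a ≤ r.eval (sz a) := by omega
  simp only [Polynomial.eval_add, Polynomial.eval_mul, Polynomial.eval_C, Polynomial.eval_one,
    Polynomial.eval_ofNat]
  gcongr

theorem poly_powL (hp : 0 < p) (hD : UPoly D) {A : α → List (List ℕ)} {l : α → List Bool}
    (hA : NPC.Poly A) (hl : NPC.Poly l) : NPC.Poly (fun a => powL p (D a) (A a) (l a)) := by
  obtain ⟨q, hq⟩ := exists_bound p hp hD
  have hD' : UPoly (fun x : α × Bool × List (List ℕ) => D x.1) :=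
    UPoly.comp hD (NPC.Poly.fst NPC.Poly.id)
  have h0 : NPC.Poly (fun x : α × Bool × List (List ℕ) => x.2.2) :=
    NPC.Poly.snd (NPC.Poly.snd NPC.Poly.id)
  have h1 : NPC.Poly (fun x : α × Bool × List (List ℕ) => mulL p (D x.1) x.2.2 x.2.2) :=
    poly_mulL p hD' h0 h0
  have h2 : NPC.Poly (fun x : α × Bool × List (List ℕ) =>
      mulL p (D x.1) (mulL p (D x.1) x.2.2 x.2.2) (A x.1)) :=
    poly_mulL p hD' h1 (hA.comp (NPC.Poly.fst NPC.Poly.id))
  have h3 : NPC.Poly (fun x : α × Bool × List (List ℕ) =>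
      if x.2.1 = true then mulL p (D x.1) (mulL p (D x.1) x.2.2 x.2.2) (A x.1)
      else mulL p (D x.1) x.2.2 x.2.2) := NPC.Poly.ite (by fun_prop) h2 h1
  refine NPC.Poly.foldr (l := l) (s := fun a => idL p (D a))
    (F := fun a b B => if b = true then mulL p (D a) (mulL p (D a) B B) (A a)
      else mulL p (D a) B B) hl (poly_idL p hD) h3 q ?_
  intro a k _
  obtain ⟨f, hf⟩ := isMat_foldr p (D a) (fun (b : Bool) B =>
    if b = true then mulL p (D a) (mulL p (D a) B B) (A a) else mulL p (D a) B B) (by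
      intro b B
      cases b
      · exact ⟨_, rfl⟩
      · exact ⟨_, rfl⟩) (idL p (D a)) ⟨_, rfl⟩ ((l a).drop k)
  rw [hf]
  exact hq a f

theorem poly_foldL (hp : 0 < p) (hD : UPoly D) {I : α → (Bool × ℕ × ℕ × ℕ) → List (List ℕ)}
    (hI : NPC.Poly (fun x : α × (Bool × ℕ × ℕ × ℕ) => I x.1 x.2))
    {P : α → List (Bool × ℕ × ℕ × ℕ)} (hP : NPC.Poly P) :
    NPC.Poly (fun a => (P a).foldl (fun A s => mulL p (D a) (I a s) A) (idL p (D a))) := by
  obtain ⟨q, hq⟩ := exists_bound p hp hD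
  have hD' : UPoly (fun x : α × List (List ℕ) × (Bool × ℕ × ℕ × ℕ) => D x.1) :=
    UPoly.comp hD (NPC.Poly.fst NPC.Poly.id)
  have h0 : NPC.Poly (fun x : α × List (List ℕ) × (Bool × ℕ × ℕ × ℕ) => x.2.1) :=
    NPC.Poly.fst (NPC.Poly.snd NPC.Poly.id)
  have h1 : NPC.Poly (fun x : α × List (List ℕ) × (Bool × ℕ × ℕ × ℕ) => I x.1 x.2.2) :=
    hI.comp (f := fun x : α × List (List ℕ) × (Bool × ℕ × ℕ × ℕ) => (x.1, x.2.2)) (by fun_prop)
  have h2 : NPC.Poly (fun x : α × List (List ℕ) × (Bool × ℕ × ℕ × ℕ) =>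
      mulL p (D x.1) (I x.1 x.2.2) x.2.1) := poly_mulL p hD' h1 h0
  refine NPC.Poly.foldl (l := P) (s := fun a => idL p (D a))
    (F := fun a A s => mulL p (D a) (I a s) A) hP (poly_idL p hD) h2 q ?_
  intro a k _
  obtain ⟨f, hf⟩ := isMat_foldl p (D a) (fun A s => mulL p (D a) (I a s) A) (by
    intro B b
    exact ⟨_, rfl⟩) ((P a).take k) (idL p (D a)) ⟨_, rfl⟩
  rw [hf]
  exact hq a f

theorem poly_instr (k : ℕ) {n : α → ℕ} (hn : NPC.Poly n) {W : α → List (List Lt)}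
    (hW : NPC.Poly W) : NPC.Poly (fun x : α × (Bool × ℕ × ℕ × ℕ) =>
      mat p (W x.1).length fun i j => (xpk (n x.1) x.2 k ((W x.1).getD i [])).count
        ((W x.1).getD j [])) := by
  have e1 : NPC.Poly (fun q : (α × (Bool × ℕ × ℕ × ℕ)) × ℕ × ℕ => (W q.1.1).getD q.2.1 []) :=
    NPC.Poly.getD (hW.comp (NPC.Poly.fst (NPC.Poly.fst NPC.Poly.id))) (by fun_prop)
      (NPC.Poly.const _)
  have e2 : NPC.Poly (fun q : (α × (Bool × ℕ × ℕ × ℕ)) × ℕ × ℕ => (W q.1.1).getD q.2.2 []) :=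
    NPC.Poly.getD (hW.comp (NPC.Poly.fst (NPC.Poly.fst NPC.Poly.id))) (by fun_prop)
      (NPC.Poly.const _)
  have e3 : NPC.Poly (fun q : (α × (Bool × ℕ × ℕ × ℕ)) × ℕ × ℕ =>
      xpk (n q.1.1) q.1.2 k ((W q.1.1).getD q.2.1 [])) :=
    (poly_xpk k).comp (f := fun q : (α × (Bool × ℕ × ℕ × ℕ)) × ℕ × ℕ =>
      (n q.1.1, q.1.2, (W q.1.1).getD q.2.1 []))
      (NPC.Poly.pair (hn.comp (NPC.Poly.fst (NPC.Poly.fst NPC.Poly.id)))
        (NPC.Poly.pair (by fun_prop) e1))
  have e4 : NPC.Poly (fun q : (α × (Bool × ℕ × ℕ × ℕ)) × ℕ × ℕ =>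
      (xpk (n q.1.1) q.1.2 k ((W q.1.1).getD q.2.1 [])).count ((W q.1.1).getD q.2.2 [])) :=
    poly_count.comp (f := fun q : (α × (Bool × ℕ × ℕ × ℕ)) × ℕ × ℕ =>
      (xpk (n q.1.1) q.1.2 k ((W q.1.1).getD q.2.1 []), (W q.1.1).getD q.2.2 []))
      (NPC.Poly.pair e3 e2)
  exact poly_mat p (D := fun x : α × (Bool × ℕ × ℕ × ℕ) => (W x.1).length)
    (UPoly.length (hW.comp (NPC.Poly.fst NPC.Poly.id)))
    (f := fun x i j => (xpk (n x.1) x.2 k ((W x.1).getD i [])).count ((W x.1).getD j [])) e4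

theorem poly_progL (hp : 0 < p) (k : ℕ) {n : α → ℕ} (hn : UPoly n)
    {P : α → List (Bool × ℕ × ℕ × ℕ)} (hP : NPC.Poly P) :
    NPC.Poly (fun a => progL p (n a) (wk (lt (n a)) k) (P a)) := by
  have hW : NPC.Poly (fun a => wk (lt (n a)) k) := poly_wk (poly_lt hn) k
  have hI := poly_instr p k (UPoly.toPoly hn) hW
  refine (poly_foldL p hp (D := fun a => (wk (lt (n a)) k).length) (UPoly.length hW)
    (I := fun a s => mat p (wk (lt (n a)) k).length fun i j =>
      (xpk (n a) s k ((wk (lt (n a)) k).getD i [])).count ((wk (lt (n a)) k).getD j []))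
    hI hP).congr fun a => ?_
  unfold progL
  refine congrArg (fun F => List.foldl F (idL p (wk (lt (n a)) k).length) (P a)) ?_
  funext A s
  refine congrArg (fun M => mulL p _ M A) ?_
  unfold instrL mat
  apply List.map_congr_left
  intro i _
  apply List.map_congr_left
  intro j _
  beta_reduce
  rw [xpk_eq]
  rcases Nat.lt_or_ge i (wk (lt (n a)) k).length with h | h
  · rw [List.getD_eq_getElem _ _ h]
    exact (mem_wk.1 (List.getElem_mem h)).1
  · rw [List.getD_eq_default _ _ h]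
    exact Nat.zero_le _

end mats

theorem poly_cf {W : α → List (List Lt)} (hW : NPC.Poly W) {A : α → List (List ℕ)}
    (hA : NPC.Poly A) : NPC.Poly (fun q : α × ℕ => cf (W q.1) (A q.1) q.2) := by
  have e1 : NPC.Poly (fun q : (α × ℕ) × ℕ => (W q.1.1).getD q.2 []) :=
    NPC.Poly.getD (hW.comp (NPC.Poly.fst (NPC.Poly.fst NPC.Poly.id))) (by fun_prop)
      (NPC.Poly.const _)
  have e2 : NPC.Poly (fun q : (α × ℕ) × ℕ => ent (A q.1.1) q.2 q.1.2) :=
    poly_ent.comp (f := fun q : (α × ℕ) × ℕ => (A q.1.1, q.2, q.1.2))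
      (NPC.Poly.pair (hA.comp (NPC.Poly.fst (NPC.Poly.fst NPC.Poly.id))) (by fun_prop))
  have e3 : NPC.Poly (fun q : (α × ℕ) × ℕ =>
      if (W q.1.1).getD q.2 [] = [(false, 0)] then ent (A q.1.1) q.2 q.1.2 else 0) :=
    NPC.Poly.ite (NPC.Poly.dec_eq e1 (NPC.Poly.const _)) e2 (NPC.Poly.const _)
  unfold cf
  exact NPC.Poly.sum (NPC.Poly.map (l := fun q : α × ℕ => List.range (W q.1).length)
    (F := fun q i => if (W q.1).getD i [] = [(false, 0)] then ent (A q.1) i q.2 else 0)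
    ((UPoly.range (UPoly.length hW)).comp (NPC.Poly.fst NPC.Poly.id)) e3)

section ring

variable {G : Type} [Group G] [Finite G] [TEnc G] {R : Type} [Ring R] [Finite R] [TEnc R]
  (rr : G →* R)

theorem poly_rsum {l : α → List R} (hl : NPC.Poly l) : NPC.Poly (fun a => (l a).sum) := by
  obtain ⟨C, hC⟩ := exists_sz_le R
  have h1 : NPC.Poly (fun x : α × R × R => x.2.1 + x.2.2) :=
    (poly_finite (fun q : R × R => q.1 + q.2)).comp (NPC.Poly.snd NPC.Poly.id)
  exact NPC.Poly.foldr (l := l) (s := fun _ => (0 : R)) (F := fun _ b s => b + s) hl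
    (NPC.Poly.const _) h1 (Polynomial.C C) fun a k _ => by
      rw [Polynomial.eval_C]
      exact hC _

theorem poly_rprod {l : α → List R} (hl : NPC.Poly l) : NPC.Poly (fun a => (l a).prod) := by
  obtain ⟨C, hC⟩ := exists_sz_le R
  have h1 : NPC.Poly (fun x : α × R × R => x.2.1 * x.2.2) :=
    (poly_finite (fun q : R × R => q.1 * q.2)).comp (NPC.Poly.snd NPC.Poly.id)
  exact NPC.Poly.foldr (l := l) (s := fun _ => (1 : R)) (F := fun _ b s => b * s) hl
    (NPC.Poly.const _) h1 (Polynomial.C C) fun a k _ => by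
      rw [Polynomial.eval_C]
      exact hC _

theorem poly_EE {x : α → List G} (hx : NPC.Poly x) {v : α → List Lt} (hv : NPC.Poly v) :
    NPC.Poly (fun a => EE rr (fun k => (x a).getD k 1) (v a)) := by
  have h1 : NPC.Poly (fun q : α × Lt => (x q.1).getD q.2.2 1) :=
    NPC.Poly.getD (hx.comp (NPC.Poly.fst NPC.Poly.id)) (by fun_prop) (NPC.Poly.const _)
  have h2 : NPC.Poly (fun q : α × Lt => lv (fun k => (x q.1).getD k 1) q.2) := by
    unfold lv
    exact NPC.Poly.ite (by fun_prop) (poly_inv' h1) h1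
  have h3 : NPC.Poly (fun q : α × Lt => AA rr (fun k => (x q.1).getD k 1) q.2) :=
    (poly_finite (fun g : G => rr g - 1)).comp h2
  unfold EE
  exact poly_rprod (NPC.Poly.map (l := v) (F := fun a l => AA rr (fun k => (x a).getD k 1) l)
    hv h3)

theorem poly_nsmul {p : ℕ} (hp : 0 < p) (hpR : ∀ r : R, p • r = 0) {c : α → ℕ} (hc : NPC.Poly c)
    {r : α → R} (hr : NPC.Poly r) : NPC.Poly (fun a => c a • r a) := by
  have h1 : NPC.Poly (fun q : Fin p × R => q.1.val • q.2) := poly_finite _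
  have h2 : NPC.Poly (fun a => (⟨c a % p, Nat.mod_lt _ hp⟩ : Fin p)) :=
    NPC.Poly.of_toT ((NPC.Poly.mod hc (NPC.Poly.const p)).toT'.congr fun a => rfl)
  refine (h1.comp (NPC.Poly.pair h2 hr)).congr fun a => ?_
  show (c a % p) • r a = c a • r a
  conv_rhs => rw [← Nat.mod_add_div (c a) p, add_smul, mul_comm p, mul_smul, hpR, smul_zero,
    add_zero]

theorem poly_vl {p : ℕ} (hp : 0 < p) (hpR : ∀ r : R, p • r = 0) {W : α → List (List Lt)}
    (hW : NPC.Poly W) {A : α → List (List ℕ)} (hA : NPC.Poly A) {x : α → List G}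
    (hx : NPC.Poly x) : NPC.Poly (fun a => vl rr (W a) (A a) (x a)) := by
  have h1 : NPC.Poly (fun q : α × ℕ => (W q.1).getD q.2 []) :=
    NPC.Poly.getD (hW.comp (NPC.Poly.fst NPC.Poly.id)) (by fun_prop) (NPC.Poly.const _)
  have h2 : NPC.Poly (fun q : α × ℕ =>
      EE rr (fun k => (x q.1).getD k 1) ((W q.1).getD q.2 [])) :=
    poly_EE rr (hx.comp (NPC.Poly.fst NPC.Poly.id)) h1
  have h3 := poly_nsmul hp hpR (poly_cf hW hA) h2
  unfold vl
  exact poly_rsum (NPC.Poly.map (l := fun a => List.range (W a).length)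
    (F := fun a j => cf (W a) (A a) j • EE rr (fun k => (x a).getD k 1) ((W a).getD j []))
    (UPoly.range (UPoly.length hW)) h3)

end ring

end Pool.Agent.V7H67.NM
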