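import Pool.Agent.V7H67.NM.Prog

/-!
# Simulation of automata with tests of the time by programs of Nielsen moves
-/

namespace Pool.Agent.V7H67.NM

set_option linter.unusedSectionVars false

variable {G : Type*} [Group G]

/-- Registers: results, tokens, clocks. -/
inductive Reg (S B : Type)
  | R (b : Bool) (r : B)
  | D (i : ℕ) (s : S)
  | C (b : Bool) (q j : ℕ)
deriving DecidableEq

open Reg

/-- An automaton: its moves, its initial states, its results. -/
structure Mach (S Kd B : Type) where
  /-- moves -/
  δ : Kd → ℕ → S → S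
  /-- initial states -/
  β : B → S
  /-- results -/
  r : S → B

/-- Instructions of the automaton: kind, modulus, residues. -/
abbrev MI (Kd : Type) := Kd × ℕ × List ℕ

variable {S Kd B : Type} [Fintype S] [DecidableEq S] [Fintype B] [DecidableEq B]

section general

variable {α : Type*} [DecidableEq α]

theorem run_flatMap_one {γ : Type*} (P : γ → List (Ins α)) {b0 : γ} {x x' : α → G}
    (h2 : run (P b0) x = x') : ∀ (l : List γ), l.Nodup → (∀ b ∈ l, b ≠ b0 → run (P b) x = x) →
    (∀ b ∈ l, b ≠ b0 → run (P b) x' = x') →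
    (b0 ∈ l → run (l.flatMap P) x = x') ∧ (b0 ∉ l → run (l.flatMap P) x = x) := by
  intro l
  induction l with
  | nil => intro _ _ _; exact ⟨fun h => by simp at h, fun _ => rfl⟩
  | cons b l ih =>
    intro hn h1 h3
    have hn2 := List.nodup_cons.1 hn
    have ih := ih hn2.2 (fun d hd => h1 d (by simp [hd])) (fun d hd => h3 d (by simp [hd]))
    rw [List.flatMap_cons, run_append]
    constructor
    · intro hm
      rcases List.mem_cons.1 hm with e | hm
      · subst e
        rw [h2]
        have : ∀ (l : List γ), b0 ∉ l → (∀ b ∈ l, b ≠ b0 → run (P b) x' = x') →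
            run (l.flatMap P) x' = x' := by
          intro l
          induction l with
          | nil => intro _ _; rfl
          | cons b l ih2 =>
            intro hb h4
            rw [List.flatMap_cons, run_append, h4 b (by simp) (fun e => hb (by simp [e]))]
            exact ih2 (fun hc => hb (by simp [hc])) fun d hd => h4 d (by simp [hd])
        exact this l hn2.1 fun d hd => h3 d (by simp [hd])
      · have hne : b ≠ b0 := fun e => hn2.1 (e ▸ hm)
        rw [h1 b (by simp) hne]
        exact ih.1 hm
    · intro hm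
      have hne : b ≠ b0 := fun e => hm (by simp [e])
      rw [h1 b (by simp) hne]
      exact ih.2 fun hc => hm (by simp [hc])

theorem wv_flatMap_one {γ : Type*} (P : γ → List (Bool × α)) {b0 : γ} {x : α → G} :
    ∀ (l : List γ), l.Nodup → (∀ b ∈ l, b ≠ b0 → wv x (P b) = 1) →
    (b0 ∈ l → wv x (l.flatMap P) = wv x (P b0)) ∧ (b0 ∉ l → wv x (l.flatMap P) = 1) := by
  intro l
  induction l with
  | nil => intro _ _; exact ⟨fun h => by simp at h, fun _ => rfl⟩
  | cons b l ih =>
    intro hn h1
    have hn2 := List.nodup_cons.1 hn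
    have ih := ih hn2.2 (fun d hd => h1 d (by simp [hd]))
    rw [List.flatMap_cons, wv_append]
    constructor
    · intro hm
      rcases List.mem_cons.1 hm with e | hm
      · subst e
        rw [ih.2 hn2.1, mul_one]
      · have hne : b ≠ b0 := fun e => hn2.1 (e ▸ hm)
        rw [h1 b (by simp) hne, one_mul]
        exact ih.1 hm
    · intro hm
      have hne : b ≠ b0 := fun e => hm (by simp [e])
      rw [h1 b (by simp) hne, one_mul]
      exact ih.2 fun hc => hm (by simp [hc])

/-- Moving the content of a register. -/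
def mv (a a' : α) : List (Ins α) := [(false, a', a), (true, a, a')]

theorem run_mv {a a' : α} (h : a ≠ a') {x : α → G} (h1 : x a' = 1) :
    run (mv a a') x = Function.update (Function.update x a' (x a)) a 1 := by
  unfold mv run ex lv
  simp only [List.foldl_cons, List.foldl_nil]
  rw [if_neg h.symm, if_neg h]
  simp only [Bool.false_eq_true, if_false, if_true]
  rw [h1, one_mul, Function.update_self, Function.update_of_ne h, mul_inv_cancel]

theorem run_mv_one {a a' : α} (h : a ≠ a') {x : α → G} (h1 : x a' = 1) (h2 : x a = 1) :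
    run (mv a a') x = x := by
  rw [run_mv h h1, h2]
  funext z
  by_cases e : z = a
  · subst e; rw [Function.update_self, h2]
  · rw [Function.update_of_ne e]
    by_cases e2 : z = a'
    · subst e2; rw [Function.update_self, h1]
    · rw [Function.update_of_ne e2]

end general

/-- All states. -/
noncomputable def allL (S : Type) [Fintype S] : List S := Finset.univ.toList

theorem mem_allL (s : S) : s ∈ allL S := by simp [allL]

theorem nodup_allL : (allL S).Nodup := Finset.nodup_toList _

variable (g : Gate G) (A : Mach S Kd B)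

/-- Gated copies. -/
def gateW (i : ℕ) (s : S) (q a : ℕ) : List (Bool × Reg S B) := sub2 g.w (D i s) (C false q a)

/-- The copy if no test succeeds. -/
def noneW (i : ℕ) (s : S) (q : ℕ) (as : List ℕ) : List (Bool × Reg S B) :=
  (false, D i s) :: (List.range as.length).flatMap fun k => iw (gateW g i s q (as.getD k 0))

/-- The successor of one token. -/
def pc (i : ℕ) (m : MI Kd) (s : S) : List (Ins (Reg S B)) :=
  ((List.range m.2.2.length).flatMap fun k =>
    mulP (D (i + 1) (A.δ m.1 k s)) (gateW g i s m.2.1 (m.2.2.getD k 0))) ++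
  mulP (D (i + 1) (A.δ m.1 m.2.2.length s)) (noneW g i s m.2.1 m.2.2)

/-- One instruction. -/
noncomputable def stepP (i : ℕ) (m : MI Kd) : List (Ins (Reg S B)) := (allL S).flatMap (pc g A i m)

/-- The instructions. -/
noncomputable def steps : ℕ → List (MI Kd) → List (Ins (Reg S B))
  | _, [] => []
  | i, m :: L => stepP g A i m ++ steps (i + 1) L

/-- The move of the automaton at time `t`. -/
def mst (t : ℕ) (s : S) (m : MI Kd) : S := A.δ m.1 (m.2.2.idxOf (t % m.2.1)) s

/-- All targets of the computation are tokens, all sources are tokens or clocks. -/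
def TokTgt (P : List (Ins (Reg S B))) : Prop :=
  ∀ s ∈ P, (∃ i u, s.2.1 = D i u) ∧ ((∃ i u, s.2.2 = D i u) ∨ ∃ q a, s.2.2 = C false q a)

theorem mem_mulP {α : Type*} {a : α} {w : List (Bool × α)} {s : Ins α} (h : s ∈ mulP a w) :
    s.2.1 = a ∧ (s.1, s.2.2) ∈ w := by
  unfold mulP at h
  obtain ⟨l, hl, rfl⟩ := List.mem_map.1 h
  exact ⟨rfl, hl⟩

theorem mem_sub2 {α : Type*} {w : List (Bool × Bool)} {a b : α} {l : Bool × α}
    (h : l ∈ sub2 w a b) : l.2 = a ∨ l.2 = b := by
  unfold sub2 at h
  obtain ⟨m, _, rfl⟩ := List.mem_map.1 h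
  by_cases e : m.2 = true <;> simp [e]

theorem mem_iw {α : Type*} {w : List (Bool × α)} {l : Bool × α} (h : l ∈ iw w) :
    ∃ b, (b, l.2) ∈ w := by
  unfold iw at h
  rw [List.mem_reverse] at h
  obtain ⟨m, hm, rfl⟩ := List.mem_map.1 h
  exact ⟨m.1, hm⟩

theorem mem_gateW {i : ℕ} {s : S} {q a : ℕ} {l : Bool × Reg S B} (h : l ∈ gateW g i s q a) :
    l.2 = D i s ∨ l.2 = C false q a := mem_sub2 h

theorem mem_noneW {i : ℕ} {s : S} {q : ℕ} {as : List ℕ} {l : Bool × Reg S B}
    (h : l ∈ noneW g i s q as) : l.2 = D i s ∨ ∃ a, l.2 = C false q a := by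
  unfold noneW at h
  rcases List.mem_cons.1 h with rfl | h
  · exact Or.inl rfl
  · obtain ⟨k, _, hk⟩ := List.mem_flatMap.1 h
    obtain ⟨b, hb⟩ := mem_iw hk
    rcases mem_gateW g hb with e | e
    · exact Or.inl e
    · exact Or.inr ⟨_, e⟩

theorem mem_pc {i : ℕ} {m : MI Kd} {s : S} {u : Ins (Reg S B)} (h : u ∈ pc g A i m s) :
    (∃ v, u.2.1 = D (i + 1) v) ∧ (u.2.2 = D i s ∨ ∃ q a, u.2.2 = C false q a) := by
  unfold pc at h
  rcases List.mem_append.1 h with h | h
  · obtain ⟨k, _, hk⟩ := List.mem_flatMap.1 h
    have h1 := mem_mulP hk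
    refine ⟨⟨_, h1.1⟩, ?_⟩
    rcases mem_gateW g h1.2 with e | e
    · exact Or.inl e
    · exact Or.inr ⟨_, _, e⟩
  · have h1 := mem_mulP h
    refine ⟨⟨_, h1.1⟩, ?_⟩
    rcases mem_noneW g h1.2 with e | ⟨a, e⟩
    · exact Or.inl e
    · exact Or.inr ⟨_, _, e⟩

theorem tokTgt_steps : ∀ (L : List (MI Kd)) (i : ℕ), TokTgt (steps g A i L)
  | [], _ => by intro s hs; simp [steps] at hs
  | m :: L, i => by
    intro s hs
    rcases List.mem_append.1 hs with hs | hs
    · obtain ⟨v, _, hv⟩ := List.mem_flatMap.1 hs
      obtain ⟨⟨a, ha⟩, h2⟩ := mem_pc g A hv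
      refine ⟨⟨_, _, ha⟩, ?_⟩
      rcases h2 with h2 | h2
      · exact Or.inl ⟨_, _, h2⟩
      · exact Or.inr h2
    · exact tokTgt_steps L (i + 1) s hs

/-- The clocks show the time `t`. -/
def ClkOK (t q : ℕ) (x : Reg S B → G) : Prop := ∀ a, x (C false q a) = if t % q = a then g.y else 1

theorem wv_gateW {x : Reg S B → G} (i : ℕ) (s : S) (q a : ℕ) :
    wv x (gateW g i s q a) = ev g.w (x (D i s)) (x (C false q a)) := wv_sub2 _ _ _ _

theorem run_pc_one {i : ℕ} {m : MI Kd} {s : S} {t : ℕ} {x : Reg S B → G} (hc : ClkOK g t m.2.1 x)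
    (h1 : x (D i s) = 1) : run (pc g A i m s) x = x := by
  have hg : ∀ a, wv x (gateW g i s m.2.1 a) = 1 := by
    intro a
    rw [wv_gateW, h1, hc]
    split_ifs
    · exact g.h1y
    · exact g.h11
  have hne : ∀ (l : Bool × Reg S B) (u : S), (l.2 = D i s ∨ ∃ a, l.2 = C false m.2.1 a) →
      l.2 ≠ D (i + 1) u := by
    rintro l u (h | ⟨a, h⟩) e
    · rw [h] at e; injection e with e; omega
    · rw [h] at e; injection e
  unfold pc
  rw [run_append]
  have e1 : run ((List.range m.2.2.length).flatMap fun k =>
      mulP (D (i + 1) (A.δ m.1 k s)) (gateW g i s m.2.1 (m.2.2.getD k 0))) x = x := by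
    refine (run_flatMap_one _ (b0 := m.2.2.length) rfl _ List.nodup_range ?_ ?_).2 (by simp)
    · intro k _ _
      rw [run_mulP, hg, mul_one, Function.update_eq_self]
      intro l hl
      refine hne l _ ?_
      rcases mem_gateW g hl with e | e
      · exact Or.inl e
      · exact Or.inr ⟨_, e⟩
    · intro k hk hk2
      rw [run_mulP]
      · rw [show run (mulP (D (i + 1) (A.δ m.1 m.2.2.length s))
          (gateW g i s m.2.1 (m.2.2.getD m.2.2.length 0))) x = x from ?_]
        · rw [hg, mul_one, Function.update_eq_self]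
        · rw [run_mulP, hg, mul_one, Function.update_eq_self]
          intro l hl
          refine hne l _ ?_
          rcases mem_gateW g hl with e | e
          · exact Or.inl e
          · exact Or.inr ⟨_, e⟩
      · intro l hl
        refine hne l _ ?_
        rcases mem_gateW g hl with e | e
        · exact Or.inl e
        · exact Or.inr ⟨_, e⟩
  rw [e1, run_mulP]
  · have e2 : wv x (noneW g i s m.2.1 m.2.2) = 1 := by
      unfold noneW
      rw [wv_cons]
      have e3 : lv x (false, D i s) = 1 := h1
      rw [e3, one_mul]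
      refine (wv_flatMap_one _ (b0 := m.2.2.length) _ List.nodup_range ?_).2 (by simp)
      intro k _ _
      rw [wv_iw, hg, inv_one]
    rw [e2, mul_one, Function.update_eq_self]
  · intro l hl
    exact hne l _ (mem_noneW g hl)

theorem run_pc_tok {i : ℕ} {m : MI Kd} {s : S} {t : ℕ} {x : Reg S B → G} (hc : ClkOK g t m.2.1 x)
    (hn : m.2.2.Nodup) (h1 : x (D i s) = g.c) :
    run (pc g A i m s) x = Function.update x (D (i + 1) (mst A t s m))
      (x (D (i + 1) (mst A t s m)) * g.c) := by
  have hne : ∀ (l : Bool × Reg S B) (u : S), (l.2 = D i s ∨ ∃ a, l.2 = C false m.2.1 a) →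
      l.2 ≠ D (i + 1) u := by
    rintro l u (h | ⟨a, h⟩) e
    · rw [h] at e; injection e with e; omega
    · rw [h] at e; injection e
  have hne2 : ∀ (a : ℕ) (u : S), ∀ l ∈ gateW (B := B) g i s m.2.1 a, l.2 ≠ D (i + 1) u := by
    intro a u l hl
    refine hne l _ ?_
    rcases mem_gateW g hl with e | e
    · exact Or.inl e
    · exact Or.inr ⟨_, e⟩
  set k0 := m.2.2.idxOf (t % m.2.1) with hk0
  -- values of the gates
  have hg : ∀ (z : Reg S B → G), z (D i s) = g.c → ClkOK g t m.2.1 z → ∀ k < m.2.2.length,
      wv z (gateW g i s m.2.1 (m.2.2.getD k 0)) = if k = k0 then g.c else 1 := by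
    intro z hz hcz k hk
    rw [wv_gateW, hz, hcz]
    by_cases e : k = k0
    · subst e
      have h2 : m.2.2.getD k0 0 = t % m.2.1 := by
        have h3 : k0 < m.2.2.length := hk
        rw [List.getD_eq_getElem _ _ h3]
        exact List.getElem_idxOf h3
      rw [if_pos h2.symm, if_pos rfl]
      exact g.hcy
    · rw [if_neg e, if_neg]
      · exact g.hc1
      · intro h2
        apply e
        rw [hk0, h2, List.getD_eq_getElem _ _ hk]
        exact (List.Nodup.idxOf_getElem hn k hk).symm
  have hk0le : k0 ≤ m.2.2.length := List.idxOf_le_length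
  have htgt : (D (i + 1) (mst A t s m) : Reg S B) = D (i + 1) (A.δ m.1 k0 s) := rfl
  rw [htgt]
  set a0 : Reg S B := D (i + 1) (A.δ m.1 k0 s) with ha0
  set x' := Function.update x a0 (x a0 * g.c) with hx'
  have hx'D : x' (D i s) = g.c := by
    rw [hx', Function.update_of_ne, h1]
    intro e; rw [ha0] at e; injection e with e; omega
  have hx'C : ClkOK g t m.2.1 x' := by
    intro a
    rw [hx', Function.update_of_ne, hc]
    intro e; rw [ha0] at e; injection e
  unfold pc
  rw [run_append]
  rcases Nat.lt_or_ge k0 m.2.2.length with hlt | hge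
  · have e1 : run ((List.range m.2.2.length).flatMap fun k =>
        mulP (D (i + 1) (A.δ m.1 k s)) (gateW g i s m.2.1 (m.2.2.getD k 0))) x = x' := by
      refine (run_flatMap_one _ (b0 := k0) ?_ _ List.nodup_range ?_ ?_).1 (List.mem_range.2 hlt)
      · rw [run_mulP _ _ _ (hne2 _ _), hg x h1 hc k0 hlt, if_pos rfl]
      · intro k hk hkne
        rw [run_mulP _ _ _ (hne2 _ _), hg x h1 hc k (List.mem_range.1 hk), if_neg hkne, mul_one,
          Function.update_eq_self]
      · intro k hk hkne
        rw [run_mulP _ _ _ (hne2 _ _), hg x' hx'D hx'C k (List.mem_range.1 hk), if_neg hkne,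
          mul_one, Function.update_eq_self]
    rw [e1, run_mulP _ _ _ fun l hl => hne l _ (mem_noneW g hl)]
    have e2 : wv x' (noneW g i s m.2.1 m.2.2) = 1 := by
      unfold noneW
      rw [wv_cons]
      have e3 : lv x' (false, D i s) = g.c := hx'D
      rw [e3]
      rw [(wv_flatMap_one (x := x') (fun k => iw (gateW g i s m.2.1 (m.2.2.getD k 0)))
        (b0 := k0) _ List.nodup_range ?_).1 (List.mem_range.2 hlt), wv_iw,
        hg x' hx'D hx'C k0 hlt, if_pos rfl, mul_inv_cancel]
      intro k hk hkne
      rw [wv_iw, hg x' hx'D hx'C k (List.mem_range.1 hk), if_neg hkne, inv_one]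
    rw [e2, mul_one, Function.update_eq_self]
  · have hk0e : k0 = m.2.2.length := le_antisymm hk0le hge
    have e1 : run ((List.range m.2.2.length).flatMap fun k =>
        mulP (D (i + 1) (A.δ m.1 k s)) (gateW g i s m.2.1 (m.2.2.getD k 0))) x = x := by
      have h7 : ∀ k ∈ List.range m.2.2.length, run (mulP (D (i + 1) (A.δ m.1 k s))
          (gateW g i s m.2.1 (m.2.2.getD k 0))) x = x := by
        intro k hk
        have hk' := List.mem_range.1 hk
        rw [run_mulP _ _ _ (hne2 _ _), hg x h1 hc k hk', if_neg (by omega), mul_one,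
          Function.update_eq_self]
      have h8 : ∀ l : List ℕ, (∀ k ∈ l, k ∈ List.range m.2.2.length) →
          run (l.flatMap fun k => mulP (D (i + 1) (A.δ m.1 k s))
          (gateW g i s m.2.1 (m.2.2.getD k 0))) x = x := by
        intro l
        induction l with
        | nil => intro _; rfl
        | cons k l ih =>
          intro h
          rw [List.flatMap_cons, run_append, h7 k (h k (by simp))]
          exact ih fun j hj => h j (by simp [hj])
      exact h8 _ fun _ h => h
    rw [e1, run_mulP _ _ _ fun l hl => hne l _ (mem_noneW g hl)]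
    have e2 : wv x (noneW g i s m.2.1 m.2.2) = g.c := by
      unfold noneW
      rw [wv_cons]
      have e3 : lv x (false, D i s) = g.c := h1
      rw [e3]
      rw [(wv_flatMap_one (x := x) (fun k => iw (gateW g i s m.2.1 (m.2.2.getD k 0)))
        (b0 := m.2.2.length) _ List.nodup_range ?_).2 (by simp), mul_one]
      intro k hk hkne
      have hk' := List.mem_range.1 hk
      rw [wv_iw, hg x h1 hc k hk', if_neg (by omega), inv_one]
    rw [e2, hx', ha0, hk0e]

theorem run_stepP {i : ℕ} {m : MI Kd} {s0 : S} {t : ℕ} {x : Reg S B → G} (hc : ClkOK g t m.2.1 x)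
    (hn : m.2.2.Nodup) (h1 : ∀ s, x (D i s) = if s = s0 then g.c else 1) :
    run (stepP g A i m) x = Function.update x (D (i + 1) (mst A t s0 m))
      (x (D (i + 1) (mst A t s0 m)) * g.c) := by
  unfold stepP
  refine (run_flatMap_one _ (b0 := s0) ?_ _ nodup_allL ?_ ?_).1 (mem_allL s0)
  · exact run_pc_tok g A hc hn (by rw [h1, if_pos rfl])
  · intro s _ hs
    exact run_pc_one g A hc (by rw [h1, if_neg hs])
  · intro s _ hs
    refine run_pc_one g A (t := t) ?_ ?_
    · intro a
      rw [Function.update_of_ne, hc]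
      intro e; injection e
    · rw [Function.update_of_ne, h1, if_neg hs]
      intro e; injection e with e; omega

theorem run_steps : ∀ (L : List (MI Kd)) (i : ℕ) (s0 : S) (t : ℕ) (x : Reg S B → G),
    (∀ m ∈ L, ClkOK g t m.2.1 x ∧ m.2.2.Nodup) →
    (∀ s, x (D i s) = if s = s0 then g.c else 1) → (∀ j, i < j → ∀ s, x (D j s) = 1) →
    ∀ s, run (steps g A i L) x (D (i + L.length) s) =
      if s = L.foldl (mst A t) s0 then g.c else 1
  | [], i, s0, t, x, _, h1, _, s => h1 s
  | m :: L, i, s0, t, x, hL, h1, h2, s => by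
    have hm := hL m (by simp)
    have e : steps g A i (m :: L) = stepP g A i m ++ steps g A (i + 1) L := rfl
    rw [e, run_append, run_stepP g A hm.1 hm.2 h1]
    have e2 : i + (m :: L).length = i + 1 + L.length := by simp; omega
    rw [e2, List.foldl_cons]
    apply run_steps L (i + 1) (mst A t s0 m) t
    · intro m' hm'
      refine ⟨?_, (hL m' (by simp [hm'])).2⟩
      intro a
      rw [Function.update_of_ne, (hL m' (by simp [hm'])).1]
      intro e; injection e
    · intro s'
      by_cases e3 : s' = mst A t s0 m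
      · subst e3
        rw [Function.update_self, if_pos rfl, h2 _ (Nat.lt_succ_self i), one_mul]
      · rw [Function.update_of_ne, if_neg e3, h2 _ (Nat.lt_succ_self i)]
        intro e4; injection e4 with _ e4; exact e3 e4
    · intro j hj s'
      rw [Function.update_of_ne, h2 _ (by omega)]
      intro e4; injection e4 with e4; omega

end Pool.Agent.V7H67.NM
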