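import Pool.Agent.H623R2.PS.Defs

/-!
# Iterating a product of Nielsen moves on tuples of group elements
-/

namespace Pool.Agent.V7H67.NM

/-- A move `(b, i, j)` on a tuple of group elements: if `i ≠ j`, entry `i` is multiplied on the
right by entry `j` (`b = false`) or by the inverse of entry `j` (`b = true`). Moves with `i = j`
and moves with `i` out of range do nothing, entries out of range count as `1`. -/
def move {G : Type} [Group G] (x : List G) (s : Bool × ℕ × ℕ) : List G :=
  if s.2.1 = s.2.2 then x
  else x.set s.2.1 (x.getD s.2.1 1 * (if s.1 then (x.getD s.2.2 1)⁻¹ else x.getD s.2.2 1))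

/-- The product of a sequence of moves, applied from left to right. -/
def moves {G : Type} [Group G] (P : List (Bool × ℕ × ℕ)) (x : List G) : List G := P.foldl move x

/-- The group element with number `k`; numbers out of range stand for `1`. -/
def elt {G : Type} [Group G] {m : ℕ} (e : G ≃ Fin m) (k : ℕ) : G :=
  if h : k < m then e.symm ⟨k, h⟩ else 1

/-- Instances: a sequence of moves, a tuple of (numbers of) group elements, a time, and (the number
of) a group element. -/
abbrev Inst := List (Bool × ℕ × ℕ) × List ℕ × ℕ × ℕ

/-- The problem: after `t` repetitions of the sequence of moves, is the first entry of the tuple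
equal to the given group element? -/
def Hits {G : Type} [Group G] {m : ℕ} (e : G ≃ Fin m) (I : Inst) : Prop :=
  ((moves I.1)^[I.2.2.1] (I.2.1.map (elt e))).getD 0 1 = elt e I.2.2.2

end Pool.Agent.V7H67.NM
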