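import Pool.Agent.V7H67.NM.Primes
import Pool.Agent.V7H67.NM.Defs
import Pool.Agent.V7H67.LI.Fin

/-!
# Numbering the registers
-/

namespace Pool.Agent.V7H67.NM

open Pool.Agent.NPC Pool.Agent.V7H67.LI

/-- Registers of the simulation. -/
abbrev RG := Reg (B3 × Qs) B3

/-- The number of states. -/
noncomputable def KK : ℕ := Fintype.card (B3 × Qs)

/-- The number of a state. -/
noncomputable def ix (s : B3 × Qs) : ℕ := (Fintype.equivFin (B3 × Qs) s).val

theorem ix_lt (s : B3 × Qs) : ix s < KK := (Fintype.equivFin (B3 × Qs) s).isLt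

theorem ix_inj {s s' : B3 × Qs} (h : ix s = ix s') : s = s' :=
  (Fintype.equivFin (B3 × Qs)).injective (Fin.ext h)

/-- The number of a triple of bits. -/
def ib (r : B3) : ℕ :=
  (if r.1 then 0 else 1) + ((if r.2.1 then 0 else 2) + (if r.2.2 then 4 else 0))

theorem ib_inj : ∀ r r' : B3, ib r = ib r' → r = r' := by decide

theorem ib_lt : ∀ r : B3, ib r < 8 := by decide

/-- Register numbers. -/
noncomputable def code : RG → ℕ
  | Reg.R b r => 5 * ib r + (if b then 1 else 0)
  | Reg.D i s => 5 * (i * KK + ix s) + 2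
  | Reg.C b q j => 5 * Nat.pair q j + (if b then 4 else 3)

theorem code_inj : Function.Injective code := by
  intro a a' h
  have b1 : ∀ b : Bool, (if b then 1 else 0) = 0 ∨ (if b then 1 else 0) = 1 := by decide
  have b2 : ∀ b : Bool, (if b then 4 else 3) = 3 ∨ (if b then 4 else 3) = 4 := by decide
  match a, a' with
  | Reg.R b r, Reg.R b' r' =>
    simp only [code] at h
    have h1 : b = b' := by
      cases b <;> cases b' <;> simp at h ⊢ <;> omega
    subst h1
    have h2 : r = r' := ib_inj r r' (by omega)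
    rw [h2]
  | Reg.R b r, Reg.D i s =>
    simp only [code] at h
    rcases b1 b with e | e <;> rw [e] at h <;> omega
  | Reg.R b r, Reg.C b' q j =>
    simp only [code] at h
    rcases b1 b with e | e <;> rcases b2 b' with e' | e' <;> rw [e, e'] at h <;> omega
  | Reg.D i s, Reg.R b r =>
    simp only [code] at h
    rcases b1 b with e | e <;> rw [e] at h <;> omega
  | Reg.D i s, Reg.D i' s' =>
    simp only [code] at h
    have h1 : i * KK + ix s = i' * KK + ix s' := by omega
    have hs := ix_lt s
    have hs' := ix_lt s'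
    have h2 : i = i' := by
      have e1 : (i * KK + ix s) / KK = i := by
        rw [Nat.mul_comm, Nat.mul_add_div (by omega), Nat.div_eq_of_lt hs, Nat.add_zero]
      have e2 : (i' * KK + ix s') / KK = i' := by
        rw [Nat.mul_comm, Nat.mul_add_div (by omega), Nat.div_eq_of_lt hs', Nat.add_zero]
      rw [← e1, ← e2, h1]
    subst h2
    rw [ix_inj (s := s) (s' := s') (by omega)]
  | Reg.D i s, Reg.C b q j =>
    simp only [code] at h
    rcases b2 b with e | e <;> rw [e] at h <;> omega
  | Reg.C b q j, Reg.R b' r =>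
    simp only [code] at h
    rcases b2 b with e | e <;> rcases b1 b' with e' | e' <;> rw [e, e'] at h <;> omega
  | Reg.C b q j, Reg.D i s =>
    simp only [code] at h
    rcases b2 b with e | e <;> rw [e] at h <;> omega
  | Reg.C b q j, Reg.C b' q' j' =>
    simp only [code] at h
    have h1 : b = b' := by
      cases b <;> cases b' <;> simp at h ⊢ <;> omega
    subst h1
    have h2 : Nat.pair q j = Nat.pair q' j' := by omega
    obtain ⟨e1, e2⟩ := Nat.pair_eq_pair.1 h2
    rw [e1, e2]

noncomputable instance : TEnc RG := ⟨fun a => toT (code a), fun _ _ h => code_inj (TEnc.inj h)⟩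

/-- The coding of a finite type. -/
noncomputable def tencOf (S : Type) [Fintype S] : TEnc S :=
  ⟨fun s => toT (Fintype.equivFin S s).val, fun _ _ h =>
    (Fintype.equivFin S).injective (Fin.ext (TEnc.inj h))⟩

noncomputable instance : TEnc Qs := tencOf Qs

noncomputable instance : TEnc Kd := tencOf Kd

section

variable {α : Type} [TEnc α]

@[fun_prop]
theorem poly_code {f : α → RG} (hf : Poly f) : Poly (fun a => code (f a)) := Poly.of_toT hf.toT'

theorem poly_pair {f g : α → ℕ} (hf : Poly f) (hg : Poly g) : Poly (fun a => Nat.pair (f a) (g a)) := by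
  unfold Nat.pair
  fun_prop

@[fun_prop]
theorem poly_R {b : α → Bool} {r : α → B3} (hb : Poly b) (hr : Poly r) :
    Poly (fun a => (Reg.R (b a) (r a) : RG)) := by
  have h1 : Poly (fun a => ib (r a)) := (poly_finite ib).comp hr
  have h2 : Poly (fun a => 5 * ib (r a) + (if b a then 1 else 0)) := by fun_prop
  exact Poly.of_toT h2.toT'

@[fun_prop]
theorem poly_D {i : α → ℕ} {s : α → B3 × Qs} (hi : Poly i) (hs : Poly s) :
    Poly (fun a => (Reg.D (i a) (s a) : RG)) := by
  have h1 : Poly (fun a => ix (s a)) := (poly_finite ix).comp hs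
  have h2 : Poly (fun a => 5 * (i a * KK + ix (s a)) + 2) := by fun_prop
  exact Poly.of_toT h2.toT'

@[fun_prop]
theorem poly_C {b : α → Bool} {q j : α → ℕ} (hb : Poly b) (hq : Poly q) (hj : Poly j) :
    Poly (fun a => (Reg.C (b a) (q a) (j a) : RG)) := by
  have h1 := poly_pair hq hj
  have h2 : Poly (fun a => 5 * Nat.pair (q a) (j a) + (if b a then 4 else 3)) := by fun_prop
  exact Poly.of_toT h2.toT'

@[fun_prop]
theorem poly_toD {o : α → ℕ} (ho : Poly o) : Poly (fun a => toD (o a)) := by
  have h2 : Poly (fun a => if o a < 6 then o a else 5) := by fun_prop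
  refine Poly.of_toT (h2.toT'.congr fun a => ?_)
  show toT (if o a < 6 then o a else 5) = toT (toD (o a)).val
  congr 1
  unfold toD
  split_ifs <;> rfl

theorem poly_delta : Poly (fun p : Kd × ℕ × (B3 × Qs) => QM.δ p.1 p.2.1 p.2.2) := by
  have h1 : Poly (fun p : Kd × Fin 6 × (B3 × Qs) => QM.δ p.1 p.2.1.val p.2.2) := poly_finite _
  have h2 : Poly (fun p : Kd × ℕ × (B3 × Qs) => (p.1, toD p.2.1, p.2.2)) := by fun_prop
  refine (h1.comp h2).congr ?_
  rintro ⟨k, o, s⟩
  show QM.δ k (toD o).val s = QM.δ k o s
  have h3 : (toD o).val = if o < 6 then o else 5 := by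
    unfold toD
    split_ifs <;> rfl
  have h4 : toD (toD o).val = toD o := by
    unfold toD
    split_ifs <;> simp_all
  have h5 : ((toD o).val = 2 ∨ (toD o).val = 4) ↔ (o = 2 ∨ o = 4) := by
    rw [h3]
    split_ifs <;> omega
  unfold QM
  simp only
  congr 1
  cases k with
  | first => simp only [δQ]; rw [h4]
  | next => simp only [δQ]; rw [h4]
  | last q => rfl
  | clStart => rfl
  | lit b => simp only [δQ]; rw [decide_eq_decide.2 h5]
  | clEnd => rfl
  | fin => rfl

@[fun_prop]
theorem poly_delta' {k : α → Kd} {o : α → ℕ} {s : α → B3 × Qs} (hk : Poly k) (ho : Poly o)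
    (hs : Poly s) : Poly (fun a => QM.δ (k a) (o a) (s a)) :=
  poly_delta.comp (Poly.pair hk (Poly.pair ho hs))

end

end Pool.Agent.V7H67.NM
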