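import Pool.Agent.Helper407.PLMod2

/-!
# Finite `p`-groups act unipotently in characteristic `p`
-/

namespace Pool.Agent.V7H67.NM

open Pool.Agent.Helper407.PL

section

variable {p : ℕ} [hp : Fact p.Prime] {H : Type} [Group H] [Finite H]

variable (p H) in
/-- Translation of functions. -/
def trans : H →* Module.End (ZMod p) (H → ZMod p) where
  toFun g :=
    { toFun := fun ψ x => ψ (g⁻¹ * x)
      map_add' := fun _ _ => rfl
      map_smul' := fun _ _ => rfl }
  map_one' := by
    apply LinearMap.ext; intro ψ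
    funext x
    show ψ (1⁻¹ * x) = ψ x
    simp
  map_mul' a b := by
    apply LinearMap.ext; intro ψ
    funext x
    show ψ ((a * b)⁻¹ * x) = ψ (b⁻¹ * (a⁻¹ * x))
    rw [mul_inv_rev, mul_assoc]

variable (p H) in
/-- The ascending series. -/
def asc : ℕ → Submodule (ZMod p) (H → ZMod p)
  | 0 => ⊥
  | n + 1 =>
    { carrier := {v | ∀ g, trans p H g v - v ∈ asc n}
      zero_mem' := fun g => by simp
      add_mem' := fun {a b} ha hb g => by
        have := (asc n).add_mem (ha g) (hb g)
        rw [map_add]
        convert this using 1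
        abel
      smul_mem' := fun c a ha g => by
        have := (asc n).smul_mem c (ha g)
        rw [map_smul]
        rwa [smul_sub] at this }


theorem mem_asc_succ {n : ℕ} {v : H → ZMod p} :
    v ∈ asc p H (n + 1) ↔ ∀ g, trans p H g v - v ∈ asc p H n := Iff.rfl


theorem asc_le_succ : ∀ n, asc p H n ≤ asc p H (n + 1)
  | 0 => bot_le
  | n + 1 => fun v hv g => asc_le_succ n (hv g)


theorem asc_mono : Monotone (asc p H) := monotone_nat_of_le_succ asc_le_succ


theorem asc_inv (n : ℕ) (g : H) (v : H → ZMod p) (hv : v ∈ asc p H n) :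
    trans p H g v ∈ asc p H n := by
  have h1 := asc_le_succ n hv g
  have := (asc p H n).add_mem h1 hv
  simpa using this

theorem exists_asc_top (hH : IsPGroup p H) : ∃ n, asc p H n = ⊤ := by
  obtain ⟨n, hn⟩ := (monotone_stabilizes_iff_noetherian (R := ZMod p) (M := H → ZMod p)).2
    inferInstance ⟨asc p H, asc_mono⟩
  refine ⟨n, ?_⟩
  by_contra hne
  have hP : IsPGroup p (⊤ : Subgroup H) := hH.to_subgroup ⊤
  obtain ⟨v, _, hv, h⟩ := exists_fixed_quot (trans p H) hP (asc p H n) ⊤
    (fun h => hne (top_le_iff.1 h)) (fun g _ w hw => asc_inv n g w hw) (fun _ _ _ _ => trivial)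
  apply hv
  have h1 : v ∈ asc p H (n + 1) := fun g => h g trivial
  have h2 : asc p H n = asc p H (n + 1) := hn (n + 1) (Nat.le_succ n)
  rw [h2]
  exact h1


theorem prod_asc : ∀ (l : List H) (k : ℕ) (v : H → ZMod p), v ∈ asc p H (k + l.length) →
    (l.map fun h => trans p H h - 1).prod v ∈ asc p H k
  | [], k, v, hv => by simpa using hv
  | h :: l, k, v, hv => by
    have h1 := prod_asc l (k + 1) v (by
      rw [show k + 1 + l.length = k + (h :: l).length by simp; omega]
      exact hv)
    rw [List.map_cons, List.prod_cons]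
    exact h1 h


theorem trans_inj (hp1 : (1 : ZMod p) ≠ 0) : Function.Injective (trans p H) := by
  classical
  intro g h e
  have h1 := LinearMap.congr_fun e (fun x => if x = 1 then (1 : ZMod p) else 0)
  have h2 := congrFun h1 g
  have h3 : (if g⁻¹ * g = 1 then (1 : ZMod p) else 0) = if h⁻¹ * g = 1 then (1 : ZMod p) else 0 := h2
  rw [inv_mul_cancel, if_pos rfl] at h3
  by_cases h4 : h⁻¹ * g = 1
  · exact (inv_mul_eq_one.1 h4).symm
  · rw [if_neg h4] at h3
    exact absurd h3 hp1

end

/-- A finite `p`-group has a faithful unipotent representation in characteristic `p`. -/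
theorem exists_unip (p : ℕ) [hp : Fact p.Prime] (H : Type) [Group H] [Finite H] (hH : IsPGroup p H) :
    ∃ (R : Type) (_ : Ring R) (_ : Finite R) (_ : Algebra (ZMod p) R) (ρ : H →* R) (m : ℕ),
      Function.Injective ρ ∧ ∀ l : List H, m ≤ l.length → (l.map fun h => ρ h - 1).prod = 0 := by
  obtain ⟨n, hn⟩ := exists_asc_top hH
  refine ⟨Module.End (ZMod p) (H → ZMod p), inferInstance, ?_, inferInstance, trans p H, n,
    trans_inj one_ne_zero, ?_⟩
  · exact Finite.of_injective (fun f : Module.End (ZMod p) (H → ZMod p) =>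
      (f : (H → ZMod p) → (H → ZMod p))) DFunLike.coe_injective
  · intro l hl
    apply LinearMap.ext
    intro v
    have h1 : v ∈ asc p H (0 + l.length) := by
      have : (⊤ : Submodule (ZMod p) (H → ZMod p)) ≤ asc p H (0 + l.length) := by
        rw [← hn]
        exact asc_mono (by omega)
      exact this trivial
    have h2 := prod_asc l 0 v h1
    exact (Submodule.mem_bot (ZMod p)).1 h2

/-- A finite nilpotent group embeds into a product of finite `p`-groups. -/
theorem exists_family (G : Type) [Group G] [Finite G] (h : Group.IsNilpotent G) :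
    ∃ (ι : Type) (_ : Finite ι) (p : ι → ℕ) (_ : ∀ i, Fact (p i).Prime) (H : ι → Type)
      (_ : ∀ i, Group (H i)) (_ : ∀ i, Finite (H i)) (π : ∀ i, G →* H i),
      (∀ i, IsPGroup (p i) (H i)) ∧ ∀ g : G, (∀ i, π i g = 1) → g = 1 := by
  obtain ⟨e⟩ := ((Group.isNilpotent_of_finite_tfae (G := G)).out 0 4).1 h
  refine ⟨Σ p : (Nat.card G).primeFactors, Sylow p G, inferInstance, fun i => i.1,
    fun i => ⟨Nat.prime_of_mem_primeFactors i.1.2⟩, fun i => (i.2 : Subgroup G), fun i => inferInstance,
    fun i => inferInstance, fun i => ((Pi.evalMonoidHom _ i.2).comp (Pi.evalMonoidHom _ i.1)).comp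
      e.symm.toMonoidHom, fun i => ?_, ?_⟩
  · have : Fact (Nat.Prime i.1) := ⟨Nat.prime_of_mem_primeFactors i.1.2⟩
    exact i.2.isPGroup'
  · intro g hg
    have h1 : e.symm g = 1 := by
      funext p P
      exact hg ⟨p, P⟩
    have := congrArg e h1
    simpa using this

end Pool.Agent.V7H67.NM
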