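import Pool.Agent.V7H67.NM.Alg
import Pool.Agent.V7H67.NM.Nil

/-!
# The problem is in `P` for nilpotent groups
-/

namespace Pool.Agent.V7H67.NM

open Pool.Agent.NPC Pool.Agent.H623R2.PS Pool.Agent.V7H67.LI

/-- The coding of a finite type. -/
@[instance_reducible]
noncomputable def encR (R : Type) [Finite R] : TEnc R :=
  ⟨fun a => toT ((Finite.equivFin R) a).val, fun _ _ h =>
    (Finite.equivFin R).injective (Fin.ext (TEnc.inj h))⟩

theorem exists_chk {G : Type} [Group G] [Finite G] {m : ℕ} (e : G ≃ Fin m) {R : Type} [Ring R]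
    [Finite R] (rr : G →* R) {p : ℕ} [hp : Fact p.Prime] [Algebra (ZMod p) R] {M : ℕ}
    (hnil : ∀ l : List G, M ≤ l.length → (l.map fun h => rr h - 1).prod = 0) :
    ∃ b : PInst → Bool, NPC.Poly b ∧ ∀ I : PInst, b I = true ↔
      rr (((asgs I.1)^[I.2.2.1] (I.2.1.map (elt e))).getD 0 1) = rr (elt e I.2.2.2) := by
  let _ := encG e
  let _ := encR R
  have hp0 : 0 < p := hp.1.pos
  have hpR : ∀ r : R, p • r = 0 := by
    intro r
    rw [← Nat.cast_smul_eq_nsmul (ZMod p) p r, ZMod.natCast_self, zero_smul]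
  have hx : NPC.Poly (fun I : PInst => I.2.1.map (elt e)) :=
    NPC.Poly.map (l := fun I : PInst => I.2.1) (F := fun _ k => elt e k) (by fun_prop)
      ((poly_elt e).comp (NPC.Poly.snd NPC.Poly.id))
  have hn : UPoly (fun I : PInst => (I.2.1.map (elt e)).length) := UPoly.length hx
  have hW : NPC.Poly (fun I : PInst => wk (lt (I.2.1.map (elt e)).length) (M + 1)) :=
    poly_wk (poly_lt hn) _
  have hP : NPC.Poly (fun I : PInst => progL p (I.2.1.map (elt e)).length
      (wk (lt (I.2.1.map (elt e)).length) (M + 1)) I.1) :=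
    poly_progL p hp0 (M + 1) hn (NPC.Poly.fst NPC.Poly.id)
  have hA : NPC.Poly (fun I : PInst => powL p (wk (lt (I.2.1.map (elt e)).length) (M + 1)).length
      (progL p (I.2.1.map (elt e)).length (wk (lt (I.2.1.map (elt e)).length) (M + 1)) I.1)
      I.2.2.1.bits) :=
    poly_powL p hp0 (D := fun I : PInst => (wk (lt (I.2.1.map (elt e)).length) (M + 1)).length)
      (UPoly.length hW) hP (l := fun I : PInst => I.2.2.1.bits)
      (NPC.Poly.natBits (by fun_prop))
  have hv := poly_vl rr hp0 hpR hW hA hx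
  have ht : NPC.Poly (fun I : PInst => rr (elt e I.2.2.2) - 1) :=
    (poly_finite (fun g : G => rr g - 1)).comp ((poly_elt e).comp
      (f := fun I : PInst => I.2.2.2) (by fun_prop))
  classical
  refine ⟨_, NPC.Poly.dec_eq hv ht, fun I => ?_⟩
  rw [decide_eq_true_iff, vl_eq (p := p) rr (fun l hl => hnil l (by omega))]
  exact sub_left_inj

theorem poly_allB {ι : Type} (b : ι → PInst → Bool) (hb : ∀ i, NPC.Poly (b i)) :
    ∀ l : List ι, NPC.Poly (fun I => l.all fun i => b i I)
  | [] => NPC.Poly.const true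
  | i :: l => NPC.Poly.and (hb i) (poly_allB b hb l)

/-- The problem is in `P` for nilpotent groups. -/
theorem value_inP {G : Type} [Group G] (hG : Group.IsNilpotent G) {m : ℕ} (e : G ≃ Fin m) :
    InP (lang (Value e)) := by
  have : Finite G := Finite.of_equiv _ e.symm
  obtain ⟨ι, _, p, _, H, _, _, π, hH, hπ⟩ := exists_family G hG
  choose R hR1 hR2 hR3 ρ M hρ hnil using fun i => exists_unip (p i) (H i) (hH i)
  choose b hb1 hb2 using fun i => exists_chk e ((ρ i).comp (π i)) (p := p i) (M := M i) (by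
    intro l hl
    have := hnil i (l.map (π i)) (by simpa using hl)
    rw [List.map_map] at this
    exact this)
  have := Fintype.ofFinite ι
  refine inPP_of (poly_allB b hb1 (Finset.univ : Finset ι).toList) fun I => ?_
  rw [List.all_eq_true, value_iff]
  constructor
  · intro h i _
    rw [hb2]
    exact congrArg _ h
  · intro h
    show _ = elt e I.2.2.2
    rw [← mul_inv_eq_one]
    refine hπ _ fun i => ?_
    have h1 := (hb2 i I).1 (h i (by simp))
    have h2 := hρ i h1
    rw [map_mul, map_inv, h2, mul_inv_cancel]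

end Pool.Agent.V7H67.NM
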