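import Mathlib

/-!
# Finite groups that are not nilpotent contain a loop of commutators

If `G` is finite and not nilpotent there are `c ≠ 1` and `y` such that iterating `x ↦ ⁅x, y⁆` on `c`
returns to `c` (Zorn: finite Engel groups are nilpotent).
-/

namespace Pool.Agent.V7H67.NM

open Subgroup
open scoped commutatorElement

universe u

/-- The Engel condition. -/
def Engel (G : Type u) [Group G] : Prop := ∀ x y : G, ∃ n, (fun z => ⁅z, y⁆)^[n] x = 1

theorem Engel.sub {G : Type u} [Group G] (h : Engel G) (H : Subgroup G) : Engel H := by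
  intro x y
  obtain ⟨n, hn⟩ := h x y
  refine ⟨n, ?_⟩
  have key : ∀ k, (((fun z => ⁅z, y⁆)^[k] x : H) : G) = (fun z => ⁅z, (y : G)⁆)^[k] x := by
    intro k
    induction k with
    | zero => rfl
    | succ k ih =>
      rw [Function.iterate_succ_apply', Function.iterate_succ_apply', ← ih]
      simp [commutatorElement_def]
  apply Subtype.ext
  rw [key, hn]; rfl

theorem Engel.quot {G : Type u} [Group G] (h : Engel G) (N : Subgroup G) [N.Normal] :
    Engel (G ⧸ N) := by
  intro x y
  obtain ⟨x, rfl⟩ := QuotientGroup.mk_surjective x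
  obtain ⟨y, rfl⟩ := QuotientGroup.mk_surjective y
  obtain ⟨n, hn⟩ := h x y
  refine ⟨n, ?_⟩
  have key : ∀ k, (fun z => ⁅z, (y : G ⧸ N)⁆)^[k] (x : G ⧸ N) =
      (((fun z => ⁅z, y⁆)^[k] x : G) : G ⧸ N) := by
    intro k
    induction k with
    | zero => rfl
    | succ k ih =>
      rw [Function.iterate_succ_apply', Function.iterate_succ_apply', ih]
      simp [commutatorElement_def]
  rw [key, hn]; rfl

/-- A proper subgroup of a nilpotent subgroup grows in its normalizer. -/
theorem grow {G : Type u} [Group G] [Finite G] {M I : Subgroup G} (hM : Group.IsNilpotent M)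
    (h : I < M) : ∃ n ∈ M, n ∉ I ∧ n ∈ normalizer (I : Set G) := by
  have hn : NormalizerCondition M := Group.normalizerCondition_of_isNilpotent
  have h1 : I.subgroupOf M < ⊤ := by
    rw [lt_top_iff_ne_top]
    intro e
    rw [subgroupOf_eq_top] at e
    exact absurd e (not_le_of_gt h)
  have h2 := hn _ h1
  obtain ⟨n, hn1, hn2⟩ := SetLike.exists_of_lt h2
  refine ⟨n, n.2, fun hc => hn2 (mem_subgroupOf.2 hc), ?_⟩
  rw [mem_normalizer_iff] at hn1 ⊢
  intro g
  constructor
  · intro hg
    have := (hn1 ⟨g, h.le hg⟩).1 (mem_subgroupOf.2 hg)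
    simpa [mem_subgroupOf] using this
  · intro hg
    have hgM : g ∈ M := by
      have h3 : (n : G) * g * (n : G)⁻¹ ∈ M := h.le hg
      have h4 : (n : G)⁻¹ * ((n : G) * g * (n : G)⁻¹) * n ∈ M :=
        M.mul_mem (M.mul_mem (M.inv_mem n.2) h3) n.2
      simpa [mul_assoc] using h4
    have := (hn1 ⟨g, hgM⟩).2 (by simpa [mem_subgroupOf] using hg)
    exact mem_subgroupOf.1 this

theorem engel_nilpotent : ∀ (n : ℕ) (G : Type u) [Group G] [Finite G], Nat.card G = n → Engel G →
    Group.IsNilpotent G := by
  intro n
  induction n using Nat.strong_induction_on with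
  | _ n IH =>
    intro G _ _ hG hE
    by_contra hnil
    -- proper subgroups
    have hsub : ∀ H : Subgroup G, H < ⊤ → Group.IsNilpotent H := by
      intro H hH
      refine IH (Nat.card H) ?_ H rfl (hE.sub H)
      rw [← hG]
      refine lt_of_le_of_ne (Subgroup.card_le_card_group H) fun e => hH.ne ?_
      exact (Subgroup.card_eq_iff_eq_top H).1 e
    have hquo : ∀ (N : Subgroup G) [N.Normal], N ≠ ⊥ → Group.IsNilpotent (G ⧸ N) := by
      intro N _ hN
      refine IH (Nat.card (G ⧸ N)) ?_ _ rfl (hE.quot N)
      rw [← hG, Subgroup.card_eq_card_quotient_mul_card_subgroup N]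
      have h1 : 1 < Nat.card N := by
        rw [Subgroup.one_lt_card_iff_ne_bot]; exact hN
      have h2 : 0 < Nat.card (G ⧸ N) := Nat.card_pos
      nlinarith
    have t := Group.isNilpotent_of_finite_tfae (G := G)
    have h3 : ¬ ∀ H : Subgroup G, IsCoatom H → H.Normal := fun h => hnil ((t.out 0 2).2 h)
    push Not at h3
    obtain ⟨M, hM, hMn⟩ := h3
    let S : Set (Subgroup G) := {I | ∃ M2 : Subgroup G, IsCoatom M2 ∧ M2 ≠ M ∧ M ⊓ M2 = I}
    have hfin : S.Finite := Set.toFinite _
    -- maximal members are trivial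
    have hbot : ∀ I, Maximal (· ∈ S) I → I = ⊥ := by
      intro I hI
      obtain ⟨M2, hM2, hne, rfl⟩ := hI.1
      have hlt1 : M ⊓ M2 < M := by
        refine lt_of_le_of_ne inf_le_left fun e => ?_
        have h5 : M ≤ M2 := inf_eq_left.1 e
        exact hne ((hM.le_iff_eq hM2.1).1 h5)
      have hlt2 : M ⊓ M2 < M2 := by
        refine lt_of_le_of_ne inf_le_right fun e => ?_
        have h5 : M2 ≤ M := inf_eq_right.1 e
        exact hne ((hM2.le_iff_eq hM.1).1 h5).symm
      obtain ⟨a, haM, haI, haN⟩ := grow (hsub M hM.lt_top) hlt1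
      obtain ⟨b, hbM, hbI, hbN⟩ := grow (hsub M2 hM2.lt_top) hlt2
      have hnorm : (M ⊓ M2).Normal := by
        by_contra hno
        have h6 : normalizer ((M ⊓ M2 : Subgroup G) : Set G) ≠ ⊤ := fun e =>
          hno (normalizer_eq_top_iff.1 e)
        obtain ⟨M3, hM3, hle⟩ := (eq_top_or_exists_le_coatom
          (normalizer ((M ⊓ M2 : Subgroup G) : Set G))).resolve_left h6
        have h7 : M3 = M := by
          by_contra hne3
          have h8 : M ⊓ M3 ∈ S := ⟨M3, hM3, hne3, rfl⟩
          have h9 : M ⊓ M2 ≤ M ⊓ M3 := le_inf inf_le_left (le_trans le_normalizer hle)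
          have h10 := hI.2 h8 h9
          exact haI (h10 ⟨haM, hle haN⟩)
        exact hbI ⟨h7 ▸ hle hbN, hbM⟩
      by_contra hne1
      have hq := hquo (M ⊓ M2) hne1
      apply hMn
      have h10 : ∀ H : Subgroup (G ⧸ (M ⊓ M2)), IsCoatom H → H.Normal :=
        ((Group.isNilpotent_of_finite_tfae (G := G ⧸ (M ⊓ M2))).out 0 2).1 hq
      have h11 := h10 (M.map (QuotientGroup.mk' (M ⊓ M2))) ?_
      · have h12 : (M.map (QuotientGroup.mk' (M ⊓ M2))).comap (QuotientGroup.mk' (M ⊓ M2)) = M := by
          rw [QuotientGroup.comap_map_mk']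
          exact sup_eq_right.2 inf_le_left
        rw [← h12]
        exact h11.comap _
      · have hker : ∀ K : Subgroup (G ⧸ (M ⊓ M2)), K.comap (QuotientGroup.mk' (M ⊓ M2)) = ⊤ → K = ⊤ := by
          intro K hK
          rw [← Subgroup.map_comap_eq_self_of_surjective (QuotientGroup.mk'_surjective (M ⊓ M2)) K, hK]
          exact Subgroup.map_top_of_surjective _ (QuotientGroup.mk'_surjective (M ⊓ M2))
        have hself : (M.map (QuotientGroup.mk' (M ⊓ M2))).comap (QuotientGroup.mk' (M ⊓ M2)) = M := by
          rw [QuotientGroup.comap_map_mk']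
          exact sup_eq_right.2 inf_le_left
        constructor
        · intro e
          rw [e, Subgroup.comap_top] at hself
          exact hM.1 hself.symm
        · intro K hK
          apply hker
          apply hM.2
          refine hself.symm.trans_lt ?_
          refine lt_of_le_of_ne (Subgroup.comap_mono hK.le) fun e => hK.ne ?_
          have := congrArg (Subgroup.map (QuotientGroup.mk' (M ⊓ M2))) e
          rwa [Subgroup.map_comap_eq_self_of_surjective (QuotientGroup.mk'_surjective _),
            Subgroup.map_comap_eq_self_of_surjective (QuotientGroup.mk'_surjective _)] at this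
    have hall : ∀ M2 : Subgroup G, IsCoatom M2 → M2 ≠ M → M ⊓ M2 = ⊥ := by
      intro M2 h1 h2
      obtain ⟨I, hI1, hI2⟩ := hfin.exists_le_maximal (show M ⊓ M2 ∈ S from ⟨M2, h1, h2, rfl⟩)
      rw [hbot I hI2] at hI1
      exact le_bot_iff.1 hI1
    have hMne : M ≠ ⊥ := fun e => hMn (e ▸ inferInstance)
    obtain ⟨⟨y, hyM⟩, hy1'⟩ := (Subgroup.ne_bot_iff_exists_ne_one).1 hMne
    have hy1 : y ≠ 1 := fun e => hy1' (Subtype.ext e)
    obtain ⟨x, hx⟩ : ∃ x, x ∉ M := by
      by_contra hc
      push Not at hc
      exact hM.1 ((Subgroup.eq_top_iff' M).2 hc)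
    obtain ⟨n, hn⟩ := hE x y
    -- the step: outside of M, the commutator stays outside
    have hstep : ∀ z, z ∉ M → ⁅z, y⁆ ∉ M := by
      intro z hz hc
      have h1 : z * y * z⁻¹ ∈ M := by
        have := M.mul_mem hc hyM
        simpa [commutatorElement_def, mul_assoc] using this
      let e : G ≃* G := MulAut.conj z
      have hMz : IsCoatom (M.map e.toMonoidHom) := by
        have h2 := (OrderIso.isCoatom_iff (MulEquiv.mapSubgroup e) M).2 hM
        exact h2
      have hne : M.map e.toMonoidHom ≠ M := by
        intro he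
        -- then z normalizes M, so M is normal
        have h3 : z ∈ normalizer (M : Set G) := by
          rw [mem_normalizer_iff]
          intro g
          constructor
          · intro hg
            have : e g ∈ M.map e.toMonoidHom := ⟨g, hg, rfl⟩
            rw [he] at this
            simpa [e] using this
          · intro hg
            have : z * g * z⁻¹ ∈ M.map e.toMonoidHom := by rw [he]; exact hg
            obtain ⟨w, hw, hw2⟩ := this
            have h4 : w = g := by
              have : e w = e g := by simpa [e] using hw2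
              exact e.injective this
            exact h4 ▸ hw
        apply hMn
        rw [← normalizer_eq_top_iff]
        apply hM.2
        refine lt_of_le_of_ne le_normalizer fun e2 => hz ?_
        have h5 := h3
        rw [← e2] at h5
        exact h5
      have h6 := hall _ hMz hne
      have h7 : z * y * z⁻¹ ∈ M ⊓ M.map e.toMonoidHom := ⟨h1, ⟨y, hyM, by simp [e]⟩⟩
      rw [h6, Subgroup.mem_bot] at h7
      apply hy1
      have : z * y = z := by
        have := congrArg (· * z) h7
        simpa using this
      simpa using this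
    have hout : ∀ k, (fun z => ⁅z, y⁆)^[k] x ∉ M := by
      intro k
      induction k with
      | zero => exact hx
      | succ k ih =>
        rw [Function.iterate_succ_apply']
        exact hstep _ ih
    exact hout n (by rw [hn]; exact M.one_mem)

/-- In a finite group that is not nilpotent some iteration of a commutator map has a nontrivial
periodic point. -/
theorem exists_loop {G : Type u} [Group G] [Finite G] (h : ¬ Group.IsNilpotent G) :
    ∃ (c y : G) (k : ℕ), c ≠ 1 ∧ 0 < k ∧ (fun z => ⁅z, y⁆)^[k] c = c := by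
  have h1 : ¬ Engel G := fun hE => h (engel_nilpotent _ G rfl hE)
  unfold Engel at h1
  push Not at h1
  obtain ⟨x, y, hxy⟩ := h1
  obtain ⟨i, j, hij, he⟩ := Finite.exists_ne_map_eq_of_infinite
    (fun n : ℕ => (fun z => ⁅z, y⁆)^[n] x)
  rcases lt_or_gt_of_ne hij with hlt | hlt
  · refine ⟨(fun z => ⁅z, y⁆)^[i] x, y, j - i, hxy i, by omega, ?_⟩
    rw [← Function.iterate_add_apply, Nat.sub_add_cancel hlt.le]
    exact he.symm
  · refine ⟨(fun z => ⁅z, y⁆)^[j] x, y, i - j, hxy j, by omega, ?_⟩
    rw [← Function.iterate_add_apply, Nat.sub_add_cancel hlt.le]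
    exact he

end Pool.Agent.V7H67.NM
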