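import Pool.Agent.V7H67.NM.Red
import Pool.Agent.H656R2.AK.TQPoly

/-!
# Hardness
-/

namespace Pool.Agent.V7H67.NM

open Pool.Agent.NPC Pool.Agent.V7H67.LI Pool.Agent.H623R2.PS Pool.Agent.H656R2.AK

section lists

variable {G : Type} [Group G]

/-- The contents of a list of registers. -/
def toF (x : List G) : ℕ → G := fun k => x.getD k 1

theorem length_move (x : List G) (s : Bool × ℕ × ℕ) : (move x s).length = x.length := by
  unfold move
  split_ifs <;> simp

theorem toF_move (x : List G) (s : Bool × ℕ × ℕ) (h : s.2.1 < x.length) :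
    toF (move x s) = ex (toF x) s := by
  unfold move ex
  by_cases e : s.2.1 = s.2.2
  · rw [if_pos e, if_pos e]
  · rw [if_neg e, if_neg e]
    funext k
    by_cases hk : k = s.2.1
    · subst hk
      rw [Function.update_self]
      show (x.set s.2.1 _).getD s.2.1 1 = _
      rw [List.getD_eq_getElem _ _ (by rw [List.length_set]; exact h), List.getElem_set_self]
      rfl
    · rw [Function.update_of_ne hk]
      show (x.set s.2.1 _).getD k 1 = x.getD k 1
      rw [List.getD_eq_getElem?_getD, List.getElem?_set_ne (fun e => hk e.symm),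
        List.getD_eq_getElem?_getD]

theorem length_moves : ∀ (P : List (Bool × ℕ × ℕ)) (x : List G), (moves P x).length = x.length
  | [], _ => rfl
  | s :: P, x => (length_moves P (move x s)).trans (length_move x s)

theorem toF_moves : ∀ (P : List (Bool × ℕ × ℕ)) (x : List G), (∀ s ∈ P, s.2.1 < x.length) →
    toF (moves P x) = run P (toF x)
  | [], _, _ => rfl
  | s :: P, x, h => by
    have h1 := toF_moves P (move x s) (by
      intro t ht
      rw [length_move]
      exact h t (by simp [ht]))
    show toF (moves P (move x s)) = run P (ex (toF x) s)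
    rw [h1, toF_move x s (h s (by simp))]

theorem toF_iterate (P : List (Bool × ℕ × ℕ)) (x : List G) (h : ∀ s ∈ P, s.2.1 < x.length) :
    ∀ T : ℕ, toF ((moves P)^[T] x) = (run P)^[T] (toF x) ∧ ((moves P)^[T] x).length = x.length
  | 0 => ⟨rfl, rfl⟩
  | T + 1 => by
    obtain ⟨h1, h2⟩ := toF_iterate P x h T
    rw [Function.iterate_succ_apply', Function.iterate_succ_apply', ← h1]
    refine ⟨toF_moves P _ (by rw [h2]; exact h), ?_⟩
    rw [length_moves, h2]

/-- Renaming of the registers. -/
noncomputable def mapC (P : List (Ins RG)) : List (Bool × ℕ × ℕ) :=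
  P.map fun s => (s.1, code s.2.1, code s.2.2)

theorem ex_code (x : ℕ → G) (s : Ins RG) :
    (ex x (s.1, code s.2.1, code s.2.2)) ∘ code = ex (x ∘ code) s := by
  unfold ex
  simp only
  by_cases e : s.2.1 = s.2.2
  · rw [if_pos e, if_pos (congrArg code e)]
  · rw [if_neg e, if_neg fun h => e (code_inj h)]
    funext a
    by_cases ha : a = s.2.1
    · subst ha
      show Function.update x (code s.2.1) _ (code s.2.1) = _
      rw [Function.update_self, Function.update_self]
      rfl
    · show Function.update x (code s.2.1) _ (code a) = _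
      rw [Function.update_of_ne ha, Function.update_of_ne fun h => ha (code_inj h)]
      rfl

theorem run_mapC : ∀ (P : List (Ins RG)) (x : ℕ → G), (run (mapC P) x) ∘ code = run P (x ∘ code)
  | [], _ => rfl
  | s :: P, x => by
    show (run (mapC P) (ex x (s.1, code s.2.1, code s.2.2))) ∘ code = run P (ex (x ∘ code) s)
    rw [run_mapC P, ex_code]

theorem iterate_mapC (P : List (Ins RG)) (x : ℕ → G) : ∀ T : ℕ,
    ((run (mapC P))^[T] x) ∘ code = (run P)^[T] (x ∘ code)
  | 0 => rfl
  | T + 1 => by
    rw [Function.iterate_succ_apply', Function.iterate_succ_apply', run_mapC, iterate_mapC P x T]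

end lists

/-! ## Bounds for the targets -/

/-- Admissible targets. -/
def TT (N : ℕ) (ps : List ℕ) : RG → Prop
  | Reg.R _ _ => True
  | Reg.D i _ => i ≤ N
  | Reg.C _ q j => q ∈ ps ∧ j < q

section targets

variable {G : Type} [Group G] (g : Gate G)

theorem steps_tgt : ∀ (L : List (MI Kd)) (i : ℕ), ∀ s ∈ steps g QM i L,
    ∃ j v, s.2.1 = Reg.D j v ∧ j ≤ i + L.length
  | [], _, s, hs => by simp [steps] at hs
  | m :: L, i, s, hs => by
    rcases List.mem_append.1 hs with hs | hs
    · obtain ⟨v, _, hv⟩ := List.mem_flatMap.1 hs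
      obtain ⟨⟨a, ha⟩, _⟩ := mem_pc g QM hv
      exact ⟨i + 1, a, ha, by simp⟩
    · obtain ⟨j, v, h1, h2⟩ := steps_tgt L (i + 1) s hs
      exact ⟨j, v, h1, by simp; omega⟩

theorem cmp_tgt (b : Bool) (L : List (MI Kd)) (ps : List ℕ) : ∀ s ∈ cmp g QM b L,
    TT L.length ps s.2.1 := by
  intro s hs
  rcases List.mem_append.1 hs with hs | hs
  · obtain ⟨r, _, hr⟩ := List.mem_flatMap.1 hs
    have h2 := mem_mulP hr
    rw [h2.1]
    exact Nat.zero_le _
  · obtain ⟨j, v, h1, h2⟩ := steps_tgt g L 0 s hs
    rw [h1]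
    show j ≤ L.length
    omega

theorem blk_tgt (b sgn : Bool) (L : List (MI Kd)) (ps : List ℕ) : ∀ s ∈ blk g QM b sgn L,
    TT L.length ps s.2.1 := by
  intro s hs
  rcases List.mem_append.1 hs with hs | hs
  · exact cmp_tgt g b L ps s hs
  · rcases List.mem_append.1 hs with hs | hs
    · obtain ⟨r, _, hr⟩ := List.mem_flatMap.1 hs
      have h2 := mem_mulP hr
      rw [h2.1]
      trivial
    · exact cmp_tgt g b L ps (!s.1, s.2) (mem_ip hs)

theorem mv_tgt (a a' : RG) (N : ℕ) (ps : List ℕ) (h : TT N ps a) (h' : TT N ps a')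
    (s : Ins RG) (hs : s ∈ mv a a') : TT N ps s.2.1 := by
  unfold mv at hs
  rcases List.mem_cons.1 hs with rfl | hs
  · exact h'
  · simp only [List.mem_singleton] at hs
    subst hs
    exact h

theorem unitP_tgt (L : List (MI Kd)) (ps : List ℕ) (hps : ∀ q ∈ ps, 0 < q) :
    ∀ s ∈ unitP g QM L ps, TT L.length ps s.2.1 := by
  intro s hs
  rcases List.mem_append.1 hs with hs | hs
  · exact blk_tgt g _ _ L ps s hs
  rcases List.mem_append.1 hs with hs | hs
  · exact blk_tgt g _ _ L ps s hs
  rcases List.mem_append.1 hs with hs | hs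
  · obtain ⟨r, _, hr⟩ := List.mem_flatMap.1 hs
    exact mv_tgt (Reg.R true r) (Reg.R false r) L.length ps trivial trivial s hr
  · obtain ⟨q, hq, h1⟩ := List.mem_flatMap.1 hs
    rcases List.mem_append.1 h1 with h1 | h1
    · obtain ⟨j, hj, h2⟩ := List.mem_flatMap.1 h1
      exact mv_tgt (Reg.C false q j) (Reg.C true q ((j + 1) % q)) L.length ps
        (show q ∈ ps ∧ j < q from ⟨hq, List.mem_range.1 hj⟩)
        (show q ∈ ps ∧ (j + 1) % q < q from ⟨hq, Nat.mod_lt _ (hps q hq)⟩) s h2
    · obtain ⟨j, hj, h2⟩ := List.mem_flatMap.1 h1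
      exact mv_tgt (Reg.C true q j) (Reg.C false q j) L.length ps
        (show q ∈ ps ∧ j < q from ⟨hq, List.mem_range.1 hj⟩)
        (show q ∈ ps ∧ j < q from ⟨hq, List.mem_range.1 hj⟩) s h2

end targets

/-- The number of registers. -/
noncomputable def MM (N X : ℕ) : ℕ := 40 + (5 * ((N + 1) * KK) + 5 * ((X + 1) * (X + 1)))

theorem code_lt {N X : ℕ} {ps : List ℕ} (hX : ∀ q ∈ ps, q ≤ X) {a : RG} (h : TT N ps a) :
    code a < MM N X := by
  unfold MM
  match a with
  | Reg.R b r =>
    simp only [code]
    have := ib_lt r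
    split_ifs <;> omega
  | Reg.D i s =>
    simp only [code]
    have h1 : i ≤ N := h
    have h2 := ix_lt s
    have h3 : i * KK + ix s < (N + 1) * KK := by
      calc i * KK + ix s < i * KK + KK := by omega
        _ = (i + 1) * KK := by ring
        _ ≤ (N + 1) * KK := Nat.mul_le_mul_right _ (by omega)
    omega
  | Reg.C b q j =>
    simp only [code]
    have h1 : q ∈ ps ∧ j < q := h
    have h2 := hX q h1.1
    have h3 := Nat.pair_lt_max_add_one_sq q j
    have h4 : (max q j + 1) ^ 2 ≤ (X + 1) * (X + 1) := by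
      rw [max_eq_left h1.2.le, pow_two]
      exact Nat.mul_le_mul (by omega) (by omega)
    split_ifs <;> omega

/-! ## The reduction -/

section red

variable {G : Type} [Group G] (g : Gate G) {m : ℕ} (e : G ≃ Fin m)

/-- The moduli of the clocks. -/
def psOf (n : ℕ) : List ℕ := 1 :: (List.range (tri n)).map (pk n)

/-- The instructions. -/
def LOf (Q : QF) : List (MI Kd) := insL (rowsOf (pk Q.1.length) Q.1) Q.2

/-- The number of registers. -/
noncomputable def MOf (Q : QF) : ℕ := MM (LOf Q).length (bX Q.1.length)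

/-- The initial registers. -/
noncomputable def startOf (Q : QF) : List ℕ :=
  (List.range (MOf Q)).map fun k =>
    if k = code (Reg.R false (true, false, false)) then (e g.c).val
    else if k ∈ (psOf Q.1.length).map (fun q => code (Reg.C false q 0)) then (e g.y).val
    else (e 1).val

/-- The reduction. -/
noncomputable def redQ (Q : QF) : Inst :=
  (mapC (unitP g QM (LOf Q) (psOf Q.1.length)), startOf g e Q, Nn (pk Q.1.length) Q.1.length,
    (e g.c).val)

theorem elt_val (a : G) : elt e (e a).val = a := by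
  unfold elt
  rw [dif_pos (e a).isLt]
  exact e.symm_apply_apply a

theorem psOf_mem {n q : ℕ} (h : q ∈ psOf n) : q = 1 ∨ ∃ k < tri n, q = pk n k := by
  unfold psOf at h
  rcases List.mem_cons.1 h with h | h
  · exact Or.inl h
  · obtain ⟨k, hk, rfl⟩ := List.mem_map.1 h
    exact Or.inr ⟨k, List.mem_range.1 hk, rfl⟩

theorem psOf_pos {n q : ℕ} (h : q ∈ psOf n) : 0 < q := by
  rcases psOf_mem h with rfl | ⟨k, hk, rfl⟩
  · omega
  · have := (pk_prime hk).2; omega

theorem psOf_le {n q : ℕ} (h : q ∈ psOf n) : q ≤ bX n := by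
  rcases psOf_mem h with rfl | ⟨k, hk, rfl⟩
  · unfold bX
    exact Nat.one_le_pow _ _ (by omega)
  · exact (mem_plist.1 (pk_mem hk)).1.le

theorem psOf_nodup (n : ℕ) : (psOf n).Nodup := by
  unfold psOf
  refine List.nodup_cons.2 ⟨?_, ?_⟩
  · intro h
    obtain ⟨k, hk, h1⟩ := List.mem_map.1 h
    have := (pk_prime (List.mem_range.1 hk)).2
    omega
  · refine List.Nodup.map_on ?_ List.nodup_range
    intro k hk k' hk' h
    exact p_inj (p := pk n) (n := n) (fun _ _ h h' => pk_lt h h') (List.mem_range.1 hk)
      (List.mem_range.1 hk') h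

theorem LOf_ok {Q : QF} (hwf : QFwf Q) : ∀ m ∈ LOf Q, m.2.1 ∈ psOf Q.1.length ∧ m.2.2.Nodup := by
  set n := Q.1.length with hn
  have hp : ∀ k < tri n, (pk n k).Prime ∧ 7 ≤ pk n k := fun k hk => pk_prime hk
  have hm : ∀ k k', k < k' → k' < tri n → pk n k < pk n k' := fun _ _ h h' => pk_lt h h'
  have h1 : ((1 : ℕ) ∈ psOf n) := by unfold psOf; simp
  have hmem : ∀ l < n, ∀ k ≤ l, pk n (tri l + k) ∈ psOf n := by
    intro l hl k hk
    unfold psOf
    refine List.mem_cons_of_mem _ (List.mem_map.2 ⟨tri l + k, List.mem_range.2 (tri_lt hk hl), rfl⟩)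
  have hrow : ∀ l < n, ∀ k ≤ l, (pk n (tri l + k)) ∈ psOf n ∧
      (res (Bw (pk n) n l) (pk n (tri l + k))).Nodup := fun l hl k hk =>
    ⟨hmem l hl k hk, res_nodup hp hm hl hk⟩
  intro m hmL
  unfold LOf insL at hmL
  rcases List.mem_append.1 hmL with h | h
  · obtain ⟨R, hR, h⟩ := List.mem_flatMap.1 h
    unfold rowsOf at hR
    obtain ⟨l, hl, rfl⟩ := List.mem_map.1 hR
    have hl := List.mem_range.1 hl
    unfold rowI rowOf at h
    rcases List.mem_cons.1 h with rfl | h
    · exact hrow l hl 0 (Nat.zero_le l)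
    · rcases List.mem_append.1 h with h | h
      · obtain ⟨q, hq, rfl⟩ := List.mem_map.1 h
        obtain ⟨k, hk, rfl⟩ := List.mem_map.1 hq
        have hk := List.mem_range.1 hk
        have := hrow l hl (k + 1) (by omega)
        rw [show tri l + (k + 1) = tri l + 1 + k by ring] at this
        exact this
      · simp only [List.mem_singleton] at h
        subst h
        exact ⟨h1, List.nodup_nil⟩
  · rcases List.mem_append.1 h with h | h
    · obtain ⟨c, hc, h⟩ := List.mem_flatMap.1 h
      unfold clI at h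
      rcases List.mem_cons.1 h with rfl | h
      · exact ⟨h1, List.nodup_nil⟩
      · rcases List.mem_append.1 h with h | h
        · obtain ⟨l, hl, rfl⟩ := List.mem_map.1 h
          have hv : l.2 < n := hwf c hc l hl
          have e1 : (rowsOf (pk n) Q.1).getD l.2 (true, 0, 1, []) = rowOf (pk n) Q.1 l.2 := by
            unfold rowsOf
            rw [List.getD_eq_getElem _ _ (by simpa using hv)]
            simp
          show ((rowsOf (pk n) Q.1).getD l.2 (true, 0, 1, [])).2.2.1 ∈ psOf n ∧
            (res ((rowsOf (pk n) Q.1).getD l.2 (true, 0, 1, [])).2.1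
              ((rowsOf (pk n) Q.1).getD l.2 (true, 0, 1, [])).2.2.1).Nodup
          rw [e1]
          exact hrow l.2 hv 0 (Nat.zero_le _)
        · simp only [List.mem_singleton] at h
          subst h
          exact ⟨h1, List.nodup_nil⟩
    · simp only [List.mem_singleton] at h
      subst h
      exact ⟨h1, List.nodup_nil⟩

theorem start_code (Q : QF) : toF ((startOf g e Q).map (elt e)) ∘ code =
    stf g (psOf Q.1.length) (true, false, false) fun _ => 0 := by
  funext a
  have hget : ∀ k < MOf Q, toF ((startOf g e Q).map (elt e)) k =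
      if k = code (Reg.R false (true, false, false)) then g.c
      else if k ∈ (psOf Q.1.length).map (fun q => code (Reg.C false q 0)) then g.y else 1 := by
    intro k hk
    unfold toF startOf
    rw [List.map_map, List.getD_eq_getElem _ _ (by simpa using hk)]
    simp only [List.getElem_map, List.getElem_range, Function.comp]
    split_ifs <;> exact elt_val e _
  have hout : ∀ k, MOf Q ≤ k → toF ((startOf g e Q).map (elt e)) k = 1 := by
    intro k hk
    unfold toF startOf
    rw [List.getD_eq_default]
    simpa using hk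
  show toF ((startOf g e Q).map (elt e)) (code a) = _
  have hR : code (Reg.R false (true, false, false)) < MOf Q :=
    code_lt (ps := psOf Q.1.length) (fun q hq => psOf_le hq) trivial
  have hC : ∀ q ∈ psOf Q.1.length, code (Reg.C false q 0) < MOf Q := fun q hq =>
    code_lt (ps := psOf Q.1.length) (fun q hq => psOf_le hq) ⟨hq, psOf_pos hq⟩
  have hval : toF ((startOf g e Q).map (elt e)) (code a) =
      if code a = code (Reg.R false (true, false, false)) then g.c
      else if code a ∈ (psOf Q.1.length).map (fun q => code (Reg.C false q 0)) then g.y else 1 := by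
    rcases Nat.lt_or_ge (code a) (MOf Q) with h | h
    · exact hget _ h
    · rw [hout _ h, if_neg (by omega), if_neg]
      intro h2
      obtain ⟨q, hq, h3⟩ := List.mem_map.1 h2
      have := hC q hq
      omega
  rw [hval]
  have hmem : ∀ a : RG, code a ∈ (psOf Q.1.length).map (fun q => code (Reg.C false q 0)) ↔
      ∃ q ∈ psOf Q.1.length, a = Reg.C false q 0 := by
    intro a
    rw [List.mem_map]
    constructor
    · rintro ⟨q, hq, h⟩
      exact ⟨q, hq, (code_inj h).symm⟩
    · rintro ⟨q, hq, rfl⟩
      exact ⟨q, hq, rfl⟩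
  have hnm : ∀ a : RG, (∀ q, a ≠ Reg.C false q 0) →
      ¬ code a ∈ (psOf Q.1.length).map (fun q => code (Reg.C false q 0)) := by
    intro a h h2
    obtain ⟨q, _, h3⟩ := (hmem a).1 h2
    exact h q h3
  match a with
  | Reg.R false r =>
    show _ = if r = (true, false, false) then g.c else 1
    by_cases h : r = (true, false, false)
    · rw [h, if_pos rfl, if_pos rfl]
    · rw [if_neg fun h2 => h (by injection code_inj h2), if_neg (hnm _ fun q h2 => by injection h2),
        if_neg h]
  | Reg.R true r =>
    show _ = (1 : G)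
    have h3 : ¬ code (Reg.R true r) = code (Reg.R false (true, false, false)) := by
      intro h2
      have h4 := code_inj h2
      injection h4 with h5
      cases h5
    rw [if_neg h3, if_neg (hnm _ fun q h2 => by injection h2)]
  | Reg.D i s =>
    show _ = (1 : G)
    rw [if_neg fun h2 => by injection code_inj h2, if_neg (hnm _ fun q h2 => by injection h2)]
  | Reg.C true q j =>
    show _ = (1 : G)
    rw [if_neg fun h2 => by injection code_inj h2,
      if_neg (hnm _ fun q h2 => by injection h2 with h3; cases h3)]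
  | Reg.C false q j =>
    show _ = if q ∈ psOf Q.1.length ∧ 0 % q = j then g.y else 1
    rw [if_neg fun h2 => by injection code_inj h2, Nat.zero_mod]
    by_cases h : q ∈ psOf Q.1.length ∧ 0 = j
    · rw [if_pos h, if_pos]
      rw [hmem]
      exact ⟨q, h.1, by rw [h.2]⟩
    · rw [if_neg h, if_neg]
      rw [hmem]
      rintro ⟨q', hq', h2⟩
      injection h2 with _ h3 h4
      exact h ⟨h3 ▸ hq', h4.symm⟩

/-- **Correctness of the reduction.** -/
theorem redQ_iff {Q : QF} (hwf : QFwf Q) :
    Hits e (redQ g e Q) ↔ evq Q.1 (fun v => evc v Q.2) = true := by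
  set n := Q.1.length with hn
  set P := unitP g QM (LOf Q) (psOf n) with hP
  set x0 := (startOf g e Q).map (elt e) with hx0
  have hlen : x0.length = MOf Q := by simp [hx0, startOf]
  have htgt : ∀ s ∈ mapC P, s.2.1 < x0.length := by
    intro s hs
    unfold mapC at hs
    obtain ⟨t, ht, rfl⟩ := List.mem_map.1 hs
    rw [hlen]
    exact code_lt (ps := psOf n) (fun q hq => psOf_le hq)
      (unitP_tgt g (LOf Q) (psOf n) (fun q hq => psOf_pos hq) t ht)
  have h1 := (toF_iterate (mapC P) x0 htgt (Nn (pk n) n)).1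
  have h2 := iterate_mapC P (toF x0) (Nn (pk n) n)
  rw [hx0, start_code] at h2
  rw [run_units g QM (fun q hq => psOf_pos hq) (psOf_nodup n) (LOf_ok hwf)
    (fun t r => fin_QM_invol _ _ t r)] at h2
  have h3 := foldl_fin (p := pk n) hwf (fun k hk => pk_prime hk) (fun _ _ h h' => pk_lt h h')
  have h4 : (List.range (Nn (pk n) n)).foldl (fun r t => fin QM (LOf Q) t r)
      ((true, false, false) : B3) = (true, evq Q.1 (fun u => evc u Q.2), false) := h3
  rw [h4] at h2
  have h5 : code (Reg.R false (true, true, false)) = 0 := by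
    simp [code, ib]
  have h6 : ((moves (mapC P))^[Nn (pk n) n] x0).getD 0 1 =
      if ((true, true, false) : B3) = (true, evq Q.1 (fun u => evc u Q.2), false) then g.c else 1 := by
    have h7 := congrFun h2 (Reg.R false (true, true, false))
    have h8 : ((run (mapC P))^[Nn (pk n) n] (toF x0) ∘ code) (Reg.R false (true, true, false)) =
        toF ((moves (mapC P))^[Nn (pk n) n] x0) 0 := by
      rw [h1]
      show ((run (mapC P))^[Nn (pk n) n] (toF x0)) (code (Reg.R false (true, true, false))) = _
      rw [h5]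
    rw [h8] at h7
    exact h7
  show ((moves (mapC P))^[Nn (pk n) n] x0).getD 0 1 = elt e (e g.c).val ↔ _
  rw [h6, elt_val]
  cases evq Q.1 (fun u => evc u Q.2) with
  | true => simp
  | false =>
    simp only [Prod.mk.injEq, reduceCtorEq, false_and, and_false, if_false, Bool.false_eq_true,
      iff_false]
    exact fun h => g.hc h.symm

end red

section poly

variable {G : Type} [Group G] (g : Gate G) {m : ℕ} (e : G ≃ Fin m)

theorem upoly_n : UPoly (fun Q : QF => Q.1.length) := UPoly.length (by fun_prop)

theorem poly_LOf : NPC.Poly LOf := poly_insL poly_rowsOf (by fun_prop)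

theorem poly_psOf : NPC.Poly (fun Q : QF => psOf Q.1.length) := by
  unfold psOf
  refine NPC.Poly.cons (NPC.Poly.const 1) ?_
  exact NPC.Poly.map (F := fun (Q : QF) k => pk Q.1.length k) (upoly_tri upoly_n).range
    (poly_pk (upoly_n.comp (NPC.Poly.fst NPC.Poly.id)) (NPC.Poly.snd NPC.Poly.id))

theorem upoly_MOf : UPoly MOf := by
  unfold MOf MM
  have h1 : UPoly (fun Q : QF => (LOf Q).length) := UPoly.length poly_LOf
  have h2 : UPoly (fun Q : QF => bX Q.1.length + 1) :=
    UPoly.add (upoly_bX upoly_n) (UPoly.const 1)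
  exact UPoly.add (UPoly.const 40) (UPoly.add (UPoly.mul (UPoly.const 5)
    (UPoly.mul (UPoly.add h1 (UPoly.const 1)) (UPoly.const KK)))
    (UPoly.mul (UPoly.const 5) (UPoly.mul h2 h2)))

theorem poly_startOf : NPC.Poly (fun Q : QF => startOf g e Q) := by
  unfold startOf
  have hps := poly_psOf
  have h1 : NPC.Poly (fun Q : QF => (psOf Q.1.length).map (fun q => code (Reg.C false q 0))) := by
    fun_prop
  refine NPC.Poly.map (F := fun (Q : QF) k =>
    if k = code (Reg.R false (true, false, false)) then (e g.c).val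
    else if k ∈ (psOf Q.1.length).map (fun q => code (Reg.C false q 0)) then (e g.y).val
    else (e 1).val) upoly_MOf.range ?_
  have h2 : NPC.Poly (fun p : QF × ℕ =>
    (psOf p.1.1.length).map (fun q => code (Reg.C false q 0))) := h1.comp (NPC.Poly.fst NPC.Poly.id)
  refine NPC.Poly.ite (by fun_prop) (by fun_prop) (NPC.Poly.ite ?_ (by fun_prop) (by fun_prop))
  exact NPC.Poly.dec_mem (NPC.Poly.snd NPC.Poly.id) h2

theorem poly_redQ : NPC.Poly (fun Q : QF => redQ g e Q) := by
  unfold redQ
  have h1 : NPC.Poly (fun Q : QF => unitP g QM (LOf Q) (psOf Q.1.length)) :=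
    poly_unitP g poly_LOf poly_psOf (upoly_bX upoly_n) fun Q q hq => psOf_le hq
  have h2 : NPC.Poly (fun Q : QF => mapC (unitP g QM (LOf Q) (psOf Q.1.length))) := by
    unfold mapC
    exact NPC.Poly.map (F := fun _ (s : Ins RG) => (s.1, code s.2.1, code s.2.2)) h1 (by fun_prop)
  exact NPC.Poly.pair h2 (NPC.Poly.pair (poly_startOf g e) (NPC.Poly.pair (poly_Nn upoly_n)
    (NPC.Poly.const _)))

include g in
theorem hits_hard_of_gate : PSPACEHard (lang (Hits e)) := by
  intro L hL
  obtain ⟨f, hf, hwf, hf'⟩ := qbf_hard hL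
  exact ⟨fun x => bits (redQ g e (f x)), polyTime_bits ((poly_redQ g e).comp hf), fun x => by
    rw [hf' x, bits_mem_lang, redQ_iff g e (hwf x)]⟩

end poly

/-- If the group is not nilpotent, the problem is hard for polynomial space. -/
theorem hits_hard_of_not_nilpotent {G : Type} [Group G] [Finite G] (h : ¬ Group.IsNilpotent G)
    {m : ℕ} (e : G ≃ Fin m) : PSPACEHard (lang (Hits e)) := by
  obtain ⟨g⟩ := exists_gate h
  exact hits_hard_of_gate g e

end Pool.Agent.V7H67.NM
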