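import Mathlib.GroupTheory.FreeGroup.Basic
import Pool.Agent.V7H67.NM.Defs

/-!
# Powers of endomorphisms of free groups, evaluated in a finite group
-/

namespace Pool.Agent.V7H67.NM

/-- The elementary substitution with data `(b, i, j, k)` and bound `n`: the endomorphism of the free
group on the generators `a_0, a_1, …` that sends `a_i` to `a_j a_k` (`b = false`) or to `a_j a_k⁻¹`
(`b = true`) and fixes the other generators. If one of the indices `i, j, k` is not below `n`, it
is the identity. -/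
def sub (n : ℕ) (s : Bool × ℕ × ℕ × ℕ) : FreeGroup ℕ →* FreeGroup ℕ :=
  FreeGroup.lift fun a =>
    if a = s.2.1 ∧ s.2.1 < n ∧ s.2.2.1 < n ∧ s.2.2.2 < n then
      FreeGroup.of s.2.2.1 * (if s.1 then (FreeGroup.of s.2.2.2)⁻¹ else FreeGroup.of s.2.2.2)
    else FreeGroup.of a

/-- The composition of a sequence of elementary substitutions; the last one is applied first. -/
def endo (n : ℕ) (P : List (Bool × ℕ × ℕ × ℕ)) : FreeGroup ℕ →* FreeGroup ℕ :=
  P.foldr (fun s f => (sub n s).comp f) (MonoidHom.id _)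

/-- Instances: a sequence of elementary substitutions, a tuple of (numbers of) group elements, a
time, and (the number of) a group element. -/
abbrev PInst := List (Bool × ℕ × ℕ × ℕ) × List ℕ × ℕ × ℕ

/-- The problem: let `φ` be the composition of the substitutions (with the length of the tuple as
the bound) and `t` the time; is the value of the word `φ ^ t (a_0)` at the tuple (with `1` at the
places behind its end) equal to the given group element? -/
def Value {G : Type} [Group G] {m : ℕ} (e : G ≃ Fin m) (I : PInst) : Prop :=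
  FreeGroup.lift (fun a => elt e (I.2.1.getD a m))
    ((endo I.2.1.length I.1)^[I.2.2.1] (FreeGroup.of 0)) = elt e I.2.2.2

/-- All substitutions of the instance are transvections `a_i ↦ a_i a_k` or `a_i ↦ a_i a_k⁻¹` with
`k ≠ i`. -/
def Transv (I : PInst) : Prop := ∀ s ∈ I.1, s.2.2.1 = s.2.1 ∧ s.2.2.2 ≠ s.2.1

section

variable {G : Type} [Group G]

/-- One assignment. -/
def asg (x : List G) (s : Bool × ℕ × ℕ × ℕ) : List G :=
  if s.2.1 < x.length ∧ s.2.2.1 < x.length ∧ s.2.2.2 < x.length then
    x.set s.2.1 (x.getD s.2.2.1 1 * (if s.1 then (x.getD s.2.2.2 1)⁻¹ else x.getD s.2.2.2 1))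
  else x

/-- A sequence of assignments. -/
def asgs (P : List (Bool × ℕ × ℕ × ℕ)) (x : List G) : List G := P.foldl asg x

theorem len_asg (x : List G) (s : Bool × ℕ × ℕ × ℕ) : (asg x s).length = x.length := by
  unfold asg
  split_ifs <;> simp

theorem len_asgs : ∀ (P : List (Bool × ℕ × ℕ × ℕ)) (x : List G), (asgs P x).length = x.length
  | [], _ => rfl
  | s :: P, x => (len_asgs P (asg x s)).trans (len_asg x s)

theorem len_asgs_iterate (P : List (Bool × ℕ × ℕ × ℕ)) (x : List G) : ∀ T : ℕ,
    ((asgs P)^[T] x).length = x.length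
  | 0 => rfl
  | T + 1 => by rw [Function.iterate_succ_apply', len_asgs, len_asgs_iterate P x T]

theorem getD_asg (x : List G) (s : Bool × ℕ × ℕ × ℕ) (a : ℕ) : (asg x s).getD a 1 =
    if a = s.2.1 ∧ s.2.1 < x.length ∧ s.2.2.1 < x.length ∧ s.2.2.2 < x.length then
      x.getD s.2.2.1 1 * (if s.1 then (x.getD s.2.2.2 1)⁻¹ else x.getD s.2.2.2 1)
    else x.getD a 1 := by
  unfold asg
  by_cases h : s.2.1 < x.length ∧ s.2.2.1 < x.length ∧ s.2.2.2 < x.length
  · rw [if_pos h]
    by_cases ha : a = s.2.1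
    · subst ha
      have hc : s.2.1 = s.2.1 ∧ s.2.1 < x.length ∧ s.2.2.1 < x.length ∧ s.2.2.2 < x.length :=
        ⟨rfl, h⟩
      conv_rhs => rw [if_pos hc]
      rw [List.getD_eq_getElem _ _ (by rw [List.length_set]; exact h.1), List.getElem_set_self]
    · have hc : ¬ (a = s.2.1 ∧ s.2.1 < x.length ∧ s.2.2.1 < x.length ∧ s.2.2.2 < x.length) :=
        fun h' => ha h'.1
      conv_rhs => rw [if_neg hc]
      rw [List.getD_eq_getElem?_getD, List.getElem?_set_ne (fun e => ha e.symm),
        List.getD_eq_getElem?_getD]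
  · rw [if_neg h, if_neg fun h' => h h'.2]

theorem lift_sub (x : List G) (s : Bool × ℕ × ℕ × ℕ) (w : FreeGroup ℕ) :
    FreeGroup.lift (fun a => x.getD a 1) (sub x.length s w) =
      FreeGroup.lift (fun a => (asg x s).getD a 1) w := by
  have h : (FreeGroup.lift (fun a => x.getD a 1)).comp (sub x.length s) =
      FreeGroup.lift (fun a => (asg x s).getD a 1) := by
    apply FreeGroup.ext_hom
    intro a
    rw [MonoidHom.comp_apply, FreeGroup.lift_apply_of, getD_asg]
    unfold sub
    rw [FreeGroup.lift_apply_of]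
    split_ifs <;> simp
  exact DFunLike.congr_fun h w

theorem lift_endo : ∀ (P : List (Bool × ℕ × ℕ × ℕ)) (x : List G) (w : FreeGroup ℕ),
    FreeGroup.lift (fun a => x.getD a 1) (endo x.length P w) =
      FreeGroup.lift (fun a => (asgs P x).getD a 1) w
  | [], _, _ => rfl
  | s :: P, x, w => by
    have h1 : endo x.length (s :: P) w = sub x.length s (endo x.length P w) := rfl
    rw [h1, lift_sub, ← len_asg x s, lift_endo P (asg x s) w]
    rfl

theorem lift_pow (P : List (Bool × ℕ × ℕ × ℕ)) (x : List G) : ∀ (T : ℕ) (w : FreeGroup ℕ),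
    FreeGroup.lift (fun a => x.getD a 1) ((endo x.length P)^[T] w) =
      FreeGroup.lift (fun a => ((asgs P)^[T] x).getD a 1) w
  | 0, _ => rfl
  | T + 1, w => by
    rw [Function.iterate_succ_apply, lift_pow P x T, ← len_asgs_iterate P x T, lift_endo,
      Function.iterate_succ_apply']

theorem value_iff {m : ℕ} (e : G ≃ Fin m) (I : PInst) : Value e I ↔
    ((asgs I.1)^[I.2.2.1] (I.2.1.map (elt e))).getD 0 1 = elt e I.2.2.2 := by
  unfold Value
  have h1 : (fun a => elt e (I.2.1.getD a m)) = fun a => (I.2.1.map (elt e)).getD a 1 := by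
    funext a
    rcases Nat.lt_or_ge a I.2.1.length with h | h
    · rw [List.getD_eq_getElem _ _ h, List.getD_eq_getElem _ _ (by simpa using h)]
      simp
    · rw [List.getD_eq_default _ _ h, List.getD_eq_default _ _ (by simpa using h)]
      unfold elt
      rw [dif_neg (lt_irrefl m)]
  have h2 : I.2.1.length = (I.2.1.map (elt e)).length := by simp
  rw [h1, h2, lift_pow, FreeGroup.lift_apply_of]

/-- The translation of moves. -/
def tr (P : List (Bool × ℕ × ℕ)) : List (Bool × ℕ × ℕ × ℕ) :=
  (P.filter fun s => !decide (s.2.1 = s.2.2)).map fun s => (s.1, s.2.1, s.2.1, s.2.2)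

theorem asg_tr (x : List G) (s : Bool × ℕ × ℕ) (h : s.2.1 ≠ s.2.2) :
    asg x (s.1, s.2.1, s.2.1, s.2.2) = move x s := by
  unfold asg move
  rw [if_neg h]
  simp only
  by_cases h1 : s.2.1 < x.length
  · by_cases h2 : s.2.2 < x.length
    · rw [if_pos ⟨h1, h1, h2⟩]
    · rw [if_neg fun h' => h2 h'.2.2]
      have h5 : x.getD s.2.2 1 = 1 := List.getD_eq_default _ _ (by omega)
      rw [h5, inv_one, ite_self, mul_one, List.getD_eq_getElem _ _ h1, List.set_getElem_self]
  · rw [if_neg fun h' => h1 h'.1, List.set_eq_of_length_le (by omega)]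

theorem asgs_tr : ∀ (P : List (Bool × ℕ × ℕ)) (x : List G), asgs (tr P) x = moves P x
  | [], _ => rfl
  | s :: P, x => by
    show asgs (tr (s :: P)) x = moves P (move x s)
    by_cases h : s.2.1 = s.2.2
    · have h1 : tr (s :: P) = tr P := by
        unfold tr
        rw [List.filter_cons_of_neg (by simpa using h)]
      have h2 : move x s = x := by
        unfold move
        rw [if_pos h]
      rw [h1, h2, asgs_tr P x]
    · have h1 : tr (s :: P) = (s.1, s.2.1, s.2.1, s.2.2) :: tr P := by
        unfold tr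
        rw [List.filter_cons_of_pos (by simpa using h), List.map_cons]
      rw [h1, ← asg_tr x s h]
      exact asgs_tr P _

theorem transv_tr (P : List (Bool × ℕ × ℕ)) : ∀ s ∈ tr P, s.2.2.1 = s.2.1 ∧ s.2.2.2 ≠ s.2.1 := by
  intro s hs
  unfold tr at hs
  obtain ⟨t, ht, rfl⟩ := List.mem_map.1 hs
  have h := (List.mem_filter.1 ht).2
  refine ⟨rfl, ?_⟩
  intro h'
  simp only [Bool.not_eq_true', decide_eq_false_iff_not] at h
  exact h h'.symm

theorem value_tr {m : ℕ} (e : G ≃ Fin m) (I : Inst) :
    Value e (tr I.1, I.2.1, I.2.2.1, I.2.2.2) ↔ Hits e I := by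
  rw [value_iff]
  show ((asgs (tr I.1))^[I.2.2.1] (I.2.1.map (elt e))).getD 0 1 = elt e I.2.2.2 ↔ _
  have h : (asgs (tr I.1) : List G → List G) = moves I.1 := funext fun x => asgs_tr I.1 x
  rw [h]
  rfl

end

/-- Transvections are bijective. -/
theorem sub_bijective (n : ℕ) (s : Bool × ℕ × ℕ × ℕ) (h : s.2.2.1 = s.2.1 ∧ s.2.2.2 ≠ s.2.1) :
    Function.Bijective (sub n s) := by
  have key : ∀ (b : Bool) (w : FreeGroup ℕ),
      sub n (b, s.2.1, s.2.1, s.2.2.2) (sub n (!b, s.2.1, s.2.1, s.2.2.2) w) = w := by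
    intro b w
    have h1 : (sub n (b, s.2.1, s.2.1, s.2.2.2)).comp (sub n (!b, s.2.1, s.2.1, s.2.2.2)) =
        MonoidHom.id (FreeGroup ℕ) := by
      apply FreeGroup.ext_hom
      intro a
      rw [MonoidHom.comp_apply, MonoidHom.id_apply]
      have e1 : ∀ c : Bool, sub n (c, s.2.1, s.2.1, s.2.2.2) (FreeGroup.of s.2.2.2) =
          FreeGroup.of s.2.2.2 := by
        intro c
        unfold sub
        rw [FreeGroup.lift_apply_of, if_neg fun h' => h.2 h'.1]
      have e2 : ∀ c : Bool, sub n (c, s.2.1, s.2.1, s.2.2.2) (FreeGroup.of a) =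
          if a = s.2.1 ∧ s.2.1 < n ∧ s.2.1 < n ∧ s.2.2.2 < n then
            FreeGroup.of s.2.1 * (if c then (FreeGroup.of s.2.2.2)⁻¹ else FreeGroup.of s.2.2.2)
          else FreeGroup.of a := by
        intro c
        unfold sub
        rw [FreeGroup.lift_apply_of]
      rw [e2]
      by_cases ha : a = s.2.1 ∧ s.2.1 < n ∧ s.2.1 < n ∧ s.2.2.2 < n
      · rw [if_pos ha]
        have e3 := e2 b
        rw [if_pos ha, ha.1] at e3
        rw [map_mul, e3, ha.1]
        cases b <;> simp [e1]
      · rw [if_neg ha, e2, if_neg ha]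
    exact DFunLike.congr_fun h1 w
  obtain ⟨b, i, j, k⟩ := s
  simp only at h key
  obtain ⟨rfl, _⟩ := h
  refine Function.bijective_iff_has_inverse.2 ⟨sub n (!b, j, j, k), fun w => ?_, fun w => ?_⟩
  · have := key (!b) w
    rwa [Bool.not_not] at this
  · exact key b w

theorem endo_bijective (n : ℕ) : ∀ P : List (Bool × ℕ × ℕ × ℕ),
    (∀ s ∈ P, s.2.2.1 = s.2.1 ∧ s.2.2.2 ≠ s.2.1) → Function.Bijective (endo n P)
  | [], _ => Function.bijective_id
  | s :: P, h => by
    have h1 : (endo n (s :: P) : FreeGroup ℕ → FreeGroup ℕ) = sub n s ∘ endo n P := rfl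
    rw [h1]
    exact (sub_bijective n s (h s (by simp))).comp (endo_bijective n P fun t ht => h t (by simp [ht]))

end Pool.Agent.V7H67.NM
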