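import Pool.Agent.V7H67.NM.Prog
import Pool.Agent.V7H67.NM.Sub
import Pool.Agent.NPC.Num

/-!
# Products of augmented group elements evolve linearly
-/

namespace Pool.Agent.V7H67.NM

set_option linter.unusedSectionVars false

/-- Signed letters. -/
abbrev Lt := Bool × ℕ

/-- Signed letters with index at most `N`. -/
def lt (N : ℕ) : List Lt := ([false, true] : List Bool) ×ˢ List.range (N + 1)

theorem mem_lt {N : ℕ} {l : Lt} : l ∈ lt N ↔ l.2 < N + 1 := by
  unfold lt
  obtain ⟨b, i⟩ := l
  rw [List.mem_product, List.mem_range]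
  simp

theorem nodup_lt (N : ℕ) : (lt N).Nodup := List.Nodup.product (by decide) List.nodup_range

/-- Words of length at most `k`. -/
def wk (Ls : List Lt) : ℕ → List (List Lt)
  | 0 => [[]]
  | k + 1 => [] :: Ls.flatMap fun l => (wk Ls k).map fun w => l :: w

theorem mem_wk {Ls : List Lt} : ∀ {k : ℕ} {w : List Lt},
    w ∈ wk Ls k ↔ w.length ≤ k ∧ ∀ l ∈ w, l ∈ Ls
  | 0, w => by
    rw [wk, List.mem_singleton]
    constructor
    · rintro rfl; simp
    · rintro ⟨h, _⟩
      exact List.length_eq_zero_iff.1 (by omega)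
  | k + 1, w => by
    rw [wk, List.mem_cons, List.mem_flatMap]
    constructor
    · rintro (rfl | ⟨l, hl, h⟩)
      · simp
      · obtain ⟨w', hw', rfl⟩ := List.mem_map.1 h
        obtain ⟨h1, h2⟩ := mem_wk.1 hw'
        refine ⟨by simpa using h1, ?_⟩
        intro l' hl'
        rcases List.mem_cons.1 hl' with rfl | hl'
        · exact hl
        · exact h2 l' hl'
    · rintro ⟨h1, h2⟩
      cases w with
      | nil => exact Or.inl rfl
      | cons l w =>
        right
        refine ⟨l, h2 l (by simp), List.mem_map.2 ⟨w, ?_, rfl⟩⟩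
        exact mem_wk.2 ⟨by simpa using h1, fun l' hl' => h2 l' (by simp [hl'])⟩

theorem nodup_wk {Ls : List Lt} (h : Ls.Nodup) : ∀ k, (wk Ls k).Nodup
  | 0 => by simp [wk]
  | k + 1 => by
    rw [wk, List.nodup_cons]
    constructor
    · intro hc
      obtain ⟨l, _, h1⟩ := List.mem_flatMap.1 hc
      obtain ⟨w, _, h2⟩ := List.mem_map.1 h1
      cases h2
    · rw [List.nodup_flatMap]
      refine ⟨fun l _ => (nodup_wk h k).map fun a b hab => by injection hab, ?_⟩
      refine List.Pairwise.imp ?_ h
      intro a b hab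
      simp only [Function.onFun]
      intro w hw hw'
      obtain ⟨u, _, hu⟩ := List.mem_map.1 hw
      obtain ⟨u', _, hu'⟩ := List.mem_map.1 hw'
      rw [← hu'] at hu
      injection hu with h1 _
      exact hab h1

/-- The words that arise from a letter. -/
def sb (N : ℕ) (s : Bool × ℕ × ℕ × ℕ) (l : Lt) : List (List Lt) :=
  if l.2 = s.2.1 ∧ s.2.1 < N ∧ s.2.2.1 < N ∧ s.2.2.2 < N then
    if l.1 = true then
      [[(!s.1, s.2.2.2)], [(true, s.2.2.1)], [(!s.1, s.2.2.2), (true, s.2.2.1)]]
    else [[(false, s.2.2.1)], [(s.1, s.2.2.2)], [(false, s.2.2.1), (s.1, s.2.2.2)]]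
  else [[l]]

/-- The words that arise from a word. -/
def xp (N : ℕ) (s : Bool × ℕ × ℕ × ℕ) : List Lt → List (List Lt)
  | [] => [[]]
  | l :: v => (sb N s l).flatMap fun a => (xp N s v).map fun b => a ++ b

theorem sb_letters {N : ℕ} {s : Bool × ℕ × ℕ × ℕ} {l : Lt} (hl : l.2 < N + 1) :
    ∀ a ∈ sb N s l, ∀ l' ∈ a, l'.2 < N + 1 := by
  intro a ha l' hl'
  unfold sb at ha
  split_ifs at ha with h1 h2
  · obtain ⟨_, h3, h4, h5⟩ := h1
    simp only [List.mem_cons, List.not_mem_nil, or_false] at ha
    rcases ha with rfl | rfl | rfl <;> simp only [List.mem_cons, List.not_mem_nil, or_false] at hl'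
    · subst hl'; show s.2.2.2 < N + 1; omega
    · subst hl'; show s.2.2.1 < N + 1; omega
    · rcases hl' with rfl | rfl
      · show s.2.2.2 < N + 1; omega
      · show s.2.2.1 < N + 1; omega
  · obtain ⟨_, h3, h4, h5⟩ := h1
    simp only [List.mem_cons, List.not_mem_nil, or_false] at ha
    rcases ha with rfl | rfl | rfl <;> simp only [List.mem_cons, List.not_mem_nil, or_false] at hl'
    · subst hl'; show s.2.2.1 < N + 1; omega
    · subst hl'; show s.2.2.2 < N + 1; omega
    · rcases hl' with rfl | rfl
      · show s.2.2.1 < N + 1; omega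
      · show s.2.2.2 < N + 1; omega
  · simp only [List.mem_singleton] at ha
    subst ha
    simp only [List.mem_singleton] at hl'
    subst hl'
    exact hl

theorem xp_letters {N : ℕ} {s : Bool × ℕ × ℕ × ℕ} : ∀ (v : List Lt), (∀ l ∈ v, l.2 < N + 1) →
    ∀ a ∈ xp N s v, ∀ l' ∈ a, l'.2 < N + 1
  | [], _, a, ha, l', hl' => by
    simp only [xp, List.mem_singleton] at ha
    subst ha
    simp at hl'
  | l :: v, h, a, ha, l', hl' => by
    simp only [xp, List.mem_flatMap, List.mem_map] at ha
    obtain ⟨a1, ha1, a2, ha2, rfl⟩ := ha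
    rcases List.mem_append.1 hl' with hl' | hl'
    · exact sb_letters (h l (by simp)) a1 ha1 l' hl'
    · exact xp_letters v (fun l hl => h l (by simp [hl])) a2 ha2 l' hl'

section

variable {G : Type} [Group G] {R : Type} [Ring R] (rr : G →* R)

/-- The augmented value of a letter. -/
def AA (x : ℕ → G) (l : Lt) : R := rr (lv x l) - 1

/-- The product of the augmented values. -/
def EE (x : ℕ → G) (v : List Lt) : R := (v.map (AA rr x)).prod

theorem EE_append (x : ℕ → G) (a b : List Lt) : EE rr x (a ++ b) = EE rr x a * EE rr x b := by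
  simp [EE]

theorem AA_move (x : List G) (s : Bool × ℕ × ℕ × ℕ) (l : Lt) :
    AA rr (fun k => (asg x s).getD k 1) l =
      ((sb x.length s l).map (EE rr fun k => x.getD k 1)).sum := by
  have h := getD_asg x s l.2
  by_cases hc : l.2 = s.2.1 ∧ s.2.1 < x.length ∧ s.2.2.1 < x.length ∧ s.2.2.2 < x.length
  · rw [if_pos hc] at h
    unfold sb
    rw [if_pos hc]
    set y := lv (fun k => x.getD k 1) (s.1, s.2.2.2) with hy
    have hy2 : lv (fun k => x.getD k 1) (!s.1, s.2.2.2) = y⁻¹ := by
      rw [hy]
      unfold lv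
      cases s.1 <;> simp
    have hy3 : (if s.1 = true then (x.getD s.2.2.2 1)⁻¹ else x.getD s.2.2.2 1) = y := rfl
    rw [hy3] at h
    by_cases hl : l.1 = true
    · rw [if_pos hl]
      simp only [EE, List.map_cons, List.map_nil, List.sum_cons, List.sum_nil, List.prod_cons,
        List.prod_nil, mul_one, add_zero]
      unfold AA
      rw [hy2]
      have e1 : lv (fun k => (asg x s).getD k 1) l =
          y⁻¹ * lv (fun k => x.getD k 1) (true, s.2.2.1) := by
        unfold lv
        rw [hl, if_pos rfl, if_pos rfl]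
        simp only [h, mul_inv_rev]
      rw [e1, map_mul]
      noncomm_ring
    · rw [if_neg hl]
      simp only [EE, List.map_cons, List.map_nil, List.sum_cons, List.sum_nil, List.prod_cons,
        List.prod_nil, mul_one, add_zero]
      unfold AA
      rw [← hy]
      have e1 : lv (fun k => (asg x s).getD k 1) l =
          lv (fun k => x.getD k 1) (false, s.2.2.1) * y := by
        unfold lv
        rw [if_neg hl, if_neg (by simp)]
        exact h
      rw [e1, map_mul]
      noncomm_ring
  · rw [if_neg hc] at h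
    unfold sb
    rw [if_neg hc]
    simp only [EE, List.map_cons, List.map_nil, List.sum_cons, List.sum_nil, List.prod_cons,
      List.prod_nil, mul_one, add_zero]
    unfold AA lv
    simp only [h]

theorem sum_flatMap_mul (x : ℕ → G) (M : List (List Lt)) : ∀ (L : List (List Lt)),
    ((L.flatMap fun a => M.map fun b => a ++ b).map (EE rr x)).sum =
      (L.map (EE rr x)).sum * (M.map (EE rr x)).sum
  | [] => by simp
  | a :: L => by
    have e : ((M.map fun b => a ++ b).map (EE rr x)).sum = EE rr x a * (M.map (EE rr x)).sum := by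
      rw [List.map_map, ← List.sum_map_mul_left]
      congr 1
      apply List.map_congr_left
      intro b _
      exact EE_append rr x a b
    rw [List.flatMap_cons, List.map_append, List.sum_append, e, sum_flatMap_mul x M L,
      List.map_cons, List.sum_cons, add_mul]

theorem EE_move (x : List G) (s : Bool × ℕ × ℕ × ℕ) : ∀ v : List Lt,
    EE rr (fun k => (asg x s).getD k 1) v =
      ((xp x.length s v).map (EE rr fun k => x.getD k 1)).sum
  | [] => by simp [EE, xp]
  | l :: v => by
    rw [xp, sum_flatMap_mul, ← AA_move, ← EE_move x s v]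
    simp [EE]

end

/-! ## Matrices -/

section mats

variable (p : ℕ)

/-- Entries. -/
def ent (A : List (List ℕ)) (i j : ℕ) : ℕ := (A.getD i []).getD j 0

/-- Matrices from functions. -/
def mat (D : ℕ) (f : ℕ → ℕ → ℕ) : List (List ℕ) :=
  (List.range D).map fun i => (List.range D).map fun j => f i j % p

theorem ent_mat {D : ℕ} {f : ℕ → ℕ → ℕ} {i j : ℕ} (hi : i < D) (hj : j < D) :
    ent (mat p D f) i j = f i j % p := by
  have h1 : (mat p D f).getD i [] = (List.range D).map fun j => f i j % p := by
    unfold mat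
    rw [List.getD_eq_getElem _ _ (by simpa using hi)]
    simp
  unfold ent
  rw [h1, List.getD_eq_getElem _ _ (by simpa using hj)]
  simp

/-- The matrix over the field. -/
def toM (D : ℕ) (A : List (List ℕ)) : Matrix (Fin D) (Fin D) (ZMod p) :=
  fun i j => ((ent A i j : ℕ) : ZMod p)

theorem toM_mat (D : ℕ) (f : ℕ → ℕ → ℕ) :
    toM p D (mat p D f) = fun i j : Fin D => ((f i j : ℕ) : ZMod p) := by
  funext i j
  unfold toM
  rw [ent_mat p i.2 j.2, ZMod.natCast_mod]

/-- Multiplication. -/
def mulL (D : ℕ) (A B : List (List ℕ)) : List (List ℕ) :=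
  mat p D fun i j => ((List.range D).map fun k => ent A i k * ent B k j).sum

theorem toM_mulL (D : ℕ) (A B : List (List ℕ)) :
    toM p D (mulL p D A B) = toM p D A * toM p D B := by
  unfold mulL
  rw [toM_mat]
  funext i j
  rw [Matrix.mul_apply]
  have key : ∀ (n : ℕ) (f : ℕ → ℕ), ((((List.range n).map f).sum : ℕ) : ZMod p) =
      ∑ k ∈ Finset.range n, ((f k : ℕ) : ZMod p) := by
    intro n f
    induction n with
    | zero => simp
    | succ n ih =>
      rw [List.range_succ, List.map_append, List.sum_append, Finset.sum_range_succ, Nat.cast_add, ih]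
      simp
  rw [key, Finset.sum_range]
  refine Finset.sum_congr rfl fun k _ => ?_
  rw [Nat.cast_mul]
  rfl

/-- The unit matrix. -/
def idL (D : ℕ) : List (List ℕ) := mat p D fun i j => if i = j then 1 else 0

theorem toM_idL (D : ℕ) : toM p D (idL p D) = 1 := by
  unfold idL
  rw [toM_mat]
  funext i j
  rw [Matrix.one_apply]
  by_cases h : i = j
  · subst h; simp
  · rw [if_neg h, if_neg fun e => h (Fin.ext e)]
    simp

/-- The matrix of a move. -/
def instrL (N : ℕ) (Ws : List (List Lt)) (s : Bool × ℕ × ℕ × ℕ) : List (List ℕ) :=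
  mat p Ws.length fun i j => (xp N s (Ws.getD i [])).count (Ws.getD j [])

/-- The matrix of a sequence of moves. -/
def progL (N : ℕ) (Ws : List (List Lt)) (P : List (Bool × ℕ × ℕ × ℕ)) : List (List ℕ) :=
  P.foldl (fun A s => mulL p Ws.length (instrL p N Ws s) A) (idL p Ws.length)

/-- Powers. -/
def powL (D : ℕ) (A : List (List ℕ)) (l : List Bool) : List (List ℕ) :=
  l.foldr (fun b B => if b = true then mulL p D (mulL p D B B) A else mulL p D B B) (idL p D)

theorem toM_powL (D : ℕ) (A : List (List ℕ)) : ∀ l : List Bool,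
    toM p D (powL p D A l) = toM p D A ^ (Pool.Agent.NPC.valB l)
  | [] => by
    show toM p D (idL p D) = toM p D A ^ 0
    rw [toM_idL, pow_zero]
  | b :: l => by
    have ih := toM_powL D A l
    show toM p D (if b = true then mulL p D (mulL p D (powL p D A l) (powL p D A l)) A
      else mulL p D (powL p D A l) (powL p D A l)) = _
    cases b with
    | false =>
      rw [if_neg (by simp), toM_mulL, ih, ← pow_add]
      congr 1
      simp [Pool.Agent.NPC.valB]
      omega
    | true =>
      rw [if_pos rfl, toM_mulL, toM_mulL, ih, ← pow_add, ← pow_succ]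
      congr 1
      simp [Pool.Agent.NPC.valB]
      omega

end mats

section act

variable {G : Type} [Group G] {R : Type} [Ring R] (rr : G →* R) {p : ℕ} [Fact p.Prime]
  [Algebra (ZMod p) R]

/-- The action of a matrix on vectors over the ring. -/
def act' {D : ℕ} (M : Matrix (Fin D) (Fin D) (ZMod p)) (v : Fin D → R) : Fin D → R :=
  fun i => ∑ j, M i j • v j

theorem act'_mul {D : ℕ} (M N : Matrix (Fin D) (Fin D) (ZMod p)) (v : Fin D → R) :
    act' (M * N) v = act' M (act' N v) := by
  funext i
  unfold act'
  simp only [Matrix.mul_apply, Finset.sum_smul, Finset.smul_sum, smul_smul]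
  exact Finset.sum_comm

theorem act'_one {D : ℕ} (v : Fin D → R) : act' (1 : Matrix (Fin D) (Fin D) (ZMod p)) v = v := by
  funext i
  unfold act'
  simp [Matrix.one_apply]

/-- The vector of all products. -/
def EV (Ws : List (List Lt)) (x : List G) : Fin Ws.length → R :=
  fun i => EE rr (fun k => x.getD k 1) Ws[i]

theorem sum_count (Ws : List (List Lt)) (hW : Ws.Nodup) (f : List Lt → R) :
    ∀ L : List (List Lt), (∀ u ∈ L, u ∈ Ws ∨ f u = 0) →
      (L.map f).sum = (Ws.map fun w => ((L.count w : ℕ) : ZMod p) • f w).sum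
  | [], _ => by simp
  | u :: L, h => by
    have ih := sum_count Ws hW f L fun v hv => h v (by simp [hv])
    have e1 : (Ws.map fun w => (((u :: L).count w : ℕ) : ZMod p) • f w) =
        Ws.map fun w => ((L.count w : ℕ) : ZMod p) • f w + (if u = w then f w else 0) := by
      apply List.map_congr_left
      intro w _
      rw [List.count_cons]
      by_cases e : u = w
      · subst e; simp [add_smul]
      · simp [e]
    have e2 : (Ws.map fun w => if u = w then f w else 0).sum = f u := by
      have key : ∀ Ws : List (List Lt), Ws.Nodup →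
          (Ws.map fun w => if u = w then f w else 0).sum = if u ∈ Ws then f u else 0 := by
        intro Ws
        induction Ws with
        | nil => intro _; simp
        | cons w Ws ih =>
          intro hn
          have hn2 := List.nodup_cons.1 hn
          rw [List.map_cons, List.sum_cons, ih hn2.2]
          by_cases e : u = w
          · subst e
            rw [if_pos rfl, if_neg hn2.1, if_pos (by simp), add_zero]
          · rw [if_neg e, zero_add]
            simp [e]
      rw [key Ws hW]
      rcases h u (by simp) with h1 | h1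
      · rw [if_pos h1]
      · rw [h1, ite_self]
    rw [e1, List.sum_map_add, e2, ← ih, List.map_cons, List.sum_cons, add_comm]

variable {m : ℕ} (hnil : ∀ l : List G, m ≤ l.length → (l.map fun h => rr h - 1).prod = 0)

include hnil

theorem EE_zero (x : ℕ → G) (v : List Lt) (h : m ≤ v.length) : EE rr x v = 0 := by
  have := hnil (v.map (lv x)) (by simpa using h)
  rw [List.map_map] at this
  exact this

theorem EV_move {N : ℕ} (x : List G) (hx : x.length = N) (s : Bool × ℕ × ℕ × ℕ) :
    EV rr (wk (lt N) m) (asg x s) =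
      act' (toM p _ (instrL p N (wk (lt N) m) s)) (EV rr (wk (lt N) m) x) := by
  subst hx
  set Ws := wk (lt x.length) m with hWs
  have hnd : Ws.Nodup := nodup_wk (nodup_lt _) _
  funext i
  show EE rr (fun k => (asg x s).getD k 1) Ws[i] = _
  rw [EE_move, sum_count (p := p) Ws hnd]
  · unfold act' instrL EV
    rw [toM_mat, ← Fin.sum_univ_fun_getElem]
    refine Finset.sum_congr rfl fun j _ => ?_
    simp only
    rw [List.getD_eq_getElem _ _ i.2, List.getD_eq_getElem _ _ j.2]
    rfl
  · intro u hu
    by_cases h : m ≤ u.length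
    · exact Or.inr (EE_zero rr hnil _ u h)
    · left
      rw [hWs, mem_wk]
      refine ⟨by omega, ?_⟩
      intro l hl
      rw [mem_lt]
      refine xp_letters Ws[i] ?_ u hu l hl
      intro l' hl'
      have h1 : Ws[i] ∈ Ws := List.getElem_mem _
      exact mem_lt.1 ((mem_wk.1 h1).2 l' hl')

theorem EV_foldl {N : ℕ} (E0 : Fin (wk (lt N) m).length → R) : ∀ (P : List (Bool × ℕ × ℕ × ℕ))
    (A : List (List ℕ)) (x : List G), x.length = N → EV rr (wk (lt N) m) x = act' (toM p _ A) E0 →
    EV rr (wk (lt N) m) (asgs P x) = act' (toM p _ (P.foldl (fun A s =>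
      mulL p (wk (lt N) m).length (instrL p N (wk (lt N) m) s) A) A)) E0
  | [], _, _, _, h => h
  | s :: P, A, x, hx, h => by
    have hl : (asg x s).length = N := (len_asg x s).trans hx
    refine EV_foldl E0 P (mulL p _ (instrL p N (wk (lt N) m) s) A) (asg x s) hl ?_
    rw [EV_move (p := p) rr hnil x hx s, h, toM_mulL, act'_mul]

theorem EV_moves {N : ℕ} (P : List (Bool × ℕ × ℕ × ℕ)) (x : List G) (hx : x.length = N) :
    EV rr (wk (lt N) m) (asgs P x) =
      act' (toM p _ (progL p N (wk (lt N) m) P)) (EV rr (wk (lt N) m) x) := by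
  refine EV_foldl rr hnil _ P _ x hx ?_
  rw [toM_idL, act'_one]

theorem EV_iterate {N : ℕ} (P : List (Bool × ℕ × ℕ × ℕ)) (x : List G) (hx : x.length = N) :
    ∀ T : ℕ, EV rr (wk (lt N) m) ((asgs P)^[T] x) =
      act' (toM p _ (progL p N (wk (lt N) m) P) ^ T) (EV rr (wk (lt N) m) x) ∧
      ((asgs P)^[T] x).length = N
  | 0 => ⟨by rw [pow_zero, act'_one]; rfl, hx⟩
  | T + 1 => by
    obtain ⟨h1, h2⟩ := EV_iterate P x hx T
    rw [Function.iterate_succ_apply']
    have hl : ∀ (P : List (Bool × ℕ × ℕ × ℕ)) (x : List G), (asgs P x).length = x.length :=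
      len_asgs
    refine ⟨?_, by rw [hl, h2]⟩
    rw [EV_moves (p := p) rr hnil P _ h2, h1, pow_succ', act'_mul]

end act

/-- The coefficients of the first entry. -/
def cf (Ws : List (List Lt)) (A : List (List ℕ)) (j : ℕ) : ℕ :=
  ((List.range Ws.length).map fun i => if Ws.getD i [] = [(false, 0)] then ent A i j else 0).sum

/-- The value of the first entry. -/
def vl {G : Type} [Group G] {R : Type} [Ring R] (rr : G →* R) (Ws : List (List Lt))
    (A : List (List ℕ)) (x : List G) : R :=
  ((List.range Ws.length).map fun j =>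
    cf Ws A j • EE rr (fun k => x.getD k 1) (Ws.getD j [])).sum

theorem sum_range_one (w : List Lt) (f : ℕ → ℕ) : ∀ (Ws : List (List Lt)) (i0 : ℕ), Ws.Nodup →
    i0 < Ws.length → Ws.getD i0 [] = w →
    ((List.range Ws.length).map fun i => if Ws.getD i [] = w then f i else 0).sum = f i0 := by
  intro Ws i0 hW hi0 hw
  have key : ∀ n ≤ Ws.length, ((List.range n).map fun i => if Ws.getD i [] = w then f i else 0).sum =
      if i0 < n then f i0 else 0 := by
    intro n
    induction n with
    | zero => intro _; simp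
    | succ n ih =>
      intro hn
      rw [List.range_succ, List.map_append, List.sum_append, ih (by omega)]
      simp only [List.map_cons, List.map_nil, List.sum_cons, List.sum_nil, add_zero]
      by_cases h : n = i0
      · subst h
        rw [if_neg (lt_irrefl _), if_pos hw, if_pos (Nat.lt_succ_self _), zero_add]
      · have h1 : Ws.getD n [] ≠ w := by
          intro e
          apply h
          rw [← hw, List.getD_eq_getElem _ _ (by omega), List.getD_eq_getElem _ _ hi0] at e
          exact (List.Nodup.getElem_inj_iff hW).1 e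
        rw [if_neg h1, add_zero]
        by_cases h2 : i0 < n
        · rw [if_pos h2, if_pos (by omega)]
        · rw [if_neg h2, if_neg (by omega)]
  rw [key _ le_rfl, if_pos hi0]

theorem vl_eq {G : Type} [Group G] {R : Type} [Ring R] (rr : G →* R) {p : ℕ} [Fact p.Prime]
    [Algebra (ZMod p) R] {m : ℕ}
    (hnil : ∀ l : List G, m + 1 ≤ l.length → (l.map fun h => rr h - 1).prod = 0)
    (P : List (Bool × ℕ × ℕ × ℕ)) (x : List G) (T : ℕ) :
    vl rr (wk (lt x.length) (m + 1)) (powL p (wk (lt x.length) (m + 1)).length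
      (progL p x.length (wk (lt x.length) (m + 1)) P) T.bits) x =
      rr (((asgs P)^[T] x).getD 0 1) - 1 := by
  set Ws := wk (lt x.length) (m + 1) with hWs
  set A := powL p Ws.length (progL p x.length Ws P) T.bits with hA
  have hnd : Ws.Nodup := nodup_wk (nodup_lt _) _
  have hmem : ([(false, 0)] : List Lt) ∈ Ws := by
    rw [hWs, mem_wk]
    refine ⟨by simp, ?_⟩
    intro l hl
    simp only [List.mem_singleton] at hl
    subst hl
    rw [mem_lt]
    exact Nat.succ_pos _
  obtain ⟨i0, hi0, hi⟩ := List.mem_iff_getElem.1 hmem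
  have h1 := congrFun (EV_iterate (p := p) rr hnil P x rfl T).1 ⟨i0, hi0⟩
  have h2 : EV rr Ws ((asgs P)^[T] x) ⟨i0, hi0⟩ = rr (((asgs P)^[T] x).getD 0 1) - 1 := by
    show EE rr (fun k => ((asgs P)^[T] x).getD k 1) Ws[i0] = _
    rw [hi]
    simp [EE, AA, lv]
  rw [← h2]
  refine Eq.trans ?_ h1.symm
  have h3 : toM p Ws.length A = toM p Ws.length (progL p x.length Ws P) ^ T := by
    rw [hA, toM_powL, Pool.Agent.NPC.valB_bits]
  rw [← h3]
  show vl rr Ws A x = ∑ j, toM p Ws.length A ⟨i0, hi0⟩ j • EV rr Ws x j
  have key : ∀ (n : ℕ) (f : ℕ → R), ((List.range n).map f).sum = ∑ k ∈ Finset.range n, f k := by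
    intro n f
    induction n with
    | zero => simp
    | succ n ih =>
      rw [List.range_succ, List.map_append, List.sum_append, Finset.sum_range_succ, ih]
      simp
  unfold vl
  rw [key, Finset.sum_range]
  refine Finset.sum_congr rfl fun j _ => ?_
  have h4 : cf Ws A j = ent A i0 j := by
    unfold cf
    exact sum_range_one _ (fun i => ent A i j) Ws i0 hnd hi0 (by
      rw [List.getD_eq_getElem _ _ hi0, hi])
  rw [h4]
  have h5 : Ws.getD j [] = Ws[j] := List.getD_eq_getElem _ _ j.2
  rw [h5]
  show ent A i0 j • EE rr (fun k => x.getD k 1) Ws[j] =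
    ((ent A i0 j : ℕ) : ZMod p) • EE rr (fun k => x.getD k 1) Ws[j]
  rw [Nat.cast_smul_eq_nsmul]

end Pool.Agent.V7H67.NM
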