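import Pool.Agent.V7H67.NM.Auto

/-!
# The program of one unit of time
-/

namespace Pool.Agent.V7H67.NM

set_option linter.unusedSectionVars false

open Reg

variable {G : Type*} [Group G]
variable {S Kd B : Type} [Fintype S] [DecidableEq S] [Fintype B] [DecidableEq B]
variable (g : Gate G) (A : Mach S Kd B)

/-- The first tokens. -/
noncomputable def initP (b : Bool) : List (Ins (Reg S B)) :=
  (allL B).flatMap fun r => mulP (D 0 (A.β r)) [(false, R b r)]

/-- The computation of all tokens. -/
noncomputable def cmp (b : Bool) (L : List (MI Kd)) : List (Ins (Reg S B)) :=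
  initP A b ++ steps g A 0 L

/-- The output of the last tokens. -/
noncomputable def outP (b sgn : Bool) (M : ℕ) : List (Ins (Reg S B)) :=
  (allL S).flatMap fun s => mulP (R (!b) (A.r s)) [(sgn, D M s)]

/-- A block: compute, output, uncompute. -/
noncomputable def blk (b sgn : Bool) (L : List (MI Kd)) : List (Ins (Reg S B)) :=
  cmp g A b L ++ (outP A b sgn L.length ++ ip (cmp g A b L))

theorem run_initP {b : Bool} {r0 : B} {x : Reg S B → G}
    (h1 : ∀ r, x (R b r) = if r = r0 then g.c else 1) :
    run (initP A b) x = Function.update x (D 0 (A.β r0)) (x (D 0 (A.β r0)) * g.c) := by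
  have key : ∀ (z : Reg S B → G) (r : B), run (mulP (D 0 (A.β r)) [(false, R b r)]) z =
      Function.update z (D 0 (A.β r)) (z (D 0 (A.β r)) * z (R b r)) := by
    intro z r
    rw [run_mulP]
    · simp [wv, lv]
    · intro l hl e
      simp only [List.mem_singleton] at hl
      subst hl
      injection e
  unfold initP
  refine (run_flatMap_one _ (b0 := r0) ?_ _ nodup_allL ?_ ?_).1 (mem_allL r0)
  · rw [key, h1, if_pos rfl]
  · intro r _ hr
    rw [key, h1, if_neg hr, mul_one, Function.update_eq_self]
  · intro r _ hr
    rw [key, Function.update_of_ne (a := R b r) (by intro e; injection e), h1, if_neg hr, mul_one,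
      Function.update_eq_self]

/-- The value of a token with a sign. -/
def sg (sgn : Bool) : G := if sgn then g.c⁻¹ else g.c

theorem run_outP {b sgn : Bool} {M : ℕ} {s0 : S} {x : Reg S B → G}
    (h1 : ∀ s, x (D M s) = if s = s0 then g.c else 1) :
    run (outP A b sgn M) x = Function.update x (R (!b) (A.r s0))
      (x (R (!b) (A.r s0)) * sg g sgn) := by
  have key : ∀ (z : Reg S B → G) (s : S), run (mulP (R (!b) (A.r s)) [(sgn, D M s)]) z =
      Function.update z (R (!b) (A.r s)) (z (R (!b) (A.r s)) * lv z (sgn, D M s)) := by
    intro z s
    rw [run_mulP]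
    · simp [wv]
    · intro l hl e
      simp only [List.mem_singleton] at hl
      subst hl
      injection e
  unfold outP
  refine (run_flatMap_one _ (b0 := s0) ?_ _ nodup_allL ?_ ?_).1 (mem_allL s0)
  · rw [key]
    unfold lv sg
    simp only
    rw [h1, if_pos rfl]
  · intro s _ hs
    rw [key]
    unfold lv
    simp only
    rw [h1, if_neg hs]
    simp
  · intro s _ hs
    rw [key]
    unfold lv
    simp only
    rw [Function.update_of_ne (a := D M s) (by intro e; injection e), h1, if_neg hs]
    simp

/-- The result of the automaton at time `t`. -/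
def fin (L : List (MI Kd)) (t : ℕ) (r : B) : B := A.r (L.foldl (mst A t) (A.β r))

theorem run_blk {b sgn : Bool} {L : List (MI Kd)} {r0 : B} {t : ℕ} {x : Reg S B → G}
    (hL : ∀ m ∈ L, ClkOK g t m.2.1 x ∧ m.2.2.Nodup)
    (hR : ∀ r, x (R b r) = if r = r0 then g.c else 1) (hD : ∀ i s, x (D i s) = 1) :
    run (blk g A b sgn L) x = Function.update x (R (!b) (fin A L t r0))
      (x (R (!b) (fin A L t r0)) * sg g sgn) := by
  unfold blk
  rw [run_append, run_append]
  set x1 := run (cmp g A b L) x with hx1
  have hinit : ∀ (u : Ins (Reg S B)), u ∈ initP A b → (∃ s, u.2.1 = D 0 s) ∧ ∃ r, u.2.2 = R b r := by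
    intro u hu
    unfold initP at hu
    obtain ⟨r, _, hr⟩ := List.mem_flatMap.1 hu
    have h2 := mem_mulP hr
    refine ⟨⟨_, h2.1⟩, r, ?_⟩
    have h3 := h2.2
    simp only [List.mem_singleton] at h3
    exact congrArg Prod.snd h3
  have hcmp : ∀ u ∈ cmp g A b L, (∃ i s, u.2.1 = D i s) ∧
      ((∃ i s, u.2.2 = D i s) ∨ (∃ q a, u.2.2 = C false q a) ∨ ∃ r, u.2.2 = R b r) := by
    intro u hu
    rcases List.mem_append.1 hu with hu | hu
    · obtain ⟨⟨s, hs⟩, r, hr⟩ := hinit u hu
      exact ⟨⟨0, s, hs⟩, Or.inr (Or.inr ⟨r, hr⟩)⟩
    · obtain ⟨h2, h3⟩ := tokTgt_steps g A L 0 u hu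
      refine ⟨h2, ?_⟩
      rcases h3 with h3 | h3
      · exact Or.inl h3
      · exact Or.inr (Or.inl h3)
  have hM : ∀ s, x1 (D L.length s) = if s = L.foldl (mst A t) (A.β r0) then g.c else 1 := by
    intro s
    have e : cmp g A b L = initP A b ++ steps g A 0 L := rfl
    rw [hx1, e, run_append, run_initP g A hR]
    have := run_steps g A L 0 (A.β r0) t (Function.update x (D 0 (A.β r0))
      (x (D 0 (A.β r0)) * g.c)) ?_ ?_ ?_ s
    · rw [Nat.zero_add] at this
      exact this
    · intro m hm
      refine ⟨?_, (hL m hm).2⟩
      intro a
      rw [Function.update_of_ne, (hL m hm).1]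
      intro e; injection e
    · intro s'
      by_cases e : s' = A.β r0
      · subst e
        rw [Function.update_self, hD, one_mul, if_pos rfl]
      · rw [Function.update_of_ne, hD, if_neg e]
        intro e2; injection e2 with _ e2; exact e e2
    · intro j hj s'
      rw [Function.update_of_ne, hD]
      intro e2; injection e2 with e2; omega
  rw [run_outP g A hM]
  have hfin : A.r (L.foldl (mst A t) (A.β r0)) = fin A L t r0 := rfl
  rw [hfin]
  set a0 : Reg S B := R (!b) (fin A L t r0) with ha0
  have hx1R : ∀ r, x1 (R (!b) r) = x (R (!b) r) := by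
    intro r
    rw [hx1]
    refine run_not_mem _ _ fun u hu => ?_
    obtain ⟨⟨i, s, h2⟩, _⟩ := hcmp u hu
    rw [h2]
    intro e; injection e
  have hne : ∀ r, (R b r : Reg S B) ≠ a0 := by
    intro r e
    rw [ha0] at e
    injection e with e
    cases b <;> simp at e
  funext a
  by_cases hB : ∃ r, a = R (!b) r
  · obtain ⟨r, rfl⟩ := hB
    rw [run_not_mem]
    · by_cases e : (R (!b) r : Reg S B) = a0
      · rw [e, Function.update_self, Function.update_self, ha0, hx1R]
      · rw [Function.update_of_ne e, Function.update_of_ne e, hx1R]
    · intro u hu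
      obtain ⟨⟨i, s, h2⟩, _⟩ := hcmp _ (mem_ip hu)
      rw [h2]
      intro e; injection e
  · have e1 : run (ip (cmp g A b L)) (Function.update x1 a0 (x1 a0 * sg g sgn)) a =
        run (ip (cmp g A b L)) x1 a := by
      refine run_congr (fun a => ∀ r, a ≠ R (!b) r) _ _ _ ?_ ?_ a ?_
      · intro u hu
        obtain ⟨⟨i, s, h2⟩, h3⟩ := hcmp _ (mem_ip hu)
        refine ⟨?_, ?_⟩
        · intro r e
          have e' : D i s = R (!b) r := h2.symm.trans e
          injection e'
        · intro r e
          rcases h3 with ⟨i, s, h3⟩ | ⟨i, s, h3⟩ | ⟨r', h3⟩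
          · have e' : D i s = R (!b) r := h3.symm.trans e
            injection e'
          · have e' : C false i s = R (!b) r := h3.symm.trans e
            injection e'
          · have e' : R b r' = R (!b) r := h3.symm.trans e
            injection e' with e'
            cases b <;> simp at e'
      · intro a ha
        rw [Function.update_of_ne]
        exact ha _
      · intro r e
        exact hB ⟨r, e⟩
    rw [e1, hx1, run_ip, Function.update_of_ne]
    intro e
    exact hB ⟨_, e⟩

/-! ## Clocks -/

/-- The state of all registers. -/
def stf (ps : List ℕ) (r0 : B) (τ : ℕ → ℕ) : Reg S B → G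
  | R false r => if r = r0 then g.c else 1
  | R true _ => 1
  | D _ _ => 1
  | C false q j => if q ∈ ps ∧ τ q % q = j then g.y else 1
  | C true _ _ => 1

/-- Rotation of a clock. -/
def rotP (q : ℕ) : List (Ins (Reg S B)) :=
  ((List.range q).flatMap fun j => mv (C false q j) (C true q ((j + 1) % q))) ++
  ((List.range q).flatMap fun j => mv (C true q j) (C false q j))

theorem run_rotP {ps : List ℕ} {q : ℕ} (hq : q ∈ ps) (hq0 : 0 < q) (r0 : B) (τ : ℕ → ℕ) :
    run (rotP q) (stf g ps r0 τ : Reg S B → G) =
      stf g ps r0 (Function.update τ q (τ q + 1)) := by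
  unfold rotP
  rw [run_append]
  set x : Reg S B → G := stf g ps r0 τ with hx
  set j0 := τ q % q with hj0
  have hj0q : j0 < q := Nat.mod_lt _ hq0
  have hCf : ∀ j, x (C false q j) = if j0 = j then g.y else 1 := by
    intro j
    show (if q ∈ ps ∧ τ q % q = j then g.y else 1) = _
    simp [hq, hj0]
  have hCt : ∀ j, x (C true q j) = 1 := fun j => rfl
  have hne : ∀ j j', (C false q j : Reg S B) ≠ C true q j' := by
    intro j j' e; injection e with e; cases e
  set j1 := (j0 + 1) % q with hj1
  have hj1q : j1 < q := Nat.mod_lt _ hq0
  set x' := Function.update (Function.update x (C true q j1) g.y) (C false q j0) 1 with hx'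
  have hx'f : ∀ j, x' (C false q j) = 1 := by
    intro j
    by_cases e : j = j0
    · subst e; rw [hx', Function.update_self]
    · rw [hx', Function.update_of_ne, Function.update_of_ne (hne _ _), hCf, if_neg]
      · exact fun e2 => e e2.symm
      · intro e2; injection e2 with _ _ e2; exact e e2
  have hx't : ∀ j, x' (C true q j) = if j = j1 then g.y else 1 := by
    intro j
    rw [hx', Function.update_of_ne (hne _ _).symm]
    by_cases e : j = j1
    · subst e; rw [Function.update_self, if_pos rfl]
    · rw [Function.update_of_ne, hCt, if_neg e]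
      intro e2; injection e2 with _ _ e2; exact e e2
  have e1 : run ((List.range q).flatMap fun j => mv (C false q j) (C true q ((j + 1) % q))) x = x' := by
    refine (run_flatMap_one _ (b0 := j0) ?_ _ List.nodup_range ?_ ?_).1 (List.mem_range.2 hj0q)
    · rw [run_mv (hne _ _) (hCt _), hCf, if_pos rfl]
    · intro j hj hjne
      refine run_mv_one (hne _ _) (hCt _) ?_
      rw [hCf, if_neg hjne.symm]
    · intro j hj hjne
      have hjq := List.mem_range.1 hj
      refine run_mv_one (hne _ _) ?_ (hx'f _)
      rw [hx't, if_neg]
      intro e
      apply hjne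
      rw [hj1] at e
      have h1 : j + 1 ≡ j0 + 1 [MOD q] := e
      have h2 : j ≡ j0 [MOD q] := Nat.ModEq.add_right_cancel' 1 h1
      have h3 : j % q = j0 % q := h2
      rwa [Nat.mod_eq_of_lt hjq, Nat.mod_eq_of_lt hj0q] at h3
  rw [e1]
  have e2 : run ((List.range q).flatMap fun j => mv (C true q j) (C false q j)) x' =
      Function.update (Function.update x' (C false q j1) g.y) (C true q j1) 1 := by
    refine (run_flatMap_one _ (b0 := j1) ?_ _ List.nodup_range ?_ ?_).1 (List.mem_range.2 hj1q)
    · rw [run_mv (hne _ _).symm (hx'f _), hx't, if_pos rfl]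
    · intro j hj hjne
      refine run_mv_one (hne _ _).symm (hx'f _) ?_
      rw [hx't, if_neg hjne]
    · intro j hj hjne
      refine run_mv_one (hne _ _).symm ?_ ?_
      · rw [Function.update_of_ne (hne _ _), Function.update_of_ne, hx'f]
        intro e; injection e with _ _ e; exact hjne e
      · rw [Function.update_of_ne, Function.update_of_ne (hne _ _).symm, hx't, if_neg hjne]
        intro e; injection e with _ _ e; exact hjne e
  rw [e2]
  have hτ1 : (τ q + 1) % q = j1 := by rw [hj1, hj0, Nat.mod_add_mod]
  funext a
  match a with
  | R false r =>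
    rw [Function.update_of_ne (by intro e; injection e), Function.update_of_ne (by intro e; injection e),
      hx', Function.update_of_ne (by intro e; injection e), Function.update_of_ne (by intro e; injection e)]
    rfl
  | R true r =>
    rw [Function.update_of_ne (by intro e; injection e), Function.update_of_ne (by intro e; injection e),
      hx', Function.update_of_ne (by intro e; injection e), Function.update_of_ne (by intro e; injection e)]
    rfl
  | D i s =>
    rw [Function.update_of_ne (by intro e; injection e), Function.update_of_ne (by intro e; injection e),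
      hx', Function.update_of_ne (by intro e; injection e), Function.update_of_ne (by intro e; injection e)]
    rfl
  | C true q' j =>
    show _ = (1 : G)
    by_cases e : (C true q' j : Reg S B) = C true q j1
    · rw [e, Function.update_self]
    · have hne2 : ∀ q'' j', (C true q' j : Reg S B) ≠ C false q'' j' := by
        intro q'' j' e; injection e with e; cases e
      rw [Function.update_of_ne e, Function.update_of_ne (hne2 _ _), hx',
        Function.update_of_ne (hne2 _ _), Function.update_of_ne e]
      rfl
  | C false q' j =>
    have hne2 : ∀ q'' j', (C false q' j : Reg S B) ≠ C true q'' j' := by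
      intro q'' j' e; injection e with e; cases e
    rw [Function.update_of_ne (hne2 _ _)]
    by_cases eq : q' = q
    · subst eq
      have hr : (stf g ps r0 (Function.update τ q' (τ q' + 1)) : Reg S B → G) (C false q' j) =
          if j1 = j then g.y else 1 := by
        show (if q' ∈ ps ∧ (Function.update τ q' (τ q' + 1)) q' % q' = j then g.y else 1) = _
        rw [Function.update_self, hτ1]
        simp [hq]
      rw [hr]
      by_cases e : j = j1
      · subst e; rw [Function.update_self, if_pos rfl]
      · rw [Function.update_of_ne, hx'f, if_neg fun e2 => e e2.symm]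
        intro e2; injection e2 with _ _ e2; exact e e2
    · rw [Function.update_of_ne, hx', Function.update_of_ne, Function.update_of_ne (hne2 _ _)]
      · show (if q' ∈ ps ∧ τ q' % q' = j then g.y else 1) =
          (if q' ∈ ps ∧ (Function.update τ q (τ q + 1)) q' % q' = j then g.y else 1)
        rw [Function.update_of_ne eq]
      · intro e; injection e with _ e; exact eq e
      · intro e; injection e with _ e; exact eq e

/-- Rotation of all clocks. -/
def rotA (ps : List ℕ) : List (Ins (Reg S B)) := ps.flatMap rotP

theorem run_rotA (ps : List ℕ) (hps : ∀ q ∈ ps, 0 < q) (r0 : B) : ∀ (l : List ℕ), l.Nodup →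
    (∀ q ∈ l, q ∈ ps) → ∀ (τ : ℕ → ℕ), run (l.flatMap rotP) (stf g ps r0 τ : Reg S B → G) =
      stf g ps r0 (fun q => if q ∈ l then τ q + 1 else τ q)
  | [], _, _, τ => by simp [run]
  | q :: l, hn, hl, τ => by
    have hn2 := List.nodup_cons.1 hn
    rw [List.flatMap_cons, run_append, run_rotP g (hl q (by simp)) (hps q (hl q (by simp))),
      run_rotA ps hps r0 l hn2.2 fun q' h => hl q' (by simp [h])]
    congr 1
    funext q'
    by_cases e : q' = q
    · subst e
      rw [if_neg hn2.1, Function.update_self, if_pos (by simp)]
    · rw [Function.update_of_ne e]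
      by_cases h : q' ∈ l <;> simp [h, e]

/-- Moving the results back. -/
noncomputable def backP : List (Ins (Reg S B)) := (allL B).flatMap fun r => mv (R true r) (R false r)

/-- The program of one unit of time. -/
noncomputable def unitP (L : List (MI Kd)) (ps : List ℕ) : List (Ins (Reg S B)) :=
  blk g A false false L ++ (blk g A true true L ++ (backP ++ rotA ps))

theorem run_unitP {L : List (MI Kd)} {ps : List ℕ} (hps : ∀ q ∈ ps, 0 < q) (hn : ps.Nodup)
    (hL : ∀ m ∈ L, m.2.1 ∈ ps ∧ m.2.2.Nodup) (t : ℕ) (hinv : ∀ r, fin A L t (fin A L t r) = r)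
    (r0 : B) : run (unitP g A L ps) (stf g ps r0 fun _ => t) =
      stf g ps (fin A L t r0) fun _ => t + 1 := by
  set x : Reg S B → G := stf g ps r0 fun _ => t with hx
  set r1 := fin A L t r0 with hr1
  have hclk : ∀ m ∈ L, ClkOK g t m.2.1 x := by
    intro m hm a
    show (if m.2.1 ∈ ps ∧ t % m.2.1 = a then g.y else 1) = _
    simp [(hL m hm).1]
  unfold unitP
  rw [run_append, run_append, run_append]
  -- first block
  have e1 : run (blk g A false false L) x = Function.update x (R true r1) g.c := by
    rw [run_blk g A (t := t) (r0 := r0) (fun m hm => ⟨hclk m hm, (hL m hm).2⟩) (fun r => rfl)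
      (fun i s => rfl)]
    show Function.update x (R true r1) (1 * g.c) = _
    rw [one_mul]
  rw [e1]
  set x1 := Function.update x (R true r1) g.c with hx1
  have e2 : run (blk g A true true L) x1 = Function.update x1 (R false r0) 1 := by
    rw [run_blk g A (t := t) (r0 := r1)]
    · have : fin A L t r1 = r0 := hinv r0
      rw [this]
      show Function.update x1 (R false r0) (x1 (R false r0) * g.c⁻¹) = _
      have h3 : x1 (R false r0) = g.c := by
        rw [hx1, Function.update_of_ne]
        · show (if r0 = r0 then g.c else 1) = g.c
          rw [if_pos rfl]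
        · intro e; injection e with e; cases e
      rw [h3, mul_inv_cancel]
    · intro m hm
      refine ⟨?_, (hL m hm).2⟩
      intro a
      rw [hx1, Function.update_of_ne, hclk m hm]
      intro e; injection e
    · intro r
      by_cases e : r = r1
      · subst e; rw [hx1, Function.update_self, if_pos rfl]
      · rw [hx1, Function.update_of_ne, if_neg e]
        · rfl
        · intro e2; injection e2 with _ e2; exact e e2
    · intro i s
      rw [hx1, Function.update_of_ne]
      · rfl
      · intro e; injection e
  rw [e2]
  set x2 := Function.update x1 (R false r0) 1 with hx2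
  have hft : ∀ r r' : B, (R true r : Reg S B) ≠ R false r' := by
    intro r r' e; injection e with e; cases e
  have hx2f : ∀ r, x2 (R false r) = 1 := by
    intro r
    by_cases e : r = r0
    · subst e; rw [hx2, Function.update_self]
    · rw [hx2, Function.update_of_ne, hx1, Function.update_of_ne (hft _ _).symm]
      · show (if r = r0 then g.c else 1) = 1
        rw [if_neg e]
      · intro e2; injection e2 with _ e2; exact e e2
  have hx2t : ∀ r, x2 (R true r) = if r = r1 then g.c else 1 := by
    intro r
    rw [hx2, Function.update_of_ne (hft _ _)]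
    by_cases e : r = r1
    · subst e; rw [hx1, Function.update_self, if_pos rfl]
    · rw [hx1, Function.update_of_ne, if_neg e]
      · rfl
      · intro e2; injection e2 with _ e2; exact e e2
  have e3 : run (backP : List (Ins (Reg S B))) x2 =
      Function.update (Function.update x2 (R false r1) g.c) (R true r1) 1 := by
    unfold backP
    refine (run_flatMap_one _ (b0 := r1) ?_ _ nodup_allL ?_ ?_).1 (mem_allL r1)
    · rw [run_mv (hft _ _) (hx2f _), hx2t, if_pos rfl]
    · intro r _ hr
      refine run_mv_one (hft _ _) (hx2f _) ?_
      rw [hx2t, if_neg hr]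
    · intro r _ hr
      refine run_mv_one (hft _ _) ?_ ?_
      · rw [Function.update_of_ne (hft _ _).symm, Function.update_of_ne, hx2f]
        intro e; injection e with _ e; exact hr e
      · rw [Function.update_of_ne, Function.update_of_ne (hft _ _), hx2t, if_neg hr]
        intro e; injection e with _ e; exact hr e
  rw [e3]
  have e4 : Function.update (Function.update x2 (R false r1) g.c) (R true r1) 1 =
      (stf g ps r1 fun _ => t : Reg S B → G) := by
    funext a
    match a with
    | R false r =>
      rw [Function.update_of_ne (hft _ _).symm]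
      by_cases e : r = r1
      · subst e
        rw [Function.update_self]
        show g.c = if r1 = r1 then g.c else 1
        rw [if_pos rfl]
      · rw [Function.update_of_ne, hx2f]
        · show 1 = if r = r1 then g.c else 1
          rw [if_neg e]
        · intro e2; injection e2 with _ e2; exact e e2
    | R true r =>
      by_cases e : r = r1
      · subst e; rw [Function.update_self]; rfl
      · rw [Function.update_of_ne, Function.update_of_ne (hft _ _), hx2t, if_neg e]
        · rfl
        · intro e2; injection e2 with _ e2; exact e e2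
    | D i s =>
      rw [Function.update_of_ne (by intro e; injection e), Function.update_of_ne (by intro e; injection e),
        hx2, Function.update_of_ne (by intro e; injection e), hx1,
        Function.update_of_ne (by intro e; injection e)]
      rfl
    | C b q j =>
      rw [Function.update_of_ne (by intro e; injection e), Function.update_of_ne (by intro e; injection e),
        hx2, Function.update_of_ne (by intro e; injection e), hx1,
        Function.update_of_ne (by intro e; injection e)]
      cases b <;> rfl
  rw [e4]
  unfold rotA
  rw [run_rotA g ps hps r1 ps hn (fun q h => h)]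
  funext a
  match a with
  | R false r => rfl
  | R true r => rfl
  | D i s => rfl
  | C true q j => rfl
  | C false q j =>
    show (if q ∈ ps ∧ (if q ∈ ps then t + 1 else t) % q = j then g.y else 1) =
      (if q ∈ ps ∧ (t + 1) % q = j then g.y else 1)
    by_cases h : q ∈ ps <;> simp [h]

theorem run_units {L : List (MI Kd)} {ps : List ℕ} (hps : ∀ q ∈ ps, 0 < q) (hn : ps.Nodup)
    (hL : ∀ m ∈ L, m.2.1 ∈ ps ∧ m.2.2.Nodup) (hinv : ∀ t r, fin A L t (fin A L t r) = r)
    (r0 : B) : ∀ T : ℕ, (run (unitP g A L ps))^[T] (stf g ps r0 fun _ => 0) =
      stf g ps ((List.range T).foldl (fun r t => fin A L t r) r0) fun _ => T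
  | 0 => rfl
  | T + 1 => by
    rw [Function.iterate_succ_apply', run_units hps hn hL hinv r0 T,
      run_unitP g A hps hn hL T (hinv T), List.range_succ, List.foldl_append]
    rfl

end Pool.Agent.V7H67.NM
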