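import Pool.Agent.V7H67.NM.Easy
import Pool.Agent.V7H67.NM.Hard

/-!
# The dichotomy
-/

namespace Pool.Agent.V7H67.NM

open Pool.Agent.NPC Pool.Agent.H623R2.PS Pool.Agent.V7H67.LI Pool.Agent.H656R2.AK

theorem poly_tr1 : NPC.Poly (fun I : Inst =>
    I.1.filter fun s : Bool × ℕ × ℕ => !decide (s.2.1 = s.2.2)) :=
  NPC.Poly.filter (l := fun I : Inst => I.1)
    (p := fun (_ : Inst) (s : Bool × ℕ × ℕ) => !decide (s.2.1 = s.2.2)) (by fun_prop) (by fun_prop)

theorem poly_tr2 : NPC.Poly (fun I : Inst => tr I.1) := by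
  unfold tr
  exact NPC.Poly.map
    (l := fun I : Inst => I.1.filter fun s : Bool × ℕ × ℕ => !decide (s.2.1 = s.2.2))
    (F := fun (_ : Inst) (s : Bool × ℕ × ℕ) => (s.1, s.2.1, s.2.1, s.2.2)) poly_tr1 (by fun_prop)

theorem poly_tr : NPC.Poly (fun I : Inst => (tr I.1, I.2.1, I.2.2.1, I.2.2.2)) :=
  NPC.Poly.pair poly_tr2 (by fun_prop)

theorem hard_of_tr {G : Type} [Group G] [Finite G] (h : ¬ Group.IsNilpotent G) {m : ℕ}
    (e : G ≃ Fin m) (Q : PInst → Prop)
    (hQ : ∀ I : Inst, Q (tr I.1, I.2.1, I.2.2.1, I.2.2.2) ↔ Hits e I) : PSPACEHard (lang Q) := by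
  obtain ⟨g⟩ := exists_gate h
  intro L hL
  obtain ⟨f, hf, hwf, hf'⟩ := qbf_hard hL
  exact ⟨fun x => bits (tr (redQ g e (f x)).1, (redQ g e (f x)).2.1, (redQ g e (f x)).2.2.1,
    (redQ g e (f x)).2.2.2), polyTime_bits (poly_tr.comp ((poly_redQ g e).comp hf)), fun x => by
    rw [hf' x, bits_mem_lang, hQ, redQ_iff g e (hwf x)]⟩

/-- If the group is not nilpotent, the problem is hard for polynomial space. -/
theorem value_hard {G : Type} [Group G] (h : ¬ Group.IsNilpotent G) {m : ℕ} (e : G ≃ Fin m) :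
    PSPACEHard (lang fun I => Value e I ∧ Transv I) ∧ PSPACEHard (lang (Value e)) := by
  have : Finite G := Finite.of_equiv _ e.symm
  refine ⟨hard_of_tr h e _ fun I => ?_, hard_of_tr h e _ fun I => value_tr e I⟩
  rw [value_tr]
  exact ⟨fun h => h.1, fun h => ⟨h, transv_tr I.1⟩⟩

/-- The test for transvections. -/
def transvB (I : PInst) : Bool :=
  I.1.all fun s => decide (s.2.2.1 = s.2.1) && !decide (s.2.2.2 = s.2.1)

theorem transvB_iff (I : PInst) : transvB I = true ↔ Transv I := by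
  unfold transvB Transv
  rw [List.all_eq_true]
  simp

theorem poly_transvB : NPC.Poly transvB :=
  NPC.Poly.all (l := fun I : PInst => I.1) (p := fun (_ : PInst) (s : Bool × ℕ × ℕ × ℕ) =>
    decide (s.2.2.1 = s.2.1) && !decide (s.2.2.2 = s.2.1)) (by fun_prop) (by fun_prop)

theorem value_mem' {G : Type} [Group G] {m : ℕ} (e : G ≃ Fin m) :
    InPSPACE (lang fun I => Value e I ∧ Transv I) := by
  let _ := encG e
  have : Finite G := Finite.of_equiv _ e.symm
  have hI : NPC.Poly (fun x : List Bool => (unbits PInst x).getD ([], [], 0, 0)) :=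
    NPC.Poly.optGetD poly_unbits (NPC.Poly.const _)
  have hb : NPC.Poly (fun x : List Bool =>
      (unbits PInst x).elim false (fun I => transvB I)) :=
    NPC.Poly.optElim (g := fun _ => false) (h := fun _ I => transvB I) poly_unbits
      (NPC.Poly.const _) (poly_transvB.comp (NPC.Poly.snd NPC.Poly.id))
  refine value_mem_of e hI hb fun x => ?_
  rw [mem_lang_iff]
  cases hx : unbits PInst x with
  | none => simp
  | some a =>
    simp only [Option.elim_some, Option.getD_some, transvB_iff]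
    constructor
    · rintro ⟨a', ha', h1, h2⟩
      obtain rfl : a = a' := by injection ha'
      exact ⟨h2, h1⟩
    · rintro ⟨h1, h2⟩
      exact ⟨a, rfl, h2, h1⟩

theorem collapse_iff {L0 : Set (List Bool)} (h : PSPACEComplete L0) :
    InP L0 ↔ ∀ L, InPSPACE L → InP L :=
  ⟨fun h1 L hL => InP.of_reduces (h.2 L hL) h1, fun h1 => h1 _ h.1⟩

theorem value_complete {G : Type} [Group G] (h : ¬ Group.IsNilpotent G) {m : ℕ} (e : G ≃ Fin m) :
    PSPACEComplete (lang (Value e)) := ⟨value_mem e, (value_hard h e).2⟩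

theorem value_complete' {G : Type} [Group G] (h : ¬ Group.IsNilpotent G) {m : ℕ} (e : G ≃ Fin m) :
    PSPACEComplete (lang fun I => Value e I ∧ Transv I) := ⟨value_mem' e, (value_hard h e).1⟩

end Pool.Agent.V7H67.NM
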