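import Pool.Agent.V7H67.NM.Rows

/-!
# Enough small primes
-/

namespace Pool.Agent.V7H67.NM

/-- Primality by trial division. -/
def isPb (q : ℕ) : Bool :=
  decide (2 ≤ q) && (List.range q).all fun d => decide (d < 2) || !decide (q % d = 0)

theorem isPb_iff (q : ℕ) : isPb q = true ↔ q.Prime := by
  unfold isPb
  simp only [Bool.and_eq_true, decide_eq_true_eq, List.all_eq_true, List.mem_range,
    Bool.or_eq_true, Bool.not_eq_eq_eq_not, Bool.not_true, decide_eq_false_iff_not]
  rw [Nat.prime_def_lt']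
  constructor
  · rintro ⟨h1, h2⟩
    refine ⟨h1, fun m hm hmq hd => ?_⟩
    rcases h2 m hmq with h3 | h3
    · omega
    · exact h3 (Nat.mod_eq_zero_of_dvd hd)
  · rintro ⟨h1, h2⟩
    refine ⟨h1, fun d hd => ?_⟩
    by_cases h3 : d < 2
    · exact Or.inl h3
    · exact Or.inr fun h4 => h2 d (by omega) hd (Nat.dvd_of_mod_eq_zero h4)

/-- The primes between `7` and `X`. -/
def plist (X : ℕ) : List ℕ := (List.range X).filter fun q => decide (7 ≤ q) && isPb q

/-- The bound for the primes. -/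
def bX (n : ℕ) : ℕ := (n + 8) ^ 4

/-- The primes. -/
def pk (n k : ℕ) : ℕ := (plist (bX n)).getD k 0

theorem two_pow_le (m : ℕ) (hm : m ≠ 0) :
    2 ^ m ≤ (m + 1) * m ^ (Finset.filter Nat.Prime (Finset.range (m + 1))).card := by
  refine (Chebyshev.two_pow_le_mul_lcmUpto m).trans (Nat.mul_le_mul_left _ ?_)
  rw [Nat.lcmUpto_eq_prod_pow_log, Nat.primesLE_eq_filter_range]
  refine (Finset.prod_le_prod' fun p _ => Nat.pow_log_le_self p hm).trans ?_
  rw [Finset.prod_const]

theorem two_tri (n : ℕ) : 2 * tri n = n * (n + 1) := by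
  induction n with
  | zero => rfl
  | succ n ih => rw [tri, Nat.mul_add, ih]; ring

theorem many_primes (n : ℕ) :
    tri n + 3 ≤ (Finset.filter Nat.Prime (Finset.range (bX n))).card := by
  by_contra hc
  have hX : 8 ^ 4 ≤ bX n := Nat.pow_le_pow_left (by omega) 4
  obtain ⟨m, hm⟩ : ∃ m, bX n = m + 1 := ⟨bX n - 1, by omega⟩
  have hm0 : m ≠ 0 := by omega
  have h1 := two_pow_le m hm0
  rw [← hm] at h1
  have h2 : 2 ^ m ≤ bX n ^ (tri n + 3) := by
    refine h1.trans ?_
    calc bX n * m ^ (Finset.filter Nat.Prime (Finset.range (bX n))).card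
        ≤ bX n * bX n ^ (tri n + 2) := by
          refine Nat.mul_le_mul_left _ ?_
          refine (Nat.pow_le_pow_left (show m ≤ bX n by omega) _).trans ?_
          exact Nat.pow_le_pow_right (by omega) (by omega)
      _ = bX n ^ (tri n + 3) := by ring
  have h3 : bX n ≤ 2 ^ (4 * (n + 8)) := by
    unfold bX
    calc (n + 8) ^ 4 ≤ (2 ^ (n + 8)) ^ 4 := Nat.pow_le_pow_left (Nat.lt_two_pow_self).le 4
      _ = 2 ^ (4 * (n + 8)) := by rw [← pow_mul]; congr 1; ring
  have h4 : 2 ^ m ≤ 2 ^ (4 * (n + 8) * (tri n + 3)) := by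
    refine h2.trans ((Nat.pow_le_pow_left h3 _).trans ?_)
    rw [← pow_mul]
  have h5 : m ≤ 4 * (n + 8) * (tri n + 3) := (Nat.pow_le_pow_iff_right (by norm_num)).1 h4
  have h6 := two_tri n
  have h7 : 4 * (n + 8) * (tri n + 3) = 2 * (n + 8) * (2 * tri n + 6) := by ring
  rw [h7, h6] at h5
  have h8 : n * (n + 1) + 6 ≤ (n + 8) ^ 2 := by nlinarith
  have h9 : 2 * (n + 8) * (n * (n + 1) + 6) ≤ 2 * (n + 8) * (n + 8) ^ 2 :=
    Nat.mul_le_mul_left _ h8
  have h10 : bX n = (n + 8) * ((n + 8) * (n + 8) ^ 2) := by unfold bX; ring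
  have h11 : 8 * ((n + 8) * (n + 8) ^ 2) ≤ (n + 8) * ((n + 8) * (n + 8) ^ 2) :=
    Nat.mul_le_mul_right _ (by omega)
  have h12 : 2 * (n + 8) * (n + 8) ^ 2 = 2 * ((n + 8) * (n + 8) ^ 2) := by ring
  have h13 : 8 ^ 2 ≤ (n + 8) ^ 2 := Nat.pow_le_pow_left (by omega) 2
  have h14 : 8 * 8 ^ 2 ≤ (n + 8) * (n + 8) ^ 2 := Nat.mul_le_mul (by omega) h13
  omega

theorem plist_nodup (X : ℕ) : (plist X).Nodup := List.Nodup.filter _ List.nodup_range

theorem mem_plist {X q : ℕ} : q ∈ plist X ↔ q < X ∧ 7 ≤ q ∧ q.Prime := by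
  unfold plist
  rw [List.mem_filter, List.mem_range, Bool.and_eq_true, decide_eq_true_eq, isPb_iff]

theorem plist_length (n : ℕ) : tri n ≤ (plist (bX n)).length := by
  have h1 : Finset.filter Nat.Prime (Finset.range (bX n)) ⊆ (plist (bX n)).toFinset ∪ {2, 3, 5} := by
    intro q hq
    rw [Finset.mem_filter, Finset.mem_range] at hq
    rw [Finset.mem_union, List.mem_toFinset, mem_plist]
    by_cases h7 : 7 ≤ q
    · exact Or.inl ⟨hq.1, h7, hq.2⟩
    · right
      have h2 := hq.2.two_le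
      have hq2 := hq.2
      interval_cases q
      · simp
      · simp
      · exact absurd hq2 (by norm_num)
      · simp
      · exact absurd hq2 (by norm_num)
  have h2 := Finset.card_le_card h1
  have h3 := many_primes n
  have h4 : ((plist (bX n)).toFinset ∪ {2, 3, 5}).card ≤ (plist (bX n)).toFinset.card + 3 :=
    (Finset.card_union_le _ _).trans (Nat.add_le_add_left (by decide) _)
  rw [List.toFinset_card_of_nodup (plist_nodup _)] at h4
  omega

theorem pk_mem {n k : ℕ} (hk : k < tri n) : pk n k ∈ plist (bX n) := by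
  unfold pk
  rw [List.getD_eq_getElem _ _ (lt_of_lt_of_le hk (plist_length n))]
  exact List.getElem_mem _

theorem pk_prime {n k : ℕ} (hk : k < tri n) : (pk n k).Prime ∧ 7 ≤ pk n k :=
  ⟨(mem_plist.1 (pk_mem hk)).2.2, (mem_plist.1 (pk_mem hk)).2.1⟩

theorem pk_lt {n k k' : ℕ} (h : k < k') (hk' : k' < tri n) : pk n k < pk n k' := by
  unfold pk
  have h1 := plist_length n
  rw [List.getD_eq_getElem _ _ (by omega), List.getD_eq_getElem _ _ (by omega)]
  have h2 : (plist (bX n)).Pairwise (· < ·) := List.Pairwise.filter _ List.pairwise_lt_range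
  exact List.pairwise_iff_getElem.1 h2 k k' (by omega) (by omega) h

end Pool.Agent.V7H67.NM
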