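import Pool.Agent.V7H67.NM.Engel

/-!
# Programs of Nielsen moves

A register holds an element of a group. An instruction `(b, a, a')` with `a ≠ a'` multiplies the
content of `a` on the right by that of `a'` (`b = false`) or its inverse (`b = true`).
-/

namespace Pool.Agent.V7H67.NM

open scoped commutatorElement

set_option linter.unusedSectionVars false

variable {G : Type*} [Group G] {α : Type*} [DecidableEq α]

/-- The value of a signed register. -/
def lv (x : α → G) (l : Bool × α) : G := if l.1 then (x l.2)⁻¹ else x l.2

/-- The value of a word in signed registers. -/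
def wv (x : α → G) (w : List (Bool × α)) : G := (w.map (lv x)).prod

/-- Instructions. -/
abbrev Ins (α : Type*) := Bool × α × α

/-- One instruction. -/
def ex (x : α → G) (s : Ins α) : α → G :=
  if s.2.1 = s.2.2 then x else Function.update x s.2.1 (x s.2.1 * lv x (s.1, s.2.2))

/-- A program. -/
def run (P : List (Ins α)) (x : α → G) : α → G := P.foldl ex x

theorem run_nil (x : α → G) : run [] x = x := rfl

theorem run_cons (s : Ins α) (P : List (Ins α)) (x : α → G) : run (s :: P) x = run P (ex x s) := rfl

theorem run_append (P Q : List (Ins α)) (x : α → G) : run (P ++ Q) x = run Q (run P x) :=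
  List.foldl_append

/-- Multiplication of a register by a word. -/
def mulP (a : α) (w : List (Bool × α)) : List (Ins α) := w.map fun l => (l.1, a, l.2)

theorem lv_update {x : α → G} {a : α} {g : G} {l : Bool × α} (h : l.2 ≠ a) :
    lv (Function.update x a g) l = lv x l := by
  unfold lv
  rw [Function.update_of_ne h]

theorem wv_update {x : α → G} {a : α} {g : G} {w : List (Bool × α)} (h : ∀ l ∈ w, l.2 ≠ a) :
    wv (Function.update x a g) w = wv x w := by
  unfold wv
  congr 1
  exact List.map_congr_left fun l hl => lv_update (h l hl)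

theorem wv_nil (x : α → G) : wv x [] = 1 := rfl

theorem wv_cons (x : α → G) (l : Bool × α) (w : List (Bool × α)) :
    wv x (l :: w) = lv x l * wv x w := by
  simp [wv]

theorem wv_append (x : α → G) (v w : List (Bool × α)) : wv x (v ++ w) = wv x v * wv x w := by
  simp [wv]

theorem run_mulP (a : α) : ∀ (w : List (Bool × α)) (x : α → G), (∀ l ∈ w, l.2 ≠ a) →
    run (mulP a w) x = Function.update x a (x a * wv x w)
  | [], x, _ => by simp [mulP, run, wv]
  | l :: w, x, h => by
    have h1 : l.2 ≠ a := h l (by simp)
    have h2 : ∀ l ∈ w, l.2 ≠ a := fun m hm => h m (by simp [hm])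
    have e : mulP a (l :: w) = (l.1, a, l.2) :: mulP a w := rfl
    rw [e, run_cons, run_mulP a w _ h2]
    unfold ex
    rw [if_neg (fun e => h1 e.symm)]
    rw [wv_update h2, Function.update_self, Function.update_idem, wv_cons, mul_assoc]

/-- The inverse program. -/
def ip (P : List (Ins α)) : List (Ins α) := (P.map fun s => (!s.1, s.2)).reverse

theorem ex_inv (x : α → G) (s : Ins α) : ex (ex x s) (!s.1, s.2) = x := by
  obtain ⟨b, i, j⟩ := s
  unfold ex
  by_cases h : i = j
  · simp [h]
  · simp only [h, if_false]
    rw [Function.update_self, Function.update_idem]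
    have h1 : lv (Function.update x i (x i * lv x (b, j))) (!b, j) = (lv x (b, j))⁻¹ := by
      rw [lv_update (fun e => h e.symm)]
      cases b <;> simp [lv]
    rw [h1, mul_inv_cancel_right, Function.update_eq_self]

theorem run_ip : ∀ (P : List (Ins α)) (x : α → G), run (ip P) (run P x) = x
  | [], _ => rfl
  | s :: P, x => by
    have e : ip (s :: P) = ip P ++ [(!s.1, s.2)] := by simp [ip]
    rw [e, run_append, run_cons s P, run_ip P]
    exact ex_inv x s

theorem run_not_mem {a : α} : ∀ (P : List (Ins α)) (x : α → G), (∀ s ∈ P, s.2.1 ≠ a) →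
    run P x a = x a
  | [], _, _ => rfl
  | s :: P, x, h => by
    rw [run_cons, run_not_mem P _ fun t ht => h t (by simp [ht])]
    unfold ex
    split_ifs
    · rfl
    · rw [Function.update_of_ne]
      exact fun e => h s (by simp) e.symm

theorem run_congr (B : α → Prop) : ∀ (P : List (Ins α)) (x x' : α → G),
    (∀ s ∈ P, B s.2.1 ∧ B s.2.2) → (∀ a, B a → x a = x' a) → ∀ a, B a → run P x a = run P x' a
  | [], _, _, _, h, a, ha => h a ha
  | s :: P, x, x', hP, h, a, ha => by
    rw [run_cons, run_cons]
    refine run_congr B P _ _ (fun t ht => hP t (by simp [ht])) ?_ a ha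
    intro b hb
    have h1 := h _ (hP s (by simp)).1
    have h2 := h _ (hP s (by simp)).2
    unfold ex lv
    split_ifs
    · exact h b hb
    · by_cases e : b = s.2.1
      · subst e
        rw [Function.update_self, Function.update_self]
        simp [h1, h2]
      · rw [Function.update_of_ne e, Function.update_of_ne e, h b hb]
    · by_cases e : b = s.2.1
      · subst e
        rw [Function.update_self, Function.update_self]
        simp [h1, h2]
      · rw [Function.update_of_ne e, Function.update_of_ne e, h b hb]

theorem mem_ip {P : List (Ins α)} {s : Ins α} (h : s ∈ ip P) : (!s.1, s.2) ∈ P := by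
  unfold ip at h
  rw [List.mem_reverse, List.mem_map] at h
  obtain ⟨t, ht, rfl⟩ := h
  simpa using ht

/-! ## Gates -/

/-- Substitution of two registers into a word in two letters. -/
def sub2 (w : List (Bool × Bool)) (a b : α) : List (Bool × α) :=
  w.map fun l => (l.1, if l.2 then b else a)

/-- The value of a word in two letters. -/
def ev (w : List (Bool × Bool)) (g h : G) : G := wv (fun s : Bool => if s then h else g) w

theorem wv_sub2 (x : α → G) (w : List (Bool × Bool)) (a b : α) :
    wv x (sub2 w a b) = ev w (x a) (x b) := by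
  unfold ev wv sub2
  rw [List.map_map]
  congr 1
  apply List.map_congr_left
  rintro ⟨s, t⟩ _
  cases s <;> cases t <;> rfl

/-- The inverse word. -/
def iw {β : Type*} (w : List (Bool × β)) : List (Bool × β) := (w.map fun l => (!l.1, l.2)).reverse

theorem wv_iw (x : α → G) (w : List (Bool × α)) : wv x (iw w) = (wv x w)⁻¹ := by
  induction w with
  | nil => simp [iw, wv]
  | cons l w ih =>
    have e : iw (l :: w) = iw w ++ [(!l.1, l.2)] := by simp [iw]
    rw [e, wv_append, ih, wv_cons x l w, mul_inv_rev, wv_cons, wv_nil, mul_one]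
    congr 1
    obtain ⟨b, a⟩ := l
    cases b <;> simp [lv]

/-- Iterated commutators. -/
def cw : ℕ → List (Bool × Bool)
  | 0 => [(false, false)]
  | k + 1 => cw k ++ ((false, true) :: (iw (cw k) ++ [(true, true)]))

theorem ev_cw (g h : G) : ∀ k, ev (cw k) g h = (fun z => ⁅z, h⁆)^[k] g
  | 0 => by simp [ev, cw, wv, lv]
  | k + 1 => by
    have ih := ev_cw g h k
    unfold ev at ih ⊢
    have e : cw (k + 1) = cw k ++ ((false, true) :: (iw (cw k) ++ [(true, true)])) := rfl
    rw [e, wv_append, wv_cons, wv_append, wv_iw, Function.iterate_succ_apply', ← ih, wv_cons, wv_nil]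
    simp [lv, commutatorElement_def, mul_assoc]

/-- A gate. -/
structure Gate (G : Type*) [Group G] where
  /-- the word -/
  w : List (Bool × Bool)
  /-- the value of a token -/
  c : G
  /-- the value of a condition that is satisfied -/
  y : G
  hc : c ≠ 1
  hcy : ev w c y = c
  hc1 : ev w c 1 = 1
  h1y : ev w 1 y = 1

theorem exists_gate {G : Type*} [Group G] [Finite G] (h : ¬ Group.IsNilpotent G) :
    Nonempty (Gate G) := by
  obtain ⟨c, y, k, hc, hk, hcy⟩ := exists_loop h
  refine ⟨⟨cw k, c, y, hc, ?_, ?_, ?_⟩⟩
  · rw [ev_cw, hcy]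
  · obtain ⟨k, rfl⟩ : ∃ m, k = m + 1 := ⟨k - 1, by omega⟩
    rw [ev_cw, Function.iterate_succ_apply']
    simp
  · rw [ev_cw]
    clear hk hcy
    induction k with
    | zero => rfl
    | succ k ih => rw [Function.iterate_succ_apply', ih]; simp

theorem Gate.h11 (g : Gate G) : ev g.w (1 : G) 1 = 1 := by
  have : ∀ w : List (Bool × Bool), ev w (1 : G) 1 = 1 := by
    intro w
    induction w with
    | nil => simp [ev, wv]
    | cons l w ih =>
      unfold ev at ih ⊢
      rw [wv_cons, ih]
      obtain ⟨b, s⟩ := l
      cases b <;> cases s <;> simp [lv]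
  exact this _

end Pool.Agent.V7H67.NM
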