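import Pool.Agent.H656R2.AK.QG

/-!
# Evaluation of quantified formulas by a sequence of additions on three bits

Time is written in the mixed radix given by a list of weights, with digits `0, …, 4`; at each time
at most one operation is applied to three bits.
-/

namespace Pool.Agent.V7H67.NM

open Pool.Agent.H623R2.PS Pool.Agent.H656R2.AK

/-- Three bits. -/
abbrev B3 := Bool × Bool × Bool

/-- A bit. -/
def gt3 (i : Fin 3) (r : B3) : Bool := if i = 0 then r.1 else if i = 1 then r.2.1 else r.2.2

/-- Addition of bit `i` to bit `j`. -/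
def add3 (i j : Fin 3) (r : B3) : B3 :=
  if i = j then r else if j = 0 then (xor r.1 (gt3 i r), r.2) else
    if j = 1 then (r.1, xor r.2.1 (gt3 i r), r.2.2) else (r.1, r.2.1, xor r.2.2 (gt3 i r))

theorem add3_invol (i j : Fin 3) (r : B3) : add3 i j (add3 i j r) = r := by
  revert i j r; decide

/-- Conditional addition. -/
def cadd (b : Bool) (i j : Fin 3) (r : B3) : B3 := if b then add3 i j r else r

/-- The third index. -/
def th (i j : Fin 3) : Fin 3 := -(i + j)

/-- The constant has to be added at a node with this quantifier. -/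
def cpres (q ν : Bool) : Bool := q == ν

theorem cadd_comm4 : ∀ (q ν f0 f1 : Bool) (i j : Fin 3) (r : B3), i ≠ j →
    cadd (xor f1 (!q)) (th i j) j (cadd (xor f0 (!q)) i (th i j)
      (cadd (xor f1 (!q)) (th i j) j (cadd (xor f0 (!q)) i (th i j) (cadd (cpres q ν) i j r)))) =
    cadd (xor (bif q then f0 && f1 else f0 || f1) ν) i j r := by decide

/-- The operation of a string of digits. -/
def act : List Bool → List ℕ → Fin 3 → Fin 3 → Bool → (List Bool → Bool) → B3 → B3
  | [], _, i, j, ν, φ, r => cadd (xor (φ []) ν) i j r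
  | q :: qs, cs, i, j, ν, φ, r =>
    if cs.headD 0 = 0 then (if cs.tail.all (fun c => c == 0) then cadd (cpres q ν) i j r else r)
    else if cs.headD 0 = 1 ∨ cs.headD 0 = 3 then
      act qs cs.tail i (th i j) (!q) (fun u => φ (false :: u)) r
    else act qs cs.tail (th i j) j (!q) (fun u => φ (true :: u)) r

/-- Greedy digits. -/
def dg : List ℕ → ℕ → Option (List ℕ)
  | [], u => if u = 0 then some [] else none
  | b :: bs, u => if u / b < 5 then (dg bs (u % b)).map (fun cs => u / b :: cs) else none

/-- Admissible weights. -/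
def Good : List ℕ → ℕ → Prop
  | [], W => 1 ≤ W
  | b :: bs, W => 5 * b ≤ W ∧ Good bs b

theorem Good.pos : ∀ {bs : List ℕ} {W : ℕ}, Good bs W → 1 ≤ W
  | [], _, h => h
  | b :: bs, W, h => by
    have h1 : Good bs b := h.2
    have := h1.pos
    have h2 := h.1
    omega

/-- Composition of operations over an interval of times. -/
def cmpo {R : Type} (F : ℕ → R → R) (W : ℕ) (r : R) : R := (List.range W).foldl (fun r t => F t r) r

theorem cmpo_add {R : Type} (F : ℕ → R → R) (a b : ℕ) (r : R) :
    cmpo F (a + b) r = cmpo (fun t => F (a + t)) b (cmpo F a r) := by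
  unfold cmpo
  rw [List.range_add, List.foldl_append, List.foldl_map]

theorem cmpo_congr {R : Type} {F F' : ℕ → R → R} : ∀ {W : ℕ}, (∀ t < W, ∀ r, F t r = F' t r) →
    ∀ r, cmpo F W r = cmpo F' W r
  | 0, _, _ => rfl
  | W + 1, h, r => by
    have ih := cmpo_congr (W := W) (fun t ht => h t (by omega)) r
    unfold cmpo at ih ⊢
    rw [List.range_succ, List.foldl_append, List.foldl_append, ih]
    exact h W (by omega) _

theorem cmpo_id {R : Type} {F : ℕ → R → R} {W : ℕ} (h : ∀ t < W, ∀ r, F t r = r) (r : R) :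
    cmpo F W r = r := by
  rw [cmpo_congr (F' := fun _ r => r) h]
  unfold cmpo
  induction W with
  | zero => rfl
  | succ W ih =>
    rw [List.range_succ, List.foldl_append, ih fun t ht => h t (by omega)]
    rfl

/-- The operation at time `t`. -/
def opt {R : Type} (bs : List ℕ) (f : List ℕ → R → R) (t : ℕ) (r : R) : R :=
  (dg bs t).elim r fun cs => f cs r

theorem opt_block {R : Type} (b : ℕ) (bs : List ℕ) (f : List ℕ → R → R) {c t : ℕ} (hc : c < 5)
    (ht : t < b) (r : R) : opt (b :: bs) f (c * b + t) r = opt bs (fun cs => f (c :: cs)) t r := by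
  unfold opt
  have h1 : (c * b + t) / b = c := by
    rw [Nat.mul_comm, Nat.mul_add_div (by omega), Nat.div_eq_of_lt ht, Nat.add_zero]
  have h2 : (c * b + t) % b = t := by
    rw [Nat.mul_comm, Nat.mul_add_mod, Nat.mod_eq_of_lt ht]
  simp only [dg]
  rw [h1, h2, if_pos hc]
  cases dg bs t <;> rfl

theorem opt_rest {R : Type} (b : ℕ) (bs : List ℕ) (f : List ℕ → R → R) {t : ℕ} (hb : 1 ≤ b)
    (ht : 5 * b ≤ t) (r : R) : opt (b :: bs) f t r = r := by
  unfold opt
  simp only [dg]
  have h1 : ¬ t / b < 5 := by
    rw [not_lt, Nat.le_div_iff_mul_le (by omega)]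
    exact ht
  rw [if_neg h1]
  rfl

theorem cmpo_blocks {R : Type} {b W : ℕ} (bs : List ℕ) (f : List ℕ → R → R) (hb : 1 ≤ b)
    (hW : 5 * b ≤ W) (r : R) : cmpo (opt (b :: bs) f) W r =
      cmpo (opt bs fun cs => f (4 :: cs)) b (cmpo (opt bs fun cs => f (3 :: cs)) b
        (cmpo (opt bs fun cs => f (2 :: cs)) b (cmpo (opt bs fun cs => f (1 :: cs)) b
          (cmpo (opt bs fun cs => f (0 :: cs)) b r)))) := by
  obtain ⟨W', rfl⟩ : ∃ W', W = b + (b + (b + (b + (b + W')))) := ⟨W - 5 * b, by omega⟩
  rw [cmpo_add, cmpo_add, cmpo_add, cmpo_add, cmpo_add]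
  have h0 : ∀ r, cmpo (opt (b :: bs) f) b r = cmpo (opt bs fun cs => f (0 :: cs)) b r := by
    intro r
    refine cmpo_congr (fun t ht r => ?_) r
    have := opt_block b bs f (c := 0) (by omega) ht r
    simpa using this
  have h1 : ∀ r, cmpo (fun t => opt (b :: bs) f (b + t)) b r =
      cmpo (opt bs fun cs => f (1 :: cs)) b r := by
    intro r
    refine cmpo_congr (fun t ht r => ?_) r
    have := opt_block b bs f (c := 1) (by omega) ht r
    simpa using this
  have h2 : ∀ r, cmpo (fun t => opt (b :: bs) f (b + (b + t))) b r =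
      cmpo (opt bs fun cs => f (2 :: cs)) b r := by
    intro r
    refine cmpo_congr (fun t ht r => ?_) r
    have := opt_block b bs f (c := 2) (by omega) ht r
    rwa [show 2 * b + t = b + (b + t) by ring] at this
  have h3 : ∀ r, cmpo (fun t => opt (b :: bs) f (b + (b + (b + t)))) b r =
      cmpo (opt bs fun cs => f (3 :: cs)) b r := by
    intro r
    refine cmpo_congr (fun t ht r => ?_) r
    have := opt_block b bs f (c := 3) (by omega) ht r
    rwa [show 3 * b + t = b + (b + (b + t)) by ring] at this
  have h4 : ∀ r, cmpo (fun t => opt (b :: bs) f (b + (b + (b + (b + t))))) b r =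
      cmpo (opt bs fun cs => f (4 :: cs)) b r := by
    intro r
    refine cmpo_congr (fun t ht r => ?_) r
    have := opt_block b bs f (c := 4) (by omega) ht r
    rwa [show 4 * b + t = b + (b + (b + (b + t))) by ring] at this
  rw [h0, h1, h2, h3, h4]
  exact cmpo_id (fun t _ r => opt_rest b bs f hb (by omega) r) _

theorem dg_zero : ∀ (bs : List ℕ) {W : ℕ}, Good bs W →
    ∃ cs, dg bs 0 = some cs ∧ cs.all (fun c => c == 0) = true
  | [], _, _ => ⟨[], by simp [dg], rfl⟩
  | b :: bs, W, h => by
    obtain ⟨cs, h1, h2⟩ := dg_zero bs h.2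
    refine ⟨0 :: cs, ?_, ?_⟩
    · simp only [dg]
      rw [Nat.zero_div, if_pos (by omega), Nat.zero_mod, h1]
      rfl
    · simpa using h2

theorem dg_all_zero : ∀ (bs : List ℕ) {W u : ℕ} {cs : List ℕ}, Good bs W → dg bs u = some cs →
    cs.all (fun c => c == 0) = true → u = 0
  | [], _, u, cs, _, h1, _ => by
    simp only [dg] at h1
    split_ifs at h1 with h
    exact h
  | b :: bs, W, u, cs, h, h1, h2 => by
    simp only [dg] at h1
    split_ifs at h1 with h3
    obtain ⟨cs', h4, rfl⟩ := Option.map_eq_some_iff.1 h1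
    simp only [List.all_cons, Bool.and_eq_true, beq_iff_eq] at h2
    have h5 := dg_all_zero bs h.2 h4 h2.2
    have hb := h.2.pos
    have := Nat.div_add_mod u b
    rw [h2.1, h5] at this
    omega

theorem cmpo_zero {bs : List ℕ} {b : ℕ} (h : Good bs b) (H : B3 → B3) (r : B3) :
    cmpo (opt bs fun cs r => if cs.all (fun c => c == 0) then H r else r) b r = H r := by
  obtain ⟨b', rfl⟩ : ∃ b', b = 1 + b' := ⟨b - 1, by have := h.pos; omega⟩
  rw [cmpo_add]
  have h1 : cmpo (opt bs fun cs r => if cs.all (fun c => c == 0) then H r else r) 1 r = H r := by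
    obtain ⟨cs, h2, h3⟩ := dg_zero bs h
    show opt bs _ 0 r = H r
    unfold opt
    rw [h2]
    show (if cs.all (fun c => c == 0) then H r else r) = H r
    rw [if_pos h3]
  rw [h1]
  refine cmpo_id (fun t ht r => ?_) _
  unfold opt
  cases h2 : dg bs (1 + t) with
  | none => rfl
  | some cs =>
    show (if cs.all (fun c => c == 0) then H r else r) = r
    rw [if_neg]
    intro h3
    have := dg_all_zero bs h h2 h3
    omega

theorem th_ne (i j : Fin 3) (h : i ≠ j) : i ≠ th i j ∧ th i j ≠ j := by
  revert i j; decide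

/-- **Evaluation of a quantified formula.** -/
theorem cmpo_act : ∀ (qs : List Bool) (bs : List ℕ) (W : ℕ) (i j : Fin 3) (ν : Bool)
    (φ : List Bool → Bool) (r : B3), bs.length = qs.length → Good bs W → i ≠ j →
    cmpo (opt bs fun cs r => act qs cs i j ν φ r) W r = cadd (xor (evq qs φ) ν) i j r
  | [], [], W, i, j, ν, φ, r, _, hg, _ => by
    have := cmpo_zero hg (fun r => cadd (xor (φ []) ν) i j r) r
    refine Eq.trans (cmpo_congr (fun t ht r => ?_) r) this
    unfold opt
    cases h : dg [] t with
    | none => rfl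
    | some cs =>
      simp only [dg] at h
      split_ifs at h
      injection h with h
      subst h
      rfl
  | q :: qs, b :: bs, W, i, j, ν, φ, r, hl, hg, hij => by
    have hl' : bs.length = qs.length := by simpa using hl
    have hb := hg.2.pos
    rw [cmpo_blocks bs _ hb hg.1]
    have e0 : ∀ r, cmpo (opt bs fun cs r => act (q :: qs) (0 :: cs) i j ν φ r) b r =
        cadd (cpres q ν) i j r := by
      intro r
      exact cmpo_zero hg.2 (fun r => cadd (cpres q ν) i j r) r
    have e1 : ∀ r, cmpo (opt bs fun cs r => act (q :: qs) (1 :: cs) i j ν φ r) b r =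
        cadd (xor (evq qs fun u => φ (false :: u)) (!q)) i (th i j) r := by
      intro r
      exact cmpo_act qs bs b i (th i j) (!q) _ r hl' hg.2 (th_ne i j hij).1
    have e2 : ∀ r, cmpo (opt bs fun cs r => act (q :: qs) (2 :: cs) i j ν φ r) b r =
        cadd (xor (evq qs fun u => φ (true :: u)) (!q)) (th i j) j r := by
      intro r
      exact cmpo_act qs bs b (th i j) j (!q) _ r hl' hg.2 (th_ne i j hij).2
    have e3 : ∀ r, cmpo (opt bs fun cs r => act (q :: qs) (3 :: cs) i j ν φ r) b r =
        cadd (xor (evq qs fun u => φ (false :: u)) (!q)) i (th i j) r := by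
      intro r
      exact cmpo_act qs bs b i (th i j) (!q) _ r hl' hg.2 (th_ne i j hij).1
    have e4 : ∀ r, cmpo (opt bs fun cs r => act (q :: qs) (4 :: cs) i j ν φ r) b r =
        cadd (xor (evq qs fun u => φ (true :: u)) (!q)) (th i j) j r := by
      intro r
      exact cmpo_act qs bs b (th i j) j (!q) _ r hl' hg.2 (th_ne i j hij).2
    rw [e0, e1, e2, e3, e4]
    exact cadd_comm4 q ν _ _ i j r hij

end Pool.Agent.V7H67.NM
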