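import Pool.Agent.V7H67.NM.Macro
import Pool.Agent.V7H67.NM.Tree

/-!
# The automaton that reads the digits of the time
-/

namespace Pool.Agent.V7H67.NM

open Pool.Agent.H623R2.PS Pool.Agent.H656R2.AK

/-- States without the three bits. -/
structure Qs where
  /-- source -/
  i : Fin 3
  /-- target -/
  j : Fin 3
  /-- negation -/
  ν : Bool
  /-- mode -/
  mode : Fin 4
  /-- digit -/
  dig : Fin 6
  /-- value of the clause -/
  cl : Bool
  /-- value of the clauses before -/
  al : Bool
deriving DecidableEq

instance : Fintype Qs :=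
  Fintype.ofEquiv (Fin 3 × Fin 3 × Bool × Fin 4 × Fin 6 × Bool × Bool)
    { toFun := fun p => ⟨p.1, p.2.1, p.2.2.1, p.2.2.2.1, p.2.2.2.2.1, p.2.2.2.2.2.1, p.2.2.2.2.2.2⟩
      invFun := fun s => (s.i, s.j, s.ν, s.mode, s.dig, s.cl, s.al)
      left_inv := fun _ => rfl
      right_inv := fun _ => rfl }

/-- Kinds of instructions. -/
inductive Kd
  | first
  | next
  | last (q : Bool)
  | clStart
  | lit (b : Bool)
  | clEnd
  | fin
deriving DecidableEq, Fintype

/-- Observations as digits. -/
def toD (o : ℕ) : Fin 6 := if h : o < 6 then ⟨o, h⟩ else 5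

/-- The end of a row. -/
def lastQ (q : Bool) (s : Qs) : Qs :=
  if s.mode = 0 then
    if s.dig = 5 then { s with mode := 1 }
    else if s.dig = 0 then { s with mode := if cpres q s.ν then 3 else 2 }
    else if s.dig = 1 ∨ s.dig = 3 then { s with j := th s.i s.j, ν := !q }
    else { s with i := th s.i s.j, ν := !q }
  else if s.mode = 1 then s
  else if s.dig = 0 then s
  else { s with mode := 1 }

/-- Moves of the reading part. -/
def δQ : Kd → ℕ → Qs → Qs
  | Kd.first, o, s => { s with dig := toD o }
  | Kd.next, o, s => if toD o = s.dig then s else { s with mode := 1 }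
  | Kd.last q, _, s => lastQ q s
  | Kd.clStart, _, s => { s with cl := false }
  | Kd.lit b, o, s => if decide (o = 2 ∨ o = 4) = b then { s with cl := true } else s
  | Kd.clEnd, _, s => { s with al := s.al && s.cl }
  | Kd.fin, _, s => s

/-- The operation on the three bits. -/
def opQ (s : Qs) (r : B3) : B3 :=
  if s.mode = 0 then cadd (xor s.al s.ν) s.i s.j r else if s.mode = 3 then add3 s.i s.j r else r

/-- The automaton. -/
def QM : Mach (B3 × Qs) Kd B3 where
  δ k o s := (if k = Kd.fin then opQ s.2 s.1 else s.1, δQ k o s.2)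
  β r := (r, ⟨0, 1, false, 0, 0, false, true⟩)
  r s := s.1

/-- The residues of the first five multiples. -/
def res (b p : ℕ) : List ℕ := (List.range 5).map fun c => (c * b) % p

/-- Data of a level: quantifier, weight, first prime, other primes. -/
abbrev Row := Bool × ℕ × ℕ × List ℕ

/-- Instructions of a row. -/
def rowI (R : Row) : List (MI Kd) :=
  (Kd.first, R.2.2.1, res R.2.1 R.2.2.1) ::
    (R.2.2.2.map (fun p => (Kd.next, p, res R.2.1 p)) ++ [(Kd.last R.1, 1, [])])

/-- Instructions of a clause. -/
def clI (Rs : List Row) (c : List (Bool × ℕ)) : List (MI Kd) :=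
  (Kd.clStart, 1, []) ::
    (c.map (fun l => (Kd.lit l.1, (Rs.getD l.2 (true, 0, 1, [])).2.2.1,
      res (Rs.getD l.2 (true, 0, 1, [])).2.1 (Rs.getD l.2 (true, 0, 1, [])).2.2.1)) ++
      [(Kd.clEnd, 1, [])])

/-- All instructions. -/
def insL (Rs : List Row) (C : List (List (Bool × ℕ))) : List (MI Kd) :=
  Rs.flatMap rowI ++ (C.flatMap (clI Rs) ++ [(Kd.fin, 1, [])])

/-- The observation at time `t`. -/
def obs (t b p : ℕ) : ℕ := (res b p).idxOf (t % p)

/-- One move of the reading part. -/
def mQ (t : ℕ) (s : Qs) (m : MI Kd) : Qs := δQ m.1 (m.2.2.idxOf (t % m.2.1)) s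

theorem fold_QM (t : ℕ) : ∀ (L : List (MI Kd)) (s : B3 × Qs), (∀ m ∈ L, m.1 ≠ Kd.fin) →
    L.foldl (mst QM t) s = (s.1, L.foldl (mQ t) s.2)
  | [], _, _ => rfl
  | m :: L, s, h => by
    rw [List.foldl_cons, List.foldl_cons]
    have e : mst QM t s m = (s.1, mQ t s.2 m) := by
      unfold mst QM mQ
      simp only
      rw [if_neg (h m (by simp))]
    rw [e]
    exact fold_QM t L _ fun m hm => h m (by simp [hm])

/-- The reading part before the last instruction. -/
def finQ (Rs : List Row) (C : List (List (Bool × ℕ))) (t : ℕ) : Qs :=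
  (C.flatMap (clI Rs)).foldl (mQ t) ((Rs.flatMap rowI).foldl (mQ t) ⟨0, 1, false, 0, 0, false, true⟩)

theorem fin_QM (Rs : List Row) (C : List (List (Bool × ℕ))) (t : ℕ) (r : B3) :
    fin QM (insL Rs C) t r = opQ (finQ Rs C t) r := by
  have h1 : ∀ m ∈ Rs.flatMap rowI ++ C.flatMap (clI Rs), m.1 ≠ Kd.fin := by
    intro m hm
    rcases List.mem_append.1 hm with hm | hm
    · obtain ⟨R, _, h⟩ := List.mem_flatMap.1 hm
      unfold rowI at h
      rcases List.mem_cons.1 h with rfl | h
      · simp
      · rcases List.mem_append.1 h with h | h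
        · obtain ⟨p, _, rfl⟩ := List.mem_map.1 h
          simp
        · simp only [List.mem_singleton] at h
          subst h
          simp
    · obtain ⟨c, _, h⟩ := List.mem_flatMap.1 hm
      unfold clI at h
      rcases List.mem_cons.1 h with rfl | h
      · simp
      · rcases List.mem_append.1 h with h | h
        · obtain ⟨p, _, rfl⟩ := List.mem_map.1 h
          simp
        · simp only [List.mem_singleton] at h
          subst h
          simp
  unfold fin insL
  rw [← List.append_assoc, List.foldl_append, fold_QM t _ _ h1, List.foldl_append]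
  rfl

theorem fin_QM_invol (Rs : List Row) (C : List (List (Bool × ℕ))) (t : ℕ) (r : B3) :
    fin QM (insL Rs C) t (fin QM (insL Rs C) t r) = r := by
  rw [fin_QM, fin_QM]
  unfold opQ cadd
  split_ifs
  · exact add3_invol _ _ _
  · rfl
  · exact add3_invol _ _ _
  · rfl

/-! ## Rows -/

/-- Every prime of the row shows the digit `c`. -/
def Shows (t : ℕ) (R : Row) (c : ℕ) : Prop :=
  obs t R.2.1 R.2.2.1 = c ∧ ∀ p ∈ R.2.2.2, obs t R.2.1 p = c

theorem next_same (t b : ℕ) (c : ℕ) : ∀ (ps : List ℕ) (s : Qs), (∀ p ∈ ps, obs t b p = c) →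
    s.dig = toD c → (ps.map fun p => ((Kd.next, p, res b p) : MI Kd)).foldl (mQ t) s = s
  | [], _, _, _ => rfl
  | p :: ps, s, h, hs => by
    rw [List.map_cons, List.foldl_cons]
    have e : mQ t s (Kd.next, p, res b p) = s := by
      show (if toD (obs t b p) = s.dig then s else { s with mode := 1 }) = s
      rw [h p (by simp), hs, if_pos rfl]
    rw [e]
    exact next_same t b c ps s (fun p hp => h p (by simp [hp])) hs

theorem row_shows {t : ℕ} {R : Row} {c : ℕ} (h : Shows t R c) (s : Qs) :
    (rowI R).foldl (mQ t) s = lastQ R.1 { s with dig := toD c } := by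
  unfold rowI
  rw [List.foldl_cons, List.foldl_append]
  have e : mQ t s (Kd.first, R.2.2.1, res R.2.1 R.2.2.1) = { s with dig := toD c } := by
    show ({ s with dig := toD (obs t R.2.1 R.2.2.1) } : Qs) = _
    rw [h.1]
  rw [e, next_same t R.2.1 c _ _ h.2 rfl]
  rfl

theorem next_mode (t b : ℕ) : ∀ (ps : List ℕ) (s : Qs),
    ((ps.map fun p => ((Kd.next, p, res b p) : MI Kd)).foldl (mQ t) s).dig = s.dig ∧
    (s.mode = 1 ∨ (∃ p ∈ ps, toD (obs t b p) ≠ s.dig) →
      ((ps.map fun p => ((Kd.next, p, res b p) : MI Kd)).foldl (mQ t) s).mode = 1)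
  | [], s => ⟨rfl, fun h => h.elim id (by rintro ⟨p, hp, _⟩; simp at hp)⟩
  | p :: ps, s => by
    rw [List.map_cons, List.foldl_cons]
    have ih := next_mode t b ps (mQ t s (Kd.next, p, res b p))
    have e : mQ t s (Kd.next, p, res b p) =
      (if toD (obs t b p) = s.dig then s else { s with mode := 1 }) := rfl
    have hd : (mQ t s (Kd.next, p, res b p)).dig = s.dig := by
      rw [e]; split_ifs <;> rfl
    refine ⟨ih.1.trans hd, fun h => ih.2 ?_⟩
    rw [hd]
    rcases h with h | ⟨p', hp', h⟩
    · left
      rw [e]; split_ifs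
      · exact h
      · rfl
    · rcases List.mem_cons.1 hp' with rfl | hp'
      · left
        rw [e, if_neg h]
      · exact Or.inr ⟨p', hp', h⟩

theorem obs_le (t b p : ℕ) : obs t b p ≤ 5 := by
  unfold obs
  have := List.idxOf_le_length (a := t % p) (l := res b p)
  simpa [res] using this

theorem toD_inj {o o' : ℕ} (h : o ≤ 5) (h' : o' ≤ 5) (e : toD o = toD o') : o = o' := by
  unfold toD at e
  rw [dif_pos (by omega), dif_pos (by omega)] at e
  injection e

/-- Dead states stay dead. -/
theorem row_dead {t : ℕ} {R : Row} (s : Qs) (h : s.mode = 1 ∨ ¬ ∃ c < 5, Shows t R c) :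
    ((rowI R).foldl (mQ t) s).mode = 1 := by
  unfold rowI
  rw [List.foldl_cons, List.foldl_append]
  have e : mQ t s (Kd.first, R.2.2.1, res R.2.1 R.2.2.1) =
      { s with dig := toD (obs t R.2.1 R.2.2.1) } := rfl
  rw [e]
  set s1 : Qs := { s with dig := toD (obs t R.2.1 R.2.2.1) } with hs1
  obtain ⟨hd, hm⟩ := next_mode t R.2.1 R.2.2.2 s1
  set s2 := (R.2.2.2.map fun p => ((Kd.next, p, res R.2.1 p) : MI Kd)).foldl (mQ t) s1 with hs2
  show (lastQ R.1 s2).mode = 1
  by_cases h2 : s2.mode = 1
  · unfold lastQ
    rw [if_neg (by rw [h2]; decide), if_pos h2]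
    exact h2
  · have hd5 : s2.dig = 5 := by
      by_contra h5
      apply h2
      rcases h with h | h
      · exact hm (Or.inl h)
      · apply hm
        right
        by_contra hc
        push Not at hc
        apply h
        refine ⟨obs t R.2.1 R.2.2.1, ?_, rfl, ?_⟩
        · have h6 := obs_le t R.2.1 R.2.2.1
          rcases Nat.lt_or_ge (obs t R.2.1 R.2.2.1) 5 with h7 | h7
          · exact h7
          · exfalso
            apply h5
            rw [hd, hs1]
            have : obs t R.2.1 R.2.2.1 = 5 := by omega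
            simp only
            rw [this]
            rfl
        · intro p hp
          exact toD_inj (obs_le _ _ _) (obs_le _ _ _) (hc p hp)
    unfold lastQ
    rw [hd5]
    split_ifs <;> simp_all

/-- The row states. -/
def RowsShow (t : ℕ) : List Row → List ℕ → Prop
  | [], [] => True
  | R :: Rs, c :: cs => c < 5 ∧ Shows t R c ∧ RowsShow t Rs cs
  | _, _ => False

theorem rows_dead {t : ℕ} : ∀ (Rs : List Row) (s : Qs), (s.mode = 1 ∨ ¬ ∃ cs, RowsShow t Rs cs) →
    ((Rs.flatMap rowI).foldl (mQ t) s).mode = 1
  | [], s, h => by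
    rcases h with h | h
    · exact h
    · exact absurd ⟨[], trivial⟩ h
  | R :: Rs, s, h => by
    rw [List.flatMap_cons, List.foldl_append]
    apply rows_dead Rs
    by_cases h1 : ∃ cs, RowsShow t Rs cs
    · left
      apply row_dead
      rcases h with h | h
      · exact Or.inl h
      · right
        rintro ⟨c, hc, h2⟩
        obtain ⟨cs, hcs⟩ := h1
        exact h ⟨c :: cs, hc, h2, hcs⟩
    · exact Or.inr h1

/-- The operation once the value of the matrix is known. -/
def opA (s : Qs) (v : Bool) (r : B3) : B3 :=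
  if s.mode = 0 then cadd (xor v s.ν) s.i s.j r else if s.mode = 3 then add3 s.i s.j r else r

/-- The assignment given by digits. -/
def uOf (cs : List ℕ) : List Bool := cs.map fun c => decide (c = 2 ∨ c = 4)

theorem rows_const {t : ℕ} : ∀ (Rs : List Row) (cs : List ℕ) (s : Qs), RowsShow t Rs cs →
    (s.mode = 2 ∨ s.mode = 3) →
    (cs.all (fun c => c == 0) = true → ∃ d, (Rs.flatMap rowI).foldl (mQ t) s = { s with dig := d }) ∧
    (cs.all (fun c => c == 0) = false → ((Rs.flatMap rowI).foldl (mQ t) s).mode = 1)
  | [], [], s, _, _ => ⟨fun _ => ⟨s.dig, rfl⟩, fun h => by simp at h⟩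
  | [], _ :: _, _, h, _ => h.elim
  | _ :: _, [], _, h, _ => h.elim
  | R :: Rs, c :: cs, s, h, hs => by
    rw [List.flatMap_cons, List.foldl_append, row_shows h.2.1]
    have hc5 : c < 5 := h.1
    have h0 : s.mode ≠ 0 := by rcases hs with hs | hs <;> rw [hs] <;> decide
    have h1 : s.mode ≠ 1 := by rcases hs with hs | hs <;> rw [hs] <;> decide
    have e : lastQ R.1 { s with dig := toD c } =
        if toD c = 0 then { s with dig := toD c } else { s with dig := toD c, mode := 1 } := by
      unfold lastQ
      simp only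
      rw [if_neg h0, if_neg h1]
    rw [e]
    by_cases hc : c = 0
    · subst hc
      rw [if_pos (by rfl)]
      have ih := rows_const Rs cs { s with dig := toD 0 } h.2.2 hs
      simp only [List.all_cons, beq_self_eq_true, Bool.true_and]
      refine ⟨fun h3 => ?_, ih.2⟩
      obtain ⟨d, hd⟩ := ih.1 h3
      exact ⟨d, hd⟩
    · have hd : toD c ≠ 0 := by
        intro e2
        exact hc (toD_inj (o' := 0) (by omega) (by omega) e2)
      rw [if_neg hd]
      have hc' : (c == 0) = false := by simpa using hc
      simp only [List.all_cons, hc', Bool.false_and]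
      refine ⟨fun h3 => by simp at h3, fun _ => ?_⟩
      exact rows_dead Rs _ (Or.inl rfl)

theorem act_cons (q : Bool) (qs : List Bool) (c : ℕ) (cs : List ℕ) (i j : Fin 3) (ν : Bool)
    (φ : List Bool → Bool) (r : B3) : act (q :: qs) (c :: cs) i j ν φ r =
      if c = 0 then (if cs.all (fun c => c == 0) then cadd (cpres q ν) i j r else r)
      else if c = 1 ∨ c = 3 then act qs cs i (th i j) (!q) (fun u => φ (false :: u)) r
      else act qs cs (th i j) j (!q) (fun u => φ (true :: u)) r := rfl

theorem rows_act {t : ℕ} : ∀ (Rs : List Row) (cs : List ℕ) (s : Qs) (φ : List Bool → Bool) (r : B3),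
    RowsShow t Rs cs → s.mode = 0 →
    opA ((Rs.flatMap rowI).foldl (mQ t) s) (φ (uOf cs)) r =
      act (Rs.map fun R => R.1) cs s.i s.j s.ν φ r
  | [], [], s, φ, r, _, hs => by
    show opA s _ r = _
    unfold opA
    rw [if_pos hs]
    rfl
  | [], _ :: _, _, _, _, h, _ => h.elim
  | _ :: _, [], _, _, _, h, _ => h.elim
  | R :: Rs, c :: cs, s, φ, r, h, hs => by
    rw [List.flatMap_cons, List.foldl_append, row_shows h.2.1]
    have hc5 : c < 5 := h.1
    have hd5 : toD c ≠ 5 := by
      intro e2
      have := toD_inj (o' := 5) (by omega) (by omega) e2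
      omega
    show _ = act (R.1 :: Rs.map fun R => R.1) (c :: cs) s.i s.j s.ν φ r
    rw [act_cons]
    by_cases hc : c = 0
    · subst hc
      rw [if_pos rfl]
      have e : lastQ R.1 { s with dig := toD 0 } =
          { s with dig := toD 0, mode := if cpres R.1 s.ν then 3 else 2 } := by
        unfold lastQ
        simp only
        rw [if_pos hs, if_neg (by decide), if_pos (by rfl)]
      rw [e]
      have hm : ({ s with dig := toD 0, mode := if cpres R.1 s.ν then 3 else 2 } : Qs).mode = 2 ∨
          ({ s with dig := toD 0, mode := if cpres R.1 s.ν then 3 else 2 } : Qs).mode = 3 := by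
        simp only
        split_ifs
        · right; rfl
        · left; rfl
      obtain ⟨k1, k2⟩ := rows_const Rs cs _ h.2.2 hm
      by_cases hz : cs.all (fun c => c == 0) = true
      · rw [if_pos hz]
        obtain ⟨d, hd⟩ := k1 hz
        rw [hd]
        unfold opA cadd
        simp only
        cases cpres R.1 s.ν <;> simp
      · rw [if_neg hz]
        have := k2 (by simpa using hz)
        unfold opA
        rw [this, if_neg (by decide), if_neg (by decide)]
    · rw [if_neg hc]
      have hd0 : toD c ≠ 0 := by
        intro e2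
        exact hc (toD_inj (o' := 0) (by omega) (by omega) e2)
      by_cases h13 : c = 1 ∨ c = 3
      · rw [if_pos h13]
        have e : lastQ R.1 { s with dig := toD c } =
            { s with dig := toD c, j := th s.i s.j, ν := !R.1 } := by
          unfold lastQ
          simp only
          rw [if_pos hs, if_neg hd5, if_neg hd0, if_pos]
          rcases h13 with rfl | rfl
          · left; rfl
          · right; rfl
        rw [e]
        have hu : uOf (c :: cs) = false :: uOf cs := by
          unfold uOf
          rw [List.map_cons]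
          congr 1
          rcases h13 with rfl | rfl <;> rfl
        rw [hu]
        exact rows_act Rs cs _ (fun u => φ (false :: u)) r h.2.2 hs
      · rw [if_neg h13]
        have e : lastQ R.1 { s with dig := toD c } =
            { s with dig := toD c, i := th s.i s.j, ν := !R.1 } := by
          unfold lastQ
          simp only
          rw [if_pos hs, if_neg hd5, if_neg hd0, if_neg]
          rintro (e2 | e2)
          · exact h13 (Or.inl (toD_inj (o' := 1) (by omega) (by omega) e2))
          · exact h13 (Or.inr (toD_inj (o' := 3) (by omega) (by omega) e2))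
        rw [e]
        have hu : uOf (c :: cs) = true :: uOf cs := by
          unfold uOf
          rw [List.map_cons]
          congr 1
          have : c = 2 ∨ c = 4 := by omega
          rcases this with rfl | rfl <;> rfl
        rw [hu]
        exact rows_act Rs cs _ (fun u => φ (true :: u)) r h.2.2 hs

/-! ## Clauses -/

theorem shows_getD {t : ℕ} : ∀ (Rs : List Row) (cs : List ℕ) (v : ℕ), RowsShow t Rs cs →
    v < Rs.length → obs t (Rs.getD v (true, 0, 1, [])).2.1 (Rs.getD v (true, 0, 1, [])).2.2.1 =
      cs.getD v 0 ∧ v < cs.length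
  | [], _, _, _, hv => by simp at hv
  | _ :: _, [], _, h, _ => h.elim
  | R :: Rs, c :: cs, 0, h, _ => by
    refine ⟨?_, by simp⟩
    simpa using h.2.1.1
  | R :: Rs, c :: cs, v + 1, h, hv => by
    have := shows_getD Rs cs v h.2.2 (by simpa using hv)
    simpa using this

theorem lits_fold {t : ℕ} {Rs : List Row} {cs : List ℕ} (h : RowsShow t Rs cs) :
    ∀ (c : List (Bool × ℕ)) (s : Qs), (∀ l ∈ c, l.2 < Rs.length) →
    (c.map (fun l => ((Kd.lit l.1, (Rs.getD l.2 (true, 0, 1, [])).2.2.1,
      res (Rs.getD l.2 (true, 0, 1, [])).2.1 (Rs.getD l.2 (true, 0, 1, [])).2.2.1) : MI Kd))).foldl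
        (mQ t) s =
      { s with cl := s.cl || c.any fun l => (uOf cs).getD l.2 false == l.1 }
  | [], s, _ => by simp
  | l :: c, s, hc => by
    rw [List.map_cons, List.foldl_cons]
    obtain ⟨h1, h2⟩ := shows_getD Rs cs l.2 h (hc l (by simp))
    have h3 : (uOf cs).getD l.2 false = decide (cs.getD l.2 0 = 2 ∨ cs.getD l.2 0 = 4) := by
      unfold uOf
      rw [List.getD_eq_getElem _ _ (by simpa using h2), List.getElem_map,
        List.getD_eq_getElem _ _ h2]
    have e : mQ t s (Kd.lit l.1, (Rs.getD l.2 (true, 0, 1, [])).2.2.1,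
        res (Rs.getD l.2 (true, 0, 1, [])).2.1 (Rs.getD l.2 (true, 0, 1, [])).2.2.1) =
        { s with cl := s.cl || ((uOf cs).getD l.2 false == l.1) } := by
      show (if decide (obs t (Rs.getD l.2 (true, 0, 1, [])).2.1
        (Rs.getD l.2 (true, 0, 1, [])).2.2.1 = 2 ∨ obs t (Rs.getD l.2 (true, 0, 1, [])).2.1
        (Rs.getD l.2 (true, 0, 1, [])).2.2.1 = 4) = l.1 then { s with cl := true } else s) = _
      rw [h1, ← h3]
      by_cases e : (uOf cs).getD l.2 false = l.1
      · rw [if_pos e, e]
        simp
      · rw [if_neg e]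
        have : ((uOf cs).getD l.2 false == l.1) = false := by simpa using e
        rw [this]
        simp
    rw [e, lits_fold h c _ fun l hl => hc l (by simp [hl])]
    simp only [List.any_cons]
    rw [Bool.or_assoc]

theorem clauses_fold {t : ℕ} {Rs : List Row} {cs : List ℕ} (h : RowsShow t Rs cs) :
    ∀ (C : List (List (Bool × ℕ))) (s : Qs), (∀ c ∈ C, ∀ l ∈ c, l.2 < Rs.length) →
    ∃ b, (C.flatMap (clI Rs)).foldl (mQ t) s =
      { s with cl := b, al := s.al && evc (uOf cs) C }
  | [], s, _ => ⟨s.cl, by simp [evc]⟩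
  | c :: C, s, hC => by
    rw [List.flatMap_cons, List.foldl_append]
    unfold clI
    rw [List.foldl_cons, List.foldl_append]
    have e1 : mQ t s (Kd.clStart, 1, []) = { s with cl := false } := rfl
    rw [e1, lits_fold h c _ (hC c (by simp))]
    obtain ⟨b, hb⟩ := clauses_fold h C (mQ t { s with cl := false || (c.any fun l =>
      (uOf cs).getD l.2 false == l.1) } (Kd.clEnd, 1, [])) fun c hc => hC c (by simp [hc])
    refine ⟨b, ?_⟩
    refine hb.trans ?_
    show ({ s with cl := b, al := (s.al && (false || (c.any fun l =>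
      (uOf cs).getD l.2 false == l.1))) && evc (uOf cs) C } : Qs) = _
    congr 1
    unfold evc
    rw [List.all_cons, Bool.false_or, Bool.and_assoc]

theorem clauses_mode {t : ℕ} {Rs : List Row} : ∀ (L : List (MI Kd)) (s : Qs),
    (∀ m ∈ L, m.1 = Kd.clStart ∨ m.1 = Kd.clEnd ∨ ∃ b, m.1 = Kd.lit b) →
    (L.foldl (mQ t) s).mode = s.mode
  | [], _, _ => rfl
  | m :: L, s, h => by
    rw [List.foldl_cons, clauses_mode (Rs := Rs) L _ fun m hm => h m (by simp [hm])]
    obtain ⟨k, p, as⟩ := m
    rcases h (k, p, as) (by simp) with e | e | ⟨b, e⟩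
    · simp only at e; subst e; rfl
    · simp only at e; subst e; rfl
    · simp only at e; subst e
      show (if decide (_ ∨ _) = b then ({ s with cl := true } : Qs) else s).mode = s.mode
      split_ifs <;> rfl

/-- The operation at time `t` is determined by the digits that the rows show. -/
theorem fin_shows {t : ℕ} {Rs : List Row} {C : List (List (Bool × ℕ))} {cs : List ℕ}
    (h : RowsShow t Rs cs) (hC : ∀ c ∈ C, ∀ l ∈ c, l.2 < Rs.length) (r : B3) :
    fin QM (insL Rs C) t r = act (Rs.map fun R => R.1) cs 0 1 false (fun u => evc u C) r := by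
  rw [fin_QM]
  unfold finQ
  set s := (Rs.flatMap rowI).foldl (mQ t) ⟨0, 1, false, 0, 0, false, true⟩ with hs
  obtain ⟨b, hb⟩ := clauses_fold h C s hC
  rw [hb]
  have hal : s.al = true := by
    -- the rows do not change this component
    have key : ∀ (L : List (MI Kd)) (s : Qs), (∀ m ∈ L, m.1 = Kd.first ∨ m.1 = Kd.next ∨
        ∃ q, m.1 = Kd.last q) → (L.foldl (mQ t) s).al = s.al := by
      intro L
      induction L with
      | nil => intro _ _; rfl
      | cons m L ih =>
        intro s hm
        rw [List.foldl_cons, ih _ fun m h => hm m (by simp [h])]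
        obtain ⟨k, p, as⟩ := m
        rcases hm (k, p, as) (by simp) with e | e | ⟨q, e⟩
        · simp only at e; subst e; rfl
        · simp only at e; subst e
          show (if _ = _ then s else ({ s with mode := 1 } : Qs)).al = s.al
          split_ifs <;> rfl
        · simp only at e; subst e
          show (lastQ q s).al = s.al
          unfold lastQ
          split_ifs <;> rfl
    rw [hs, key]
    intro m hm
    obtain ⟨R, _, h⟩ := List.mem_flatMap.1 hm
    unfold rowI at h
    rcases List.mem_cons.1 h with rfl | h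
    · simp
    · rcases List.mem_append.1 h with h | h
      · obtain ⟨p, _, rfl⟩ := List.mem_map.1 h
        simp
      · simp only [List.mem_singleton] at h
        subst h
        simp
  have e : opQ { s with cl := b, al := s.al && evc (uOf cs) C } r =
      opA s (evc (uOf cs) C) r := by
    unfold opQ opA
    simp only
    rw [hal, Bool.true_and]
  rw [e, hs]
  exact rows_act Rs cs _ (fun u => evc u C) r h rfl

theorem fin_dead {t : ℕ} {Rs : List Row} {C : List (List (Bool × ℕ))}
    (h : ¬ ∃ cs, RowsShow t Rs cs) (r : B3) : fin QM (insL Rs C) t r = r := by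
  rw [fin_QM]
  unfold finQ
  have h1 := rows_dead Rs ⟨0, 1, false, 0, 0, false, true⟩ (Or.inr h)
  have h2 : ((C.flatMap (clI Rs)).foldl (mQ t) ((Rs.flatMap rowI).foldl (mQ t)
      ⟨0, 1, false, 0, 0, false, true⟩)).mode = 1 := by
    rw [clauses_mode (Rs := Rs), h1]
    intro m hm
    obtain ⟨c, _, h⟩ := List.mem_flatMap.1 hm
    unfold clI at h
    rcases List.mem_cons.1 h with rfl | h
    · simp
    · rcases List.mem_append.1 h with h | h
      · obtain ⟨p, _, rfl⟩ := List.mem_map.1 h
        simp
      · simp only [List.mem_singleton] at h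
        subst h
        simp
  unfold opQ
  rw [h2, if_neg (by decide), if_neg (by decide)]

end Pool.Agent.V7H67.NM
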