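import Pool.Agent.V7H67.NM.Code

/-!
# The program is computed in polynomial time
-/

namespace Pool.Agent.V7H67.NM

open Pool.Agent.NPC Pool.Agent.V7H67.LI Pool.Agent.H623R2.PS Pool.Agent.H656R2.AK

variable {α : Type} [TEnc α]

@[fun_prop]
theorem poly_prod {l : α → List ℕ} (hl : NPC.Poly l) : NPC.Poly (fun a => (l a).prod) := by
  obtain ⟨r, hr⟩ := hl.sz_le
  refine (NPC.Poly.foldr (s := fun _ => 1) (F := fun _ x s => x * s) hl (NPC.Poly.const 1)
    (NPC.Poly.mul (NPC.Poly.fst (NPC.Poly.snd NPC.Poly.id)) (NPC.Poly.snd (NPC.Poly.snd NPC.Poly.id)))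
    (Polynomial.C 4 * r + Polynomial.C 1) ?_).congr fun a => ?_
  · intro a k hk
    have key : ∀ l : List ℕ, (l.foldr (fun x s => x * s) 1).size ≤ sz l := by
      intro l
      induction l with
      | nil => simp
      | cons x l ih =>
        rw [List.foldr_cons]
        set s := l.foldr (fun x s => x * s) 1
        have h1 := Nat.lt_size_self x
        have h2 := Nat.lt_size_self s
        have h3 : x * s < 2 ^ (x.size + s.size) := by
          rw [pow_add]
          exact Nat.mul_lt_mul'' h1 h2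
        have h4 := Nat.size_le.2 h3
        have h5 := size_le_sz x
        simp
        omega
    have h1 := sz_nat_le (((l a).drop k).foldr (fun x s => x * s) 1)
    have h2 := key ((l a).drop k)
    have h3 := NPC.Poly.sz_drop_le (l a) k
    have h4 := hr a
    simp only [Polynomial.eval_add, Polynomial.eval_mul, Polynomial.eval_C]
    omega
  · rfl

/-! ## Poly-ness of the pieces of the program -/

@[fun_prop]
theorem poly_mulP {a' : α → RG} {w : α → List (Bool × RG)} (ha : Poly a') (hw : Poly w) :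
    Poly (fun a => mulP (a' a) (w a)) := by
  unfold mulP
  fun_prop

@[fun_prop]
theorem poly_iw {w : α → List (Bool × RG)} (hw : Poly w) : Poly (fun a => iw (w a)) := by
  unfold iw
  fun_prop

@[fun_prop]
theorem poly_ip {w : α → List (Ins RG)} (hw : Poly w) : Poly (fun a => ip (w a)) := by
  unfold ip
  fun_prop

@[fun_prop]
theorem poly_mv {x y : α → RG} (hx : Poly x) (hy : Poly y) : Poly (fun a => mv (x a) (y a)) := by
  unfold mv
  fun_prop

section gate

variable {G : Type} [Group G] (g : Gate G)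

@[fun_prop]
theorem poly_gateW {i q b : α → ℕ} {s : α → B3 × Qs} (hi : Poly i) (hs : Poly s) (hq : Poly q)
    (hb : Poly b) : Poly (fun a => (gateW g (i a) (s a) (q a) (b a) : List (Bool × RG))) := by
  unfold gateW sub2
  fun_prop

theorem poly_pc : Poly (fun p : ℕ × MI Kd × (B3 × Qs) => pc g QM p.1 p.2.1 p.2.2) := by
  have hr : Poly (fun p : ℕ × MI Kd × (B3 × Qs) => List.range p.2.1.2.2.length) :=
    NPC.Poly.range_length (by fun_prop)
  have f1 : NPC.Poly (fun p : (ℕ × MI Kd × (B3 × Qs)) × ℕ =>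
      (gateW g p.1.1 p.1.2.2 p.1.2.1.2.1 (p.1.2.1.2.2.getD p.2 0) : List (Bool × RG))) := by
    fun_prop
  have f2 : NPC.Poly (fun p : (ℕ × MI Kd × (B3 × Qs)) × ℕ =>
      (Reg.D (p.1.1 + 1) (QM.δ p.1.2.1.1 p.2 p.1.2.2) : RG)) := by
    fun_prop
  have h1 : NPC.Poly (fun p : ℕ × MI Kd × (B3 × Qs) => (List.range p.2.1.2.2.length).flatMap fun k =>
      mulP (Reg.D (p.1 + 1) (QM.δ p.2.1.1 k p.2.2) : RG) (gateW g p.1 p.2.2 p.2.1.2.1
        (p.2.1.2.2.getD k 0))) :=
    NPC.Poly.flatMap (F := fun (p : ℕ × MI Kd × (B3 × Qs)) (k : ℕ) =>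
      mulP (Reg.D (p.1 + 1) (QM.δ p.2.1.1 k p.2.2) : RG) (gateW g p.1 p.2.2 p.2.1.2.1
        (p.2.1.2.2.getD k 0))) hr (poly_mulP f2 f1)
  have h2 : NPC.Poly (fun p : ℕ × MI Kd × (B3 × Qs) => (List.range p.2.1.2.2.length).flatMap fun k =>
      iw (gateW g p.1 p.2.2 p.2.1.2.1 (p.2.1.2.2.getD k 0) : List (Bool × RG))) :=
    NPC.Poly.flatMap (F := fun (p : ℕ × MI Kd × (B3 × Qs)) (k : ℕ) =>
      iw (gateW g p.1 p.2.2 p.2.1.2.1 (p.2.1.2.2.getD k 0) : List (Bool × RG))) hr (poly_iw f1)
  have h3 : NPC.Poly (fun p : ℕ × MI Kd × (B3 × Qs) => ((false, Reg.D p.1 p.2.2) : Bool × RG)) := by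
    fun_prop
  have h4 : NPC.Poly (fun p : ℕ × MI Kd × (B3 × Qs) =>
      (Reg.D (p.1 + 1) (QM.δ p.2.1.1 p.2.1.2.2.length p.2.2) : RG)) := by
    fun_prop
  exact NPC.Poly.append h1 (poly_mulP h4 (NPC.Poly.cons h3 h2))

@[fun_prop]
theorem poly_pc' {i : α → ℕ} {m : α → MI Kd} {s : α → B3 × Qs} (hi : Poly i) (hm : Poly m)
    (hs : Poly s) : Poly (fun a => pc g QM (i a) (m a) (s a)) :=
  (poly_pc g).comp (NPC.Poly.pair hi (NPC.Poly.pair hm hs))

@[fun_prop]
theorem poly_stepP {i : α → ℕ} {m : α → MI Kd} (hi : Poly i) (hm : Poly m) :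
    Poly (fun a => stepP g QM (i a) (m a)) := by
  have hF : NPC.Poly (fun p : α × (B3 × Qs) => pc g QM (i p.1) (m p.1) p.2) :=
    poly_pc' g (hi.comp (NPC.Poly.fst NPC.Poly.id)) (hm.comp (NPC.Poly.fst NPC.Poly.id))
      (NPC.Poly.snd NPC.Poly.id)
  have hl : NPC.Poly (fun _ : α => allL (B3 × Qs)) := NPC.Poly.const _
  exact NPC.Poly.flatMap (F := fun (a : α) (s : B3 × Qs) => pc g QM (i a) (m a) s) hl hF

theorem steps_eq : ∀ (L : List (MI Kd)) (i : ℕ), steps g QM i L =
    (L.zipIdx i).flatMap fun p => stepP g QM p.2 p.1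
  | [], _ => rfl
  | m :: L, i => by
    rw [List.zipIdx_cons, List.flatMap_cons, ← steps_eq L (i + 1)]
    rfl

theorem poly_steps1 : NPC.Poly (fun p : α × (MI Kd × ℕ) => stepP g QM p.2.2 p.2.1) :=
  poly_stepP g (NPC.Poly.snd (NPC.Poly.snd NPC.Poly.id)) (NPC.Poly.fst (NPC.Poly.snd NPC.Poly.id))

theorem poly_steps2 {L : α → List (MI Kd)} (hL : NPC.Poly L)
    (hF : NPC.Poly (fun p : α × (MI Kd × ℕ) => stepP g QM p.2.2 p.2.1)) :
    NPC.Poly (fun a => (L a).zipIdx.flatMap fun p => stepP g QM p.2 p.1) := by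
  have h : NPC.Poly (fun a => (L a).zipIdx) := NPC.Poly.zipIdx hL
  exact NPC.Poly.flatMap (F := fun (_ : α) (p : MI Kd × ℕ) => stepP g QM p.2 p.1) h hF

theorem poly_steps3 {L : α → List (MI Kd)}
    (h2 : NPC.Poly (fun a => (L a).zipIdx.flatMap fun p => stepP g QM p.2 p.1)) :
    NPC.Poly (fun a => steps g QM 0 (L a)) :=
  h2.congr fun a => (steps_eq g (L a) 0).symm

theorem poly_steps {L : α → List (MI Kd)} (hL : NPC.Poly L) :
    NPC.Poly (fun a => steps g QM 0 (L a)) :=
  poly_steps3 g (poly_steps2 g hL (poly_steps1 g))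

theorem poly_cmp {b : Bool} {L : α → List (MI Kd)} (hL : Poly L) :
    Poly (fun a => cmp g QM b (L a)) := by
  unfold cmp
  exact NPC.Poly.append (NPC.Poly.const _) (poly_steps g hL)

theorem poly_outP {b sgn : Bool} {M : α → ℕ} (hM : Poly M) :
    Poly (fun a => outP QM b sgn (M a)) := by
  unfold outP
  refine NPC.Poly.flatMap (F := fun a s => mulP (Reg.R (!b) (QM.r s)) [(sgn, Reg.D (M a) s)])
    (NPC.Poly.const _) ?_
  have h1 : Poly (fun p : α × (B3 × Qs) => QM.r p.2) := NPC.Poly.fst (NPC.Poly.snd NPC.Poly.id)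
  fun_prop

theorem poly_blk {b sgn : Bool} {L : α → List (MI Kd)} (hL : Poly L) :
    Poly (fun a => blk g QM b sgn (L a)) := by
  unfold blk
  have h1 := poly_cmp g (b := b) hL
  have h2 : NPC.Poly (fun a => outP QM b sgn (L a).length) := poly_outP (NPC.Poly.length hL)
  exact NPC.Poly.append h1 (NPC.Poly.append h2 (poly_ip h1))

theorem poly_rotP : ∀ {α : Type} [TEnc α] {q : α → ℕ}, UPoly q →
    Poly (fun a => (rotP (q a) : List (Ins RG))) := by
  intro α _ q hq
  have hq' := hq.toPoly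
  unfold rotP
  refine NPC.Poly.append ?_ ?_
  · exact NPC.Poly.flatMap (F := fun a j => mv (Reg.C false (q a) j) (Reg.C true (q a) ((j + 1) % q a)))
      hq.range (by fun_prop)
  · exact NPC.Poly.flatMap (F := fun a j => mv (Reg.C true (q a) j) (Reg.C false (q a) j))
      hq.range (by fun_prop)

theorem poly_rotA {ps : α → List ℕ} {X : α → ℕ} (hps : Poly ps) (hX : UPoly X)
    (h : ∀ a, ∀ q ∈ ps a, q ≤ X a) : Poly (fun a => (rotA (ps a) : List (Ins RG))) := by
  have h1 : UPoly (fun p : α × ℕ => min p.2 (X p.1)) :=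
    UPoly.of_le (NPC.Poly.min (NPC.Poly.snd NPC.Poly.id) (hX.toPoly.comp (NPC.Poly.fst NPC.Poly.id)))
      (hX.comp (NPC.Poly.fst NPC.Poly.id)) fun _ => min_le_right _ _
  have h2 : Poly (fun a => (ps a).flatMap fun q => (rotP (min q (X a)) : List (Ins RG))) :=
    NPC.Poly.flatMap (F := fun a q => (rotP (min q (X a)) : List (Ins RG))) hps (poly_rotP h1)
  refine h2.congr fun a => ?_
  unfold rotA
  rw [List.flatMap_def, List.flatMap_def]
  congr 1
  refine List.map_congr_left fun q hq => ?_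
  rw [min_eq_left (h a q hq)]

theorem poly_unitP {L : α → List (MI Kd)} {ps : α → List ℕ} {X : α → ℕ} (hL : Poly L)
    (hps : Poly ps) (hX : UPoly X) (h : ∀ a, ∀ q ∈ ps a, q ≤ X a) :
    Poly (fun a => unitP g QM (L a) (ps a)) := by
  unfold unitP
  have h1 := poly_rotA hps hX h
  have h2 := poly_blk g (b := false) (sgn := false) hL
  have h3 := poly_blk g (b := true) (sgn := true) hL
  exact NPC.Poly.append h2 (NPC.Poly.append h3 (NPC.Poly.append (NPC.Poly.const _) h1))

end gate

/-! ## The instructions -/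

@[fun_prop]
theorem poly_res {b p : α → ℕ} (hb : Poly b) (hp : Poly p) : Poly (fun a => res (b a) (p a)) := by
  unfold res
  fun_prop

theorem poly_last {q : α → Bool} (hq : Poly q) : Poly (fun a => Kd.last (q a)) :=
  (poly_finite Kd.last).comp hq

theorem poly_lit {q : α → Bool} (hq : Poly q) : Poly (fun a => Kd.lit (q a)) :=
  (poly_finite Kd.lit).comp hq

attribute [local fun_prop] poly_last poly_lit

theorem poly_rowI : Poly rowI := by
  unfold rowI
  fun_prop

theorem poly_clI : Poly (fun p : List Row × List (Bool × ℕ) => clI p.1 p.2) := by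
  unfold clI
  fun_prop

theorem poly_insL {Rs : α → List Row} {C : α → List (List (Bool × ℕ))} (hR : Poly Rs)
    (hC : Poly C) : Poly (fun a => insL (Rs a) (C a)) := by
  unfold insL
  have h1 : Poly (fun a => (Rs a).flatMap rowI) := NPC.Poly.flatMap (F := fun _ R => rowI R) hR
    (poly_rowI.comp (NPC.Poly.snd NPC.Poly.id))
  have h2 : Poly (fun a => (C a).flatMap (clI (Rs a))) := NPC.Poly.flatMap
    (F := fun a c => clI (Rs a) c) hC (poly_clI.comp (NPC.Poly.pair (hR.comp (NPC.Poly.fst NPC.Poly.id))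
      (NPC.Poly.snd NPC.Poly.id)))
  exact NPC.Poly.append h1 (NPC.Poly.append h2 (NPC.Poly.const _))

/-! ## Primes and weights -/

theorem tri_eq (l : ℕ) : tri l = l * (l + 1) / 2 := by
  have := two_tri l
  omega

@[fun_prop]
theorem poly_tri {l : α → ℕ} (hl : Poly l) : Poly (fun a => tri (l a)) := by
  simp only [tri_eq]
  fun_prop

theorem upoly_tri {l : α → ℕ} (hl : UPoly l) : UPoly (fun a => tri (l a)) := by
  refine UPoly.of_le (poly_tri hl.toPoly) (UPoly.mul hl (UPoly.add hl (UPoly.const 1))) fun a => ?_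
  have := two_tri (l a)
  omega

theorem upoly_bX {n : α → ℕ} (hn : UPoly n) : UPoly (fun a => bX (n a)) := by
  have h1 : UPoly (fun a => n a + 8) := UPoly.add hn (UPoly.const 8)
  have h2 := UPoly.mul h1 (UPoly.mul h1 (UPoly.mul h1 h1))
  refine h2.congr fun a => ?_
  unfold bX
  congr 1
  ring

theorem poly_plist {X : α → ℕ} (hX : UPoly X) : Poly (fun a => plist (X a)) := by
  have hXp := hX.toPoly
  have h1 : Poly (fun a => (List.range (X a)).filter fun q => decide (7 ≤ q) &&
      (decide (2 ≤ q) && (List.range (X a)).all fun d => decide (d < 2) ||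
        (decide (q ≤ d) || !decide (q % d = 0)))) := by
    refine NPC.Poly.filter (p := fun a q => decide (7 ≤ q) &&
      (decide (2 ≤ q) && (List.range (X a)).all fun d => decide (d < 2) ||
        (decide (q ≤ d) || !decide (q % d = 0)))) hX.range ?_
    refine NPC.Poly.and (by fun_prop) (NPC.Poly.and (by fun_prop) ?_)
    exact NPC.Poly.all (p := fun (p : α × ℕ) d => decide (d < 2) ||
        (decide (p.2 ≤ d) || !decide (p.2 % d = 0))) (hX.range.comp (NPC.Poly.fst NPC.Poly.id))
        (by fun_prop)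
  refine h1.congr fun a => ?_
  unfold plist
  refine List.filter_congr fun q hq => ?_
  have hqX := List.mem_range.1 hq
  congr 1
  unfold isPb
  congr 1
  rw [Bool.eq_iff_iff, List.all_eq_true, List.all_eq_true]
  constructor
  · intro h d hd
    have hdq := List.mem_range.1 hd
    have := h d (List.mem_range.2 (by omega))
    have e : decide (q ≤ d) = false := by simpa using hdq
    rwa [e, Bool.false_or] at this
  · intro h d hd
    by_cases hdq : q ≤ d
    · simp [hdq]
    · have := h d (List.mem_range.2 (by omega))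
      have e : decide (q ≤ d) = false := by simpa using hdq
      rwa [e, Bool.false_or]

theorem prod_range_list (f : ℕ → ℕ) (n : ℕ) : ((List.range n).map f).prod =
    ∏ i ∈ Finset.range n, f i := by
  induction n with
  | zero => rfl
  | succ n ih => rw [List.range_succ, List.map_append, List.prod_append, ih,
      Finset.prod_range_succ]; simp

theorem poly_pk {n k : α → ℕ} (hn : UPoly n) (hk : Poly k) : Poly (fun a => pk (n a) (k a)) := by
  unfold pk
  exact NPC.Poly.getD (poly_plist (upoly_bX hn)) hk (NPC.Poly.const 0)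

theorem poly_Nn {n : α → ℕ} (hn : UPoly n) : Poly (fun a => Nn (pk (n a)) (n a)) := by
  unfold Nn
  simp only [← prod_range_list]
  refine poly_prod (NPC.Poly.map (F := fun a k => pk (n a) k) (upoly_tri hn).range ?_)
  exact poly_pk (hn.comp (NPC.Poly.fst NPC.Poly.id)) (NPC.Poly.snd NPC.Poly.id)

theorem poly_Qd {n l : α → ℕ} (hn : UPoly n) (hl : UPoly l) :
    Poly (fun a => Qd (pk (n a)) (l a)) := by
  unfold Qd
  simp only [← prod_range_list]
  have hl' := hl.toPoly
  refine poly_prod (NPC.Poly.map (F := fun a k => pk (n a) (tri (l a) + k))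
    (UPoly.add hl (UPoly.const 1)).range ?_)
  exact poly_pk (hn.comp (NPC.Poly.fst NPC.Poly.id)) (by fun_prop)

theorem poly_rowsOf : Poly (fun Q : QF => rowsOf (pk Q.1.length) Q.1) := by
  have hn : UPoly (fun Q : QF => Q.1.length) := UPoly.length (by fun_prop)
  have hn' : UPoly (fun p : QF × ℕ => p.1.1.length) := hn.comp (NPC.Poly.fst NPC.Poly.id)
  have hl : UPoly (fun p : QF × ℕ => min p.2 p.1.1.length) :=
    UPoly.of_le (by fun_prop) hn' fun _ => min_le_right _ _
  have h1 : Poly (fun Q : QF => (List.range Q.1.length).map fun l =>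
      rowOf (pk Q.1.length) Q.1 (min l Q.1.length)) := by
    have e1 := poly_Qd hn' hl
    have e2 : Poly (fun p : QF × ℕ => Nn (pk p.1.1.length) p.1.1.length) := poly_Nn hn'
    have e3 : Poly (fun p : QF × ℕ => pk p.1.1.length (tri (min p.2 p.1.1.length))) :=
      poly_pk hn' (by fun_prop)
    have e4 : Poly (fun p : QF × ℕ => (List.range (min p.2 p.1.1.length)).map fun k =>
        pk p.1.1.length (tri (min p.2 p.1.1.length) + 1 + k)) :=
      NPC.Poly.map (F := fun (p : QF × ℕ) k => pk p.1.1.length (tri (min p.2 p.1.1.length) + 1 + k))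
        hl.range (poly_pk (hn'.comp (NPC.Poly.fst NPC.Poly.id)) (by fun_prop))
    have e0 : NPC.Poly (fun p : QF × ℕ => p.1.1.getD (min p.2 p.1.1.length) true) := by fun_prop
    have e5 : NPC.Poly (fun p : QF × ℕ => rowOf (pk p.1.1.length) p.1.1 (min p.2 p.1.1.length)) :=
      NPC.Poly.pair e0 (NPC.Poly.pair (NPC.Poly.div e2 e1) (NPC.Poly.pair e3 e4))
    exact NPC.Poly.map (F := fun (Q : QF) l => rowOf (pk Q.1.length) Q.1 (min l Q.1.length))
      hn.range e5
  refine h1.congr fun Q => ?_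
  unfold rowsOf
  refine List.map_congr_left fun l hl => ?_
  rw [min_eq_left (List.mem_range.1 hl).le]

end Pool.Agent.V7H67.NM
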