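import Pool.Agent.V7H67.NM.QMach

/-!
# Rows of primes

Level `l` has `l + 1` primes, with product `Qd l`; the weight of the level is `N / Qd l`, where `N`
is the product of all primes. For `t < N` the rows show the digits of `t`.
-/

namespace Pool.Agent.V7H67.NM

open Pool.Agent.H623R2.PS Pool.Agent.H656R2.AK

/-- Triangular numbers. -/
def tri : ℕ → ℕ
  | 0 => 0
  | l + 1 => tri l + (l + 1)

theorem tri_mono {l l' : ℕ} (h : l ≤ l') : tri l ≤ tri l' := by
  induction h with
  | refl => exact le_rfl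
  | step _ ih => exact ih.trans (Nat.le_add_right _ _)

/-- Weighted sums. -/
def wsum : List ℕ → List ℕ → ℕ
  | b :: bs, c :: cs => c * b + wsum bs cs
  | _, _ => 0

theorem dg_some : ∀ (bs : List ℕ) {t : ℕ} {cs : List ℕ}, dg bs t = some cs →
    cs.length = bs.length ∧ (∀ c ∈ cs, c < 5) ∧ t = wsum bs cs
  | [], t, cs, h => by
    simp only [dg] at h
    split_ifs at h with h1
    injection h with h
    subst h
    exact ⟨rfl, by simp, h1⟩
  | b :: bs, t, cs, h => by
    simp only [dg] at h
    split_ifs at h with h1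
    obtain ⟨cs', h2, rfl⟩ := Option.map_eq_some_iff.1 h
    obtain ⟨h3, h4, h5⟩ := dg_some bs h2
    refine ⟨by simp [h3], ?_, ?_⟩
    · intro c hc
      rcases List.mem_cons.1 hc with rfl | hc
      · exact h1
      · exact h4 c hc
    · show t = t / b * b + wsum bs cs'
      rw [← h5, Nat.mul_comm]
      exact (Nat.div_add_mod t b).symm

theorem dg_wsum : ∀ (bs : List ℕ) {W : ℕ} {cs : List ℕ}, Good bs W → cs.length = bs.length →
    (∀ c ∈ cs, c < 5) → dg bs (wsum bs cs) = some cs ∧ wsum bs cs < W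
  | [], W, [], h, _, _ => ⟨rfl, h⟩
  | b :: bs, W, c :: cs, h, hl, hc => by
    obtain ⟨h1, h2⟩ := dg_wsum bs h.2 (by simpa using hl) fun d hd => hc d (by simp [hd])
    have hb := h.2.pos
    have hc5 := hc c (by simp)
    have e1 : (c * b + wsum bs cs) / b = c := by
      rw [Nat.mul_comm, Nat.mul_add_div (by omega), Nat.div_eq_of_lt h2, Nat.add_zero]
    have e2 : (c * b + wsum bs cs) % b = wsum bs cs := by
      rw [Nat.mul_comm, Nat.mul_add_mod, Nat.mod_eq_of_lt h2]
    constructor
    · show (if (c * b + wsum bs cs) / b < 5 then (dg bs ((c * b + wsum bs cs) % b)).map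
        (fun cs' => (c * b + wsum bs cs) / b :: cs') else none) = _
      rw [e1, e2, if_pos hc5, h1]
      rfl
    · show c * b + wsum bs cs < W
      have := h.1
      have : c * b ≤ 4 * b := Nat.mul_le_mul_right _ (by omega)
      omega

theorem wsum_mod (p : ℕ) : ∀ (bs cs : List ℕ) (l : ℕ), cs.length = bs.length →
    (∀ l' < bs.length, l' ≠ l → p ∣ bs.getD l' 0) → l < bs.length →
    wsum bs cs % p = (cs.getD l 0 * bs.getD l 0) % p
  | [], _, _, _, _, h => by simp at h
  | b :: bs, [], _, h, _, _ => by simp at h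
  | b :: bs, c :: cs, 0, hl, h, _ => by
    have key : ∀ (bs cs : List ℕ), cs.length = bs.length → (∀ l' < bs.length, p ∣ bs.getD l' 0) →
        p ∣ wsum bs cs := by
      intro bs
      induction bs with
      | nil => intro cs _ _; cases cs <;> simp [wsum]
      | cons b bs ih =>
        intro cs hl h
        cases cs with
        | nil => simp at hl
        | cons c cs =>
          refine Nat.dvd_add (Dvd.dvd.mul_left ?_ _) (ih cs (by simpa using hl) ?_)
          · simpa using h 0 (by simp)
          · intro l' hl'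
            simpa using h (l' + 1) (by simpa using hl')
    have h1 : p ∣ wsum bs cs := by
      apply key bs cs (by simpa using hl)
      intro l' hl'
      simpa using h (l' + 1) (by simpa using hl') (by omega)
    show (c * b + wsum bs cs) % p = (c * b) % p
    obtain ⟨m, hm⟩ := h1
    rw [hm, Nat.add_mul_mod_self_left]
  | b :: bs, c :: cs, l + 1, hl, h, hlt => by
    have h1 : p ∣ b := by simpa using h 0 (by simp) (by omega)
    have ih := wsum_mod p bs cs l (by simpa using hl) (fun l' hl' hne => by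
      simpa using h (l' + 1) (by simpa using hl') (by omega)) (by simpa using hlt)
    show (c * b + wsum bs cs) % p = ((c :: cs).getD (l + 1) 0 * (b :: bs).getD (l + 1) 0) % p
    obtain ⟨m, hm⟩ := h1
    have h2 : c * b + wsum bs cs = wsum bs cs + p * (c * m) := by rw [hm]; ring
    rw [h2, Nat.add_mul_mod_self_left, ih]
    simp

section primes

variable (p : ℕ → ℕ)

/-- The product of a row. -/
def Qd (l : ℕ) : ℕ := ∏ k ∈ Finset.range (l + 1), p (tri l + k)

/-- The product of all primes. -/
def Nn (n : ℕ) : ℕ := ∏ k ∈ Finset.range (tri n), p k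

theorem Nn_eq : ∀ n, Nn p n = ∏ l ∈ Finset.range n, Qd p l
  | 0 => by simp [Nn, tri]
  | n + 1 => by
    rw [Finset.prod_range_succ, ← Nn_eq n]
    unfold Nn Qd
    rw [tri, Finset.prod_range_add]

/-- The weight of a level. -/
def Bw (n l : ℕ) : ℕ := Nn p n / Qd p l

/-- The data of a level. -/
def rowOf (qs : List Bool) (l : ℕ) : Row :=
  (qs.getD l true, Bw p qs.length l, p (tri l), (List.range l).map fun k => p (tri l + 1 + k))

/-- The data of all levels. -/
def rowsOf (qs : List Bool) : List Row := (List.range qs.length).map (rowOf p qs)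

variable {p} {n : ℕ} (hp : ∀ k < tri n, (p k).Prime ∧ 7 ≤ p k)
  (hm : ∀ k k', k < k' → k' < tri n → p k < p k')

include hp hm

omit hp in
theorem p_inj {k k' : ℕ} (h : k < tri n) (h' : k' < tri n) (e : p k = p k') : k = k' := by
  rcases lt_trichotomy k k' with h1 | h1 | h1
  · have := hm k k' h1 h'; omega
  · exact h1
  · have := hm k' k h1 h; omega

omit hm in
theorem Qd_pos {l : ℕ} (hl : l < n) : 0 < Qd p l := by
  unfold Qd
  refine Finset.prod_pos fun k hk => ?_
  have h1 := Finset.mem_range.1 hk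
  have h2 : tri l + k < tri n := by
    have : tri (l + 1) ≤ tri n := tri_mono hl
    have e : tri (l + 1) = tri l + (l + 1) := rfl
    omega
  have := (hp _ h2).2
  omega

omit hm in
theorem Bw_eq {l : ℕ} (hl : l < n) : Bw p n l = ∏ l' ∈ (Finset.range n).erase l, Qd p l' := by
  unfold Bw
  rw [Nn_eq, ← Finset.mul_prod_erase (Finset.range n) (Qd p) (Finset.mem_range.2 hl)]
  exact Nat.mul_div_cancel_left _ (Qd_pos hp hl)

omit hm in
theorem Qd_mul_Bw {l : ℕ} (hl : l < n) : Qd p l * Bw p n l = Nn p n := by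
  rw [Bw_eq hp hl, Nn_eq]
  exact Finset.mul_prod_erase (Finset.range n) (Qd p) (Finset.mem_range.2 hl)

omit hp hm in
theorem tri_lt {l k : ℕ} (hk : k ≤ l) (hl : l < n) : tri l + k < tri n := by
  have : tri (l + 1) ≤ tri n := tri_mono hl
  have e : tri (l + 1) = tri l + (l + 1) := rfl
  omega

omit hp hm in
theorem tri_inj {l l' k k' : ℕ} (hk : k ≤ l) (hk' : k' ≤ l') (e : tri l + k = tri l' + k') :
    l = l' := by
  rcases lt_trichotomy l l' with h | h | h
  · have h1 : tri (l + 1) ≤ tri l' := tri_mono h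
    have e1 : tri (l + 1) = tri l + (l + 1) := rfl
    omega
  · exact h
  · have h1 : tri (l' + 1) ≤ tri l := tri_mono h
    have e1 : tri (l' + 1) = tri l' + (l' + 1) := rfl
    omega

omit hm in
theorem dvd_Bw {l l' k : ℕ} (hl : l < n) (hl' : l' < n) (hne : l' ≠ l) (hk : k ≤ l') :
    p (tri l' + k) ∣ Bw p n l := by
  rw [Bw_eq hp hl]
  refine Dvd.dvd.trans ?_ (Finset.dvd_prod_of_mem (Qd p)
    (Finset.mem_erase.2 ⟨hne, Finset.mem_range.2 hl'⟩))
  exact Finset.dvd_prod_of_mem (fun k => p (tri l' + k)) (Finset.mem_range.2 (by omega))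

theorem not_dvd_Bw {l k : ℕ} (hl : l < n) (hk : k ≤ l) : ¬ p (tri l + k) ∣ Bw p n l := by
  rw [Bw_eq hp hl]
  have hpr := (hp _ (tri_lt hk hl)).1
  intro h
  obtain ⟨l', hl', h1⟩ := (Prime.dvd_finsetProd_iff hpr.prime _).1 h
  obtain ⟨k', hk', h2⟩ := (Prime.dvd_finsetProd_iff hpr.prime _).1 h1
  have hl'' := Finset.mem_erase.1 hl'
  have hln := Finset.mem_range.1 hl''.2
  have hkl : k' ≤ l' := by have := Finset.mem_range.1 hk'; omega
  have h3 := (Nat.prime_dvd_prime_iff_eq hpr (hp _ (tri_lt hkl hln)).1).1 h2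
  have h4 := p_inj hm (tri_lt hk hl) (tri_lt hkl hln) h3
  exact hl''.1 (tri_inj hk hkl h4).symm

theorem res_nodup {l k : ℕ} (hl : l < n) (hk : k ≤ l) : (res (Bw p n l) (p (tri l + k))).Nodup := by
  unfold res
  refine List.Nodup.map_on ?_ List.nodup_range
  intro c hc c' hc' e
  have hc := List.mem_range.1 hc
  have hc' := List.mem_range.1 hc'
  have hpr := hp _ (tri_lt hk hl)
  have h1 : c * Bw p n l ≡ c' * Bw p n l [MOD p (tri l + k)] := e
  have hco : Nat.gcd (p (tri l + k)) (Bw p n l) = 1 :=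
    (Nat.Prime.coprime_iff_not_dvd hpr.1).2 (not_dvd_Bw hp hm hl hk)
  have h2 : c ≡ c' [MOD p (tri l + k)] := Nat.ModEq.cancel_right_of_coprime hco h1
  have h3 : c % p (tri l + k) = c' % p (tri l + k) := h2
  rwa [Nat.mod_eq_of_lt (by omega), Nat.mod_eq_of_lt (by omega)] at h3

theorem obs_iff {l k t c : ℕ} (hl : l < n) (hk : k ≤ l) (hc : c < 5) :
    obs t (Bw p n l) (p (tri l + k)) = c ↔ t % p (tri l + k) = (c * Bw p n l) % p (tri l + k) := by
  have hn := res_nodup hp hm hl hk
  have hlen : (res (Bw p n l) (p (tri l + k))).length = 5 := by simp [res]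
  have hget : ∀ (c : ℕ) (hc : c < (res (Bw p n l) (p (tri l + k))).length),
      (res (Bw p n l) (p (tri l + k)))[c] = (c * Bw p n l) % p (tri l + k) := by
    intro c hc
    simp [res]
  unfold obs
  constructor
  · intro h
    have h1 : (res (Bw p n l) (p (tri l + k))).idxOf (t % p (tri l + k)) <
        (res (Bw p n l) (p (tri l + k))).length := by rw [h, hlen]; exact hc
    have h2 := List.getElem_idxOf h1
    rw [hget] at h2
    rw [← h2, h]
  · intro h
    rw [h, ← hget c (by rw [hlen]; exact hc)]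
    exact List.Nodup.idxOf_getElem hn c _

omit hp hm in
theorem good_of : ∀ (n : ℕ) (b : ℕ → ℕ) (W : ℕ), (0 < n → 5 * b 0 ≤ W) →
    (∀ l, l + 1 < n → 5 * b (l + 1) ≤ b l) → (∀ l < n, 1 ≤ b l) → 1 ≤ W →
    Good ((List.range n).map b) W
  | 0, _, _, _, _, _, h => h
  | n + 1, b, W, h0, h1, h2, _ => by
    rw [List.range_succ_eq_map, List.map_cons, List.map_map]
    refine ⟨h0 (by omega), ?_⟩
    exact good_of n (b ∘ Nat.succ) (b 0) (fun hn => h1 0 (by omega))
      (fun l hl => h1 (l + 1) (by omega)) (fun l hl => h2 (l + 1) (by omega)) (h2 0 (by omega))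

theorem Qd_succ {l : ℕ} (hl : l + 1 < n) : 5 * Qd p l ≤ Qd p (l + 1) := by
  unfold Qd
  rw [Finset.prod_range_succ (n := l + 1)]
  have h1 : ∏ k ∈ Finset.range (l + 1), p (tri l + k) ≤
      ∏ k ∈ Finset.range (l + 1), p (tri (l + 1) + k) := by
    refine Finset.prod_le_prod' fun k hk => ?_
    have hk' := Finset.mem_range.1 hk
    refine (hm _ _ ?_ ?_).le
    · have e : tri (l + 1) = tri l + (l + 1) := rfl
      omega
    · exact tri_lt (by omega) hl
  have h2 : 7 ≤ p (tri (l + 1) + (l + 1)) := (hp _ (tri_lt le_rfl hl)).2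
  calc 5 * ∏ k ∈ Finset.range (l + 1), p (tri l + k)
      ≤ 7 * ∏ k ∈ Finset.range (l + 1), p (tri (l + 1) + k) := Nat.mul_le_mul (by norm_num) h1
    _ = (∏ k ∈ Finset.range (l + 1), p (tri (l + 1) + k)) * 7 := Nat.mul_comm _ _
    _ ≤ _ := Nat.mul_le_mul_left _ h2

omit hm in
theorem Nn_pos : 0 < Nn p n := by
  unfold Nn
  refine Finset.prod_pos fun k hk => ?_
  have := (hp k (Finset.mem_range.1 hk)).2
  omega

omit hm in
theorem Bw_pos {l : ℕ} (hl : l < n) : 0 < Bw p n l := by
  have h1 := Qd_mul_Bw hp hl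
  have h2 : 0 < Nn p n := Nn_pos hp
  rw [← h1] at h2
  exact Nat.pos_of_mul_pos_left h2

theorem good_Bw : Good ((List.range n).map (Bw p n)) (Nn p n) := by
  refine good_of n _ _ ?_ ?_ (fun l hl => Bw_pos hp hl) (Nn_pos hp)
  · intro hn
    rw [← Qd_mul_Bw hp hn]
    refine Nat.mul_le_mul_right _ ?_
    have h1 : Qd p 0 = p 0 := by simp [Qd, tri]
    have h2 := (hp 0 (by
      have : tri 1 ≤ tri n := tri_mono hn
      have e : tri 1 = 1 := rfl
      omega)).2
    omega
  · intro l hl
    have h1 := Qd_mul_Bw hp (show l < n by omega)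
    have h2 := Qd_mul_Bw hp hl
    have h3 := Qd_succ hp hm hl
    have h4 := Qd_pos hp (show l < n by omega)
    have h5 : Qd p l * (5 * Bw p n (l + 1)) ≤ Qd p l * Bw p n l := by
      calc Qd p l * (5 * Bw p n (l + 1)) = (5 * Qd p l) * Bw p n (l + 1) := by ring
        _ ≤ Qd p (l + 1) * Bw p n (l + 1) := Nat.mul_le_mul_right _ h3
        _ = Qd p l * Bw p n l := by rw [h2, h1]
    exact Nat.le_of_mul_le_mul_left h5 h4

omit hp hm in
theorem exists_tri : ∀ (n k : ℕ), k < tri n → ∃ l < n, ∃ k' ≤ l, k = tri l + k'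
  | 0, k, h => by simp [tri] at h
  | n + 1, k, h => by
    by_cases h1 : k < tri n
    · obtain ⟨l, hl, k', hk', e⟩ := exists_tri n k h1
      exact ⟨l, by omega, k', hk', e⟩
    · have e : tri (n + 1) = tri n + (n + 1) := rfl
      exact ⟨n, by omega, k - tri n, by omega, by omega⟩

theorem modEq_Nn {t t' : ℕ} (h : ∀ k < tri n, t % p k = t' % p k) : t ≡ t' [MOD Nn p n] := by
  unfold Nn
  have key : ∀ m ≤ tri n, t ≡ t' [MOD ∏ k ∈ Finset.range m, p k] := by
    intro m
    induction m with
    | zero => intro _; simp [Nat.modEq_one]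
    | succ m ih =>
      intro hmn
      rw [Finset.prod_range_succ]
      refine (Nat.modEq_and_modEq_iff_modEq_mul ?_).1 ⟨ih (by omega), h m (by omega)⟩
      refine Nat.Coprime.prod_left fun k hk => ?_
      have hk' := Finset.mem_range.1 hk
      refine (Nat.coprime_primes (hp k (by omega)).1 (hp m (by omega)).1).2 ?_
      exact (hm k m hk' (by omega)).ne
  exact key _ le_rfl

omit hp hm in
theorem rowsShow_map {t : ℕ} : ∀ (n : ℕ) (f : ℕ → Row) (cs : List ℕ),
    RowsShow t ((List.range n).map f) cs ↔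
      cs.length = n ∧ ∀ l < n, cs.getD l 0 < 5 ∧ Shows t (f l) (cs.getD l 0)
  | 0, f, [] => by simp [RowsShow]
  | 0, f, c :: cs => by simp [RowsShow]
  | n + 1, f, [] => by
    rw [List.range_succ_eq_map, List.map_cons]
    simp [RowsShow]
  | n + 1, f, c :: cs => by
    rw [List.range_succ_eq_map, List.map_cons, List.map_map]
    show (c < 5 ∧ Shows t (f 0) c ∧ RowsShow t ((List.range n).map (f ∘ Nat.succ)) cs) ↔ _
    rw [rowsShow_map n (f ∘ Nat.succ) cs]
    constructor
    · rintro ⟨h1, h2, h3, h4⟩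
      refine ⟨by simp [h3], ?_⟩
      intro l hl
      cases l with
      | zero => exact ⟨h1, h2⟩
      | succ l => simpa using h4 l (by omega)
    · rintro ⟨h1, h2⟩
      refine ⟨(h2 0 (by omega)).1, (h2 0 (by omega)).2, by simpa using h1, ?_⟩
      intro l hl
      simpa using h2 (l + 1) (by omega)

end primes

/-- For `t < N` the rows show exactly the digits of `t`. -/
theorem rows_dg {p : ℕ → ℕ} {qs : List Bool} (hp : ∀ k < tri qs.length, (p k).Prime ∧ 7 ≤ p k)
    (hm : ∀ k k', k < k' → k' < tri qs.length → p k < p k') {t : ℕ} (ht : t < Nn p qs.length)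
    (cs : List ℕ) : RowsShow t (rowsOf p qs) cs ↔
      dg ((List.range qs.length).map (Bw p qs.length)) t = some cs := by
  set n := qs.length with hn
  set bs := (List.range n).map (Bw p n) with hbs
  have hbl : bs.length = n := by simp [hbs]
  have hbget : ∀ l < n, bs.getD l 0 = Bw p n l := by
    intro l hl
    rw [List.getD_eq_getElem _ _ (by rw [hbl]; exact hl)]
    simp [hbs]
  have hgood : Good bs (Nn p n) := good_Bw hp hm
  have hws : ∀ cs : List ℕ, cs.length = n → ∀ l < n, ∀ k ≤ l,
      wsum bs cs % p (tri l + k) = (cs.getD l 0 * Bw p n l) % p (tri l + k) := by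
    intro cs hcs l hl k hk
    rw [wsum_mod (p (tri l + k)) bs cs l (by rw [hcs, hbl]) ?_ (by rw [hbl]; exact hl), hbget l hl]
    intro l' hl' hne
    rw [hbl] at hl'
    rw [hbget l' hl']
    exact dvd_Bw hp hl' hl (fun e => hne e.symm) hk
  have hshow : ∀ cs : List ℕ, ∀ l < n, cs.getD l 0 < 5 →
      (Shows t (rowOf p qs l) (cs.getD l 0) ↔
        ∀ k ≤ l, t % p (tri l + k) = (cs.getD l 0 * Bw p n l) % p (tri l + k)) := by
    intro cs l hl hc
    constructor
    · intro h k hk
      rw [← obs_iff hp hm hl hk hc]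
      rcases Nat.eq_zero_or_pos k with rfl | hk0
      · exact h.1
      · refine h.2 (p (tri l + k)) ?_
        refine List.mem_map.2 ⟨k - 1, List.mem_range.2 (by omega), ?_⟩
        congr 1
        omega
    · intro h
      refine ⟨(obs_iff hp hm hl (Nat.zero_le l) hc).2 (h 0 (Nat.zero_le l)), ?_⟩
      intro q hq
      obtain ⟨k, hk, rfl⟩ := List.mem_map.1 hq
      have hk := List.mem_range.1 hk
      have := (obs_iff hp hm hl (k := k + 1) (by omega) hc (t := t)).2 (h (k + 1) (by omega))
      rw [show tri l + (k + 1) = tri l + 1 + k by ring] at this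
      exact this
  unfold rowsOf
  rw [rowsShow_map, ← hn]
  constructor
  · rintro ⟨h1, h2⟩
    have hlt5 : ∀ c ∈ cs, c < 5 := by
      intro c hc
      obtain ⟨l, hl, rfl⟩ := List.mem_iff_getElem.1 hc
      have := (h2 l (by rw [← h1]; exact hl)).1
      rwa [List.getD_eq_getElem _ _ hl] at this
    obtain ⟨h3, h4⟩ := dg_wsum bs hgood (by rw [h1, hbl]) hlt5
    have h5 : t ≡ wsum bs cs [MOD Nn p n] := by
      apply modEq_Nn hp hm
      intro k hk
      obtain ⟨l, hl, k', hk', rfl⟩ := exists_tri n k hk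
      rw [hws cs h1 l hl k' hk']
      exact (hshow cs l hl (h2 l hl).1).1 (h2 l hl).2 k' hk'
    have h6 : t = wsum bs cs := by
      have := h5
      unfold Nat.ModEq at this
      rwa [Nat.mod_eq_of_lt ht, Nat.mod_eq_of_lt h4] at this
    rw [h6]
    exact h3
  · intro h
    obtain ⟨h1, h2, h3⟩ := dg_some bs h
    rw [hbl] at h1
    refine ⟨h1, fun l hl => ?_⟩
    have hc : cs.getD l 0 < 5 := by
      rw [List.getD_eq_getElem _ _ (by rw [h1]; exact hl)]
      exact h2 _ (List.getElem_mem _)
    refine ⟨hc, (hshow cs l hl hc).2 fun k hk => ?_⟩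
    rw [h3]
    exact hws cs h1 l hl k hk

theorem map_getD_range (qs : List Bool) : (List.range qs.length).map (fun l => qs.getD l true) = qs := by
  apply List.ext_getElem
  · simp
  · intro i h1 h2
    simp [h2]

/-- **The value of the formula after `N` units of time.** -/
theorem foldl_fin {p : ℕ → ℕ} {Q : QF} (hwf : QFwf Q)
    (hp : ∀ k < tri Q.1.length, (p k).Prime ∧ 7 ≤ p k)
    (hm : ∀ k k', k < k' → k' < tri Q.1.length → p k < p k') :
    (List.range (Nn p Q.1.length)).foldl (fun r t => fin QM (insL (rowsOf p Q.1) Q.2) t r)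
      ((true, false, false) : B3) = (true, evq Q.1 (fun u => evc u Q.2), false) := by
  have h1 : (List.range (Nn p Q.1.length)).foldl
      (fun r t => fin QM (insL (rowsOf p Q.1) Q.2) t r) ((true, false, false) : B3) =
      cmpo (opt ((List.range Q.1.length).map (Bw p Q.1.length))
        fun cs r => act Q.1 cs 0 1 false (fun u => evc u Q.2) r) (Nn p Q.1.length)
        (true, false, false) := by
    show cmpo (fun t r => fin QM (insL (rowsOf p Q.1) Q.2) t r) _ _ = _
    refine cmpo_congr (fun t ht r => ?_) _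
    have hrow : (rowsOf p Q.1).map (fun R => R.1) = Q.1 := by
      unfold rowsOf
      rw [List.map_map]
      exact map_getD_range Q.1
    have hlen : (rowsOf p Q.1).length = Q.1.length := by simp [rowsOf]
    by_cases h : ∃ cs, RowsShow t (rowsOf p Q.1) cs
    · obtain ⟨cs, hcs⟩ := h
      rw [fin_shows hcs (by rw [hlen]; exact hwf), hrow]
      rw [rows_dg hp hm ht] at hcs
      unfold opt
      rw [hcs]
      rfl
    · rw [fin_dead h]
      have h2 : dg ((List.range Q.1.length).map (Bw p Q.1.length)) t = none := by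
        cases h3 : dg ((List.range Q.1.length).map (Bw p Q.1.length)) t with
        | none => rfl
        | some cs => exact absurd ⟨cs, (rows_dg hp hm ht cs).2 h3⟩ h
      unfold opt
      rw [h2]
      rfl
  rw [h1, cmpo_act Q.1 _ _ 0 1 false _ _ (by simp) (good_Bw hp hm) (by decide)]
  cases evq Q.1 (fun u => evc u Q.2) <;> rfl

end Pool.Agent.V7H67.NM
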